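import Pool.Agent.SYS.PX.Br

/-!
# SYS-PX-Abs2: ends with a very large swallow

PLAN.  `tree_le` (`Reg/Tree`) for the rule `rb b`, gate `rb b [] S x` (`typ_repl`), the set `Q` (ends: `RchG (rb b) [] S (rb b [] S x) q.1 q.2.1 q.2.2` by `br_rchg`, `rb_none`), with `Φ u _ _ := if u contains a swallow L k a / R k a with k₀ ≤ k then 1 else 2 * (N - u.length) * t` (real subtraction replaced by `((N - u.length : ℕ) : ℝ)`).
On `Q`: `Φ = 1`.  `Φ [] = 2 * N * t`.  STEP at a node `u` which is a proper ancestor of an element of `Q`: `u.length < N`.  If `u` has a large swallow: the sum of `nwt` over the children is `≤ 1` (`tree_mass` for words of length 1, or `step_le` with `φ = 1`).  Otherwise: children with a large swallow: total weight `≤ 2 t` (`step_le` of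
`Reg/TreeU` with `φ s = 1` for large swallows and `0` otherwise, `ht` for `.L` and `.R`), the others: `≤ 2 (N - u.length - 1) t`.  Use `step_le` once with `φ s = if s is a large swallow then 1 else 2 (N - u.length - 1) t`.  (The sum of all step weights is `≤ 1`: see the proof of `tree_mass`.)
PREFIX-FREE: if `Anc` from `q` to `q'` with word `v'`: ends of the same block; `v' = []` must be proved: `BR` to `q'.2.1` with the word `q.1 ++ v'` passes `q.2.1` after `q.1` (both runs from `S` are below `q'.2.1`: `rchg_unique` with `U = q'.2.1`), and at the node after `q.1` the block gives `some _` if `v' ≠ []` (definition of `BR`,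
`br_append`), but `b q.2.1 = none`.  So `v' = []`, and `q = q'`.
-/

namespace SYS
namespace Part

open Classical SST Num

variable {D : Type} [Finite D] {l : List D} {p : ℕ} {P : List ℕ} {F κ : ℕ} {S : Part D} {x : D} {b : Part D → Option D}

/-- Ends of a block are prefix-free. -/
theorem end_pf (hx : x ∈ S.B) (Q : Finset (List Stp × Part D × D)) (hQ : ∀ q ∈ Q, BEnd b S x q) :
    (∀ q ∈ Q, RchG (rb b) [] S (rb b [] S x) q.1 q.2.1 q.2.2) ∧ ∀ q ∈ Q, ∀ q' ∈ Q, Anc (rb b) [] q q' → q = q' := by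
  have _ := hx
  have h0 : ∀ q ∈ Q, RchG (rb b) [] S (rb b [] S x) q.1 q.2.1 q.2.2 := by
    intro q hq
    obtain ⟨h1, h2⟩ := hQ q hq
    have h3 := br_rchg (h := []) h1
    rw [rb_none h2] at h3
    exact h3
  refine ⟨h0, ?_⟩
  rintro ⟨u, U, y⟩ hq ⟨u', U', y'⟩ hq' ⟨v, hv, hr⟩
  change u' = u ++ v at hv
  subst hv
  change RchG (rb b) ([] ++ u) U y v U' y' at hr
  obtain ⟨h1, h2⟩ := hQ _ hq
  obtain ⟨h3, h4⟩ := hQ _ hq'
  change BR b S x u U y at h1
  change b U = none at h2
  change BR b S x (u ++ v) U' y' at h3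
  change b U' = none at h4
  obtain ⟨V, z, h5, h6⟩ := br_append.1 h3
  have h7 := h0 _ hq
  change RchG (rb b) [] S (rb b [] S x) u U y at h7
  have h8 := br_rchg (h := []) h5
  obtain ⟨rfl, h9⟩ := rchg_unique h7 h8 (rchg_sub hr) (br_sub h6)
  cases v with
  | nil =>
    obtain ⟨h10, h11⟩ := hr
    change U' = U at h10
    change y' = y at h11
    rw [List.append_nil, h10, h11]
  | cons s v =>
    obtain ⟨d, _, _, h10, -⟩ := h6
    rw [h2] at h10
    exact absurd h10 (by simp)

/-- A large swallow. -/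
private def Lg (k₀ : ℕ) (s : Stp) : Prop := ∃ k a, (s = .L k a ∨ s = .R k a) ∧ k₀ ≤ k

private def lgc : Stp → ℕ × ℕ
  | .T => (0, 0)
  | .L k a => (k, a)
  | .R k a => (k, a)

private def isL (s : Stp) : Prop := ∃ k a, s = .L k a

private theorem a2_wt {X : ℝ} (s : Stp) : 0 ≤ s.wt (AA X) (qq X) := by
  cases s with
  | T =>
    show 0 ≤ AA X
    have := AA_gt X
    linarith
  | L k a => exact qq_nonneg X k a
  | R k a => exact qq_nonneg X k a

private theorem lg_sum {X : ℝ} {k₀ : ℕ} {t : ℝ}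
    (ht : ∀ G : Finset (ℕ × ℕ), (∀ c ∈ G, k₀ ≤ c.1) → ∑ c ∈ G, qq X c.1 c.2 ≤ t) (G : Finset Stp) :
    ∑ s ∈ G, s.wt (AA X) (qq X) * (if Lg k₀ s then 1 else 0) ≤ 2 * t := by
  have h1 : ∑ s ∈ G, s.wt (AA X) (qq X) * (if Lg k₀ s then 1 else 0) = ∑ s ∈ G.filter (Lg k₀), s.wt (AA X) (qq X) := by
    rw [Finset.sum_filter]
    refine Finset.sum_congr rfl fun s _ => ?_
    by_cases h : Lg k₀ s
    · rw [if_pos h, if_pos h, mul_one]
    · rw [if_neg h, if_neg h, mul_zero]
  rw [h1, ← Finset.sum_filter_add_sum_filter_not (G.filter (Lg k₀)) isL]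
  have key : ∀ H : Finset Stp, (∀ s ∈ H, Lg k₀ s) → Set.InjOn lgc (H : Set Stp) → ∑ s ∈ H, s.wt (AA X) (qq X) ≤ t := by
    intro H hH hinj
    have h2 := ht (H.image lgc) (by
      intro c hc
      obtain ⟨s, hs, rfl⟩ := Finset.mem_image.1 hc
      obtain ⟨k, a, rfl | rfl, hk⟩ := hH s hs
      · exact hk
      · exact hk)
    rw [Finset.sum_image hinj] at h2
    refine le_trans (le_of_eq (Finset.sum_congr rfl fun s hs => ?_)) h2
    obtain ⟨k, a, rfl | rfl, hk⟩ := hH s hs
    · rfl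
    · rfl
  have hA : ∑ s ∈ (G.filter (Lg k₀)).filter isL, s.wt (AA X) (qq X) ≤ t := by
    refine key _ (fun s hs => (Finset.mem_filter.1 (Finset.mem_filter.1 hs).1).2) ?_
    intro s hs s' hs' hss
    obtain ⟨k, a, rfl⟩ := (Finset.mem_filter.1 (Finset.mem_coe.1 hs)).2
    obtain ⟨k', a', rfl⟩ := (Finset.mem_filter.1 (Finset.mem_coe.1 hs')).2
    change (k, a) = (k', a') at hss
    rw [Prod.mk.injEq] at hss
    rw [hss.1, hss.2]
  have hB : ∑ s ∈ (G.filter (Lg k₀)).filter (fun s => ¬ isL s), s.wt (AA X) (qq X) ≤ t := by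
    refine key _ (fun s hs => (Finset.mem_filter.1 (Finset.mem_filter.1 hs).1).2) ?_
    intro s hs s' hs' hss
    have h3 := Finset.mem_filter.1 (Finset.mem_coe.1 hs)
    have h4 := Finset.mem_filter.1 (Finset.mem_coe.1 hs')
    obtain ⟨k, a, rfl | rfl, -⟩ := (Finset.mem_filter.1 h3.1).2
    · exact absurd ⟨k, a, rfl⟩ h3.2
    obtain ⟨k', a', rfl | rfl, -⟩ := (Finset.mem_filter.1 h4.1).2
    · exact absurd ⟨k', a', rfl⟩ h4.2
    change (k, a) = (k', a') at hss
    rw [Prod.mk.injEq] at hss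
    rw [hss.1, hss.2]
  linarith

theorem abs2 {X : ℝ} (hX : 0 < X) (hS : S.Typ (x :: l) (p :: P) F κ) (Q : Finset (List Stp × Part D × D))
    (hQ : ∀ q ∈ Q, BEnd b S x q) {N k₀ : ℕ} (hN : ∀ q ∈ Q, q.1.length ≤ N)
    (hk : ∀ q ∈ Q, ∃ s ∈ q.1, ∃ k a, (s = .L k a ∨ s = .R k a) ∧ k₀ ≤ k) {t : ℝ}
    (ht : ∀ G : Finset (ℕ × ℕ), (∀ c ∈ G, k₀ ≤ c.1) → ∑ c ∈ G, qq X c.1 c.2 ≤ t) :
    ∑ q ∈ Q, nwt X F q.1 ≤ 2 * N * t := by
  have hx : x ∈ S.B := hS.hl.1 x List.mem_cons_self
  obtain ⟨hQ1, hQ2⟩ := end_pf hx Q hQ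
  have ht0 : 0 ≤ t := by
    have := ht ∅ (by simp)
    simpa using this
  obtain ⟨hg1, hg2⟩ := rb_rul b [] S x hx
  have hS' := typ_repl hS hg1 hg2
  have hmain := tree_le hX (rb_rul b) hS' Q hQ1 hQ2
    (fun u _ _ => if ∃ s ∈ u, Lg k₀ s then (1 : ℝ) else 2 * ((N - u.length : ℕ) : ℝ) * t)
    (fun u _ _ => by
      split_ifs
      · exact zero_le_one
      · positivity) (by
    intro u S' x' hr hnQ hanc C hC
    obtain ⟨hok, F', hF', hT⟩ := rchg_typ (rb_rul b) hS' hr
    have hFF : F - wvol u = F' := by omega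
    rw [hFF]
    have hlen : u.length + 1 ≤ N := by
      obtain ⟨q, hq, v, hv, hrv⟩ := hanc
      change q.1 = u ++ v at hv
      have h1 := hN q hq
      rw [hv, List.length_append] at h1
      have h2 : v ≠ [] := by
        rintro rfl
        obtain ⟨h3, h4⟩ := hrv
        rw [List.append_nil] at hv
        apply hnQ
        have h5 : (u, S', x') = q := Prod.ext hv.symm (Prod.ext h3.symm h4.symm)
        rw [h5]
        exact hq
      have h3 := List.length_pos_iff.2 h2
      omega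
    have hcast : ((N - u.length : ℕ) : ℝ) = ((N - (u.length + 1) : ℕ) : ℝ) + 1 := by
      have h4 : N - u.length = (N - (u.length + 1)) + 1 := by omega
      rw [h4]
      push_cast
      ring
    have hφ : ∀ c : Stp × Part D × D, (if ∃ s ∈ u ++ [c.1], Lg k₀ s then (1 : ℝ) else
        2 * ((N - (u ++ [c.1]).length : ℕ) : ℝ) * t) = (fun s : Stp => if ∃ s' ∈ u, Lg k₀ s' then (1 : ℝ) else
          if Lg k₀ s then 1 else 2 * ((N - (u.length + 1) : ℕ) : ℝ) * t) c.1 := by
      intro c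
      rw [List.length_append, List.length_singleton]
      show _ = (if ∃ s' ∈ u, Lg k₀ s' then (1 : ℝ) else if Lg k₀ c.1 then 1 else 2 * ((N - (u.length + 1) : ℕ) : ℝ) * t)
      by_cases h1 : ∃ s' ∈ u, Lg k₀ s'
      · rw [if_pos h1, if_pos]
        obtain ⟨s', h2, h3⟩ := h1
        exact ⟨s', List.mem_append_left _ h2, h3⟩
      · rw [if_neg h1]
        by_cases h2 : Lg k₀ c.1
        · rw [if_pos h2, if_pos ⟨c.1, by simp, h2⟩]
        · rw [if_neg h2, if_neg]
          rintro ⟨s', h3, h4⟩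
          rcases List.mem_append.1 h3 with h3 | h3
          · exact h1 ⟨s', h3, h4⟩
          · rw [List.mem_singleton] at h3
            rw [h3] at h4
            exact h2 h4
    simp only [hφ]
    refine step_le hX hT C hC (fun s : Stp => if ∃ s' ∈ u, Lg k₀ s' then (1 : ℝ) else
      if Lg k₀ s then 1 else 2 * ((N - (u.length + 1) : ℕ) : ℝ) * t) (fun s => ?_) (fun G _ => ?_)
    · split_ifs
      · exact zero_le_one
      · exact zero_le_one
      · positivity
    · by_cases h1 : ∃ s' ∈ u, Lg k₀ s'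
      · rw [if_pos h1]
        simp only [if_pos h1, mul_one]
        exact (tot_pr hX).2 G
      · rw [if_neg h1]
        simp only [if_neg h1]
        have h2 : ∀ s ∈ G, s.wt (AA X) (qq X) * (if Lg k₀ s then 1 else 2 * ((N - (u.length + 1) : ℕ) : ℝ) * t) ≤
            s.wt (AA X) (qq X) * (if Lg k₀ s then 1 else 0) +
              s.wt (AA X) (qq X) * (2 * ((N - (u.length + 1) : ℕ) : ℝ) * t) := by
          intro s _
          have h3 := a2_wt (X := X) s
          have h4 : 0 ≤ 2 * ((N - (u.length + 1) : ℕ) : ℝ) * t := by positivity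
          split_ifs
          · have := mul_nonneg h3 h4
            linarith
          · rw [mul_zero, zero_add]
        refine (Finset.sum_le_sum h2).trans ?_
        rw [Finset.sum_add_distrib, ← Finset.sum_mul]
        have h5 := lg_sum ht G
        have h6 := (tot_pr hX).2 G
        have h7 : 0 ≤ 2 * ((N - (u.length + 1) : ℕ) : ℝ) * t := by positivity
        have h8 := mul_le_mul_of_nonneg_right h6 h7
        rw [one_mul] at h8
        rw [hcast]
        linarith)
  have hL : ∑ q ∈ Q, nwt X F q.1 * (if ∃ s ∈ q.1, Lg k₀ s then (1 : ℝ) else 2 * ((N - q.1.length : ℕ) : ℝ) * t) =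
      ∑ q ∈ Q, nwt X F q.1 := by
    refine Finset.sum_congr rfl fun q hq => ?_
    have h1 : ∃ s ∈ q.1, Lg k₀ s := hk q hq
    rw [if_pos h1, mul_one]
  have hR : (if ∃ s ∈ ([] : List Stp), Lg k₀ s then (1 : ℝ) else 2 * ((N - ([] : List Stp).length : ℕ) : ℝ) * t) =
      2 * N * t := by
    rw [if_neg (by simp)]
    simp
  rw [hL] at hmain
  exact hmain.trans (le_of_eq hR)

end Part
end SYS
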