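import Pool.Agent.SYS.PX.Defs

/-!
# SYS-PX-IndB: base independence of the number of ends of a block

The proof of `ind` (`Reg/Ind.lean`) with the rule of a block: the first step is a local step at the gate given by
the rule (`bnd_fib`), the rules agree under isomorphisms (`IB`), and `sim_sum` compares the sums over the children.
-/

namespace SYS
namespace Part

open Classical SST

variable {D E : Type} [Finite D] [Finite E] {S S₁ : Part D} {x d : D} {T T₁ : Part E} {y : E} {W : ℕ} {θ : D → E}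
  {b : Part D → Option D} {b' : Part E → Option E}

private theorem ind_three {A : Set D} {t0 t1 t2 : D} (k0 : t0 ∉ A) (k1 : t1 ∉ A) (k2 : t2 ∉ A)
    (h01 : t0 ≠ t1) (h12 : t1 ≠ t2) (h20 : t2 ≠ t0) :
    (A ∪ {t0, t1, t2}).ncard = A.ncard + 3 := by
  have hd : Disjoint A ({t0, t1, t2} : Set D) := by
    rw [Set.disjoint_left]
    rintro a ha (h | h | h)
    · exact k0 (h ▸ ha)
    · exact k1 (h ▸ ha)
    · exact k2 (h ▸ ha)
  rw [Set.ncard_union_eq hd (Set.toFinite _) (Set.toFinite _)]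
  congr 1
  rw [Set.ncard_eq_three]
  exact ⟨t0, t1, t2, h01, h20.symm, h12, rfl⟩

private theorem ind_fill {S S' : Part D} {u : List D} {a : ℕ} (h : S.DiscFill S' u a) :
    S'.R.ncard = S.R.ncard + 3 * a := by
  rcases h with ⟨_, h1, h2⟩ | ⟨_, V, _, h3⟩
  · rw [h1, h2]
    rfl
  · exact h3.R

/-- a step reveals `3 vol s` darts -/
private theorem ind_R {S S' : Part D} {x z : D} {s : Stp} (h : S.St x s S' z) :
    S'.R.ncard = S.R.ncard + 3 * s.vol := by
  cases s with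
  | T =>
    obtain ⟨t0, t1, t2, hx, h0, h1, h2, h01, h12, h20, rfl, rfl⟩ := h
    rw [face_R]
    exact ind_three h0 h1 h2 h01 h12 h20
  | L k a =>
    obtain ⟨y, u, v, w, hx, hy, _, _, _, hf⟩ := h
    have h1 := ind_fill hf
    rw [glue_R] at h1
    exact h1
  | R k a =>
    obtain ⟨y, u, v, w, hx, hy, _, _, _, hf⟩ := h
    have h1 := ind_fill hf
    rw [glue_R] at h1
    exact h1

private theorem ind_F {S S' : Part D} {x z : D} {s : Stp} (h : S.St x s S' z) {F : ℕ}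
    (hF : S.R.ncard + 3 * F = Nat.card D) : S'.R.ncard + 3 * (F - s.vol) = Nat.card D := by
  have h1 := ind_R h
  have h2 : S'.R.ncard ≤ Nat.card D := by
    rw [← Set.ncard_univ]
    exact Set.ncard_le_ncard (Set.subset_univ _) (Set.toFinite _)
  omega

private theorem lbr_sub {b : Part D → Option D} {S : Part D} {x : D} {W : ℕ} {w : List Stp} : ∀ {Z Z' : Part D} {z z' : D},
    LBR b S x W Z z w Z' z' → Z.Sub Z' := by
  induction w with
  | nil =>
    rintro Z Z' z z' ⟨rfl, -⟩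
    exact sub_refl _
  | cons s w ih =>
    rintro Z Z' z z' ⟨d, Z₁, z₁, -, h1, h2⟩
    exact sub_trans (st_sub h1.1).1 (ih h2)

/-- the first step of a local run -/
private theorem bnd_fib (b : Part D → Option D) (Φ : Part D → D → Prop) (S S₁ : Part D) (x d d₁ : D) (W : ℕ)
    (hb : b S₁ = some d₁) (w : List Stp) (s : Stp) :
    (({q : Part D × D | LBR b S x W S₁ d (s :: w) q.1 q.2 ∧ Φ q.1 q.2}.ncard : ℕ) : ℝ) =
      ∑ᶠ c ∈ {c : Part D × D | LSt S S₁ x W d₁ s c.1 c.2},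
        (({q : Part D × D | LBR b S x W c.1 c.2 w q.1 q.2 ∧ Φ q.1 q.2}.ncard : ℕ) : ℝ) := by
  have hA := fib_card {q : Part D × D | LBR b S x W S₁ d (s :: w) q.1 q.2 ∧ Φ q.1 q.2}
    {c : Part D × D | LSt S S₁ x W d₁ s c.1 c.2}
    (fun q c => LBR b S x W c.1 c.2 w q.1 q.2) ?_ ?_
  · rw [hA]
    refine finsum_mem_congr rfl ?_
    rintro ⟨S₂, z⟩ hc
    have hset : {a | a ∈ {q : Part D × D | LBR b S x W S₁ d (s :: w) q.1 q.2 ∧ Φ q.1 q.2} ∧
        LBR b S x W S₂ z w a.1 a.2} = {q : Part D × D | LBR b S x W S₂ z w q.1 q.2 ∧ Φ q.1 q.2} := by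
      ext q
      exact ⟨fun hq => ⟨hq.2, hq.1.2⟩, fun hq => ⟨⟨⟨d₁, S₂, z, hb, hc, hq.1⟩, hq.2⟩, hq.1⟩⟩
    show (({a | a ∈ {q : Part D × D | LBR b S x W S₁ d (s :: w) q.1 q.2 ∧ Φ q.1 q.2} ∧
        LBR b S x W S₂ z w a.1 a.2}.ncard : ℕ) : ℝ) = _
    rw [hset]
  · rintro q ⟨⟨d₂, S₂, z, h0, h1, h2⟩, _⟩
    have h3 : d₂ = d₁ := Option.some.inj (h0.symm.trans hb)
    subst h3
    exact ⟨(S₂, z), h1, h2⟩
  · rintro q - ⟨S₂, z⟩ hc ⟨S₃, z₃⟩ hc' hr hr'
    obtain ⟨h1, h2⟩ := st_unique hc.1 hc'.1 (lbr_sub hr) (lbr_sub hr')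
    exact Prod.ext h1 h2

private theorem bnd_none {b : Part D → Option D} {Φ : Part D → D → Prop} {S S₁ : Part D} {x d : D} {W : ℕ}
    (hb : b S₁ = none) (w : List Stp) (s : Stp) :
    {q : Part D × D | LBR b S x W S₁ d (s :: w) q.1 q.2 ∧ Φ q.1 q.2} = ∅ := by
  rw [Set.eq_empty_iff_forall_notMem]
  rintro q ⟨⟨d₂, S₂, z, h0, -⟩, -⟩
  rw [hb] at h0
  exact absurd h0 (by simp)

private theorem ind_mul {α : Type} [Finite α] (B : Set α) (f : α → ℝ) (K : ℝ) :
    (∑ᶠ b ∈ B, f b) * K = ∑ᶠ b ∈ B, f b * K := by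
  rw [finsum_mem_eq_finite_toFinset_sum _ (Set.toFinite B), finsum_mem_eq_finite_toFinset_sum _ (Set.toFinite B),
    Finset.sum_mul]

private theorem ind_desc (F v m : ℕ) :
    (((3 * F).descFactorial (3 * (v + m)) : ℕ) : ℝ) =
      (((3 * (F - v)).descFactorial (3 * m) : ℕ) : ℝ) * (((3 * F).descFactorial (3 * v) : ℕ) : ℝ) := by
  have h2 := Nat.descFactorial_mul_descFactorial (k := 3 * v) (m := 3 * (v + m)) (n := 3 * F) (by omega)
  have h3 : 3 * F - 3 * v = 3 * (F - v) := by omega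
  have h4 : 3 * (v + m) - 3 * v = 3 * m := by omega
  rw [h3, h4] at h2
  rw [← h2, Nat.cast_mul]

theorem ind_b (hI : IB b b' S x T y W) (Φ : Part D → D → Prop) (Φ' : Part E → E → Prop)
    (hΦ : ∀ (S' : Part D) (T' : Part E) (θ : D → E) (x' : D), Sim S S' x T T' y W θ → x' ∈ NW S S' x W → (Φ S' x' ↔ Φ' T' (θ x')))
    (h : Sim S S₁ x T T₁ y W θ) (hd : d ∈ NW S S₁ x W) (w : List Stp) {F F' : ℕ}
    (hF : S₁.R.ncard + 3 * F = Nat.card D) (hF' : T₁.R.ncard + 3 * F' = Nat.card E) :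
    (({q : Part D × D | LBR b S x W S₁ d w q.1 q.2 ∧ Φ q.1 q.2}.ncard : ℕ) : ℝ) *
        (((3 * F').descFactorial (3 * wvol w) : ℕ) : ℝ) =
      (({q : Part E × E | LBR b' T y W T₁ (θ d) w q.1 q.2 ∧ Φ' q.1 q.2}.ncard : ℕ) : ℝ) *
        (((3 * F).descFactorial (3 * wvol w) : ℕ) : ℝ) := by
  induction w generalizing S₁ d T₁ θ F F' with
  | nil =>
    have h1 : Φ S₁ d ↔ Φ' T₁ (θ d) := hΦ S₁ T₁ θ d h hd
    have h2 : {q : Part D × D | LBR b S x W S₁ d [] q.1 q.2 ∧ Φ q.1 q.2} =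
        if Φ S₁ d then {(S₁, d)} else ∅ := by
      ext ⟨p, q⟩
      by_cases hp : Φ S₁ d
      · rw [if_pos hp]
        constructor
        · rintro ⟨⟨q1, q2⟩, _⟩
          exact Prod.ext q1 q2
        · intro hq
          obtain ⟨q1, q2⟩ := Prod.mk.inj (Set.mem_singleton_iff.1 hq)
          subst q1
          subst q2
          exact ⟨⟨rfl, rfl⟩, hp⟩
      · rw [if_neg hp]
        constructor
        · rintro ⟨⟨q1, q2⟩, hq⟩
          have q1' : p = S₁ := q1
          have q2' : q = d := q2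
          subst q1'
          subst q2'
          exact absurd hq hp
        · intro hq
          exact absurd hq (Set.notMem_empty _)
    have h3 : {q : Part E × E | LBR b' T y W T₁ (θ d) [] q.1 q.2 ∧ Φ' q.1 q.2} =
        if Φ' T₁ (θ d) then {(T₁, θ d)} else ∅ := by
      ext ⟨p, q⟩
      by_cases hp : Φ' T₁ (θ d)
      · rw [if_pos hp]
        constructor
        · rintro ⟨⟨q1, q2⟩, _⟩
          exact Prod.ext q1 q2
        · intro hq
          obtain ⟨q1, q2⟩ := Prod.mk.inj (Set.mem_singleton_iff.1 hq)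
          subst q1
          subst q2
          exact ⟨⟨rfl, rfl⟩, hp⟩
      · rw [if_neg hp]
        constructor
        · rintro ⟨⟨q1, q2⟩, hq⟩
          have q1' : p = T₁ := q1
          have q2' : q = θ d := q2
          subst q1'
          subst q2'
          exact absurd hq hp
        · intro hq
          exact absurd hq (Set.notMem_empty _)
    rw [h2, h3, wvol_nil, Nat.mul_zero, Nat.descFactorial_zero, Nat.descFactorial_zero]
    by_cases hp : Φ S₁ d
    · rw [if_pos hp, if_pos (h1.1 hp), Set.ncard_singleton, Set.ncard_singleton]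
    · rw [if_neg hp, if_neg (fun h' => hp (h1.2 h')), Set.ncard_empty, Set.ncard_empty]
  | cons s w ih =>
    cases hb : b S₁ with
    | none =>
      rw [bnd_none hb, bnd_none ((hI S₁ T₁ θ h).1 hb), Set.ncard_empty, Set.ncard_empty, Nat.cast_zero, zero_mul,
        zero_mul]
    | some d₁ =>
      obtain ⟨hd₁, hb'⟩ := (hI S₁ T₁ θ h).2 d₁ hb
      rw [bnd_fib b Φ S S₁ x d d₁ W hb, bnd_fib b' Φ' T T₁ y (θ d) (θ d₁) W hb', wvol_cons, ind_desc, ind_desc,
        ← mul_assoc, ← mul_assoc,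
        ind_mul (α := Part D × D) _ _ (((3 * (F' - s.vol)).descFactorial (3 * wvol w) : ℕ) : ℝ),
        ind_mul (α := Part E × E) _ _ (((3 * (F - s.vol)).descFactorial (3 * wvol w) : ℕ) : ℝ)]
      refine sim_sum h hd₁ s hF hF'
        (fun c => (({q : Part D × D | LBR b S x W c.1 c.2 w q.1 q.2 ∧ Φ q.1 q.2}.ncard : ℕ) : ℝ) *
          (((3 * (F' - s.vol)).descFactorial (3 * wvol w) : ℕ) : ℝ))
        (fun c => (({q : Part E × E | LBR b' T y W c.1 c.2 w q.1 q.2 ∧ Φ' q.1 q.2}.ncard : ℕ) : ℝ) *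
          (((3 * (F - s.vol)).descFactorial (3 * wvol w) : ℕ) : ℝ)) ?_
      intro S₂ z T₂ z' θ' hs hs' hsim hz hz'
      subst hz'
      exact ih hsim hz (F := F - s.vol) (F' := F' - s.vol) (ind_F hs.1 hF) (ind_F hs'.1 hF')

omit [Finite D] in
private theorem exn_new {S S' : Part D} (h : S.Sub S') {d : D} : d ∈ S'.B \ S.B ↔ d ∈ S'.R \ S.R ∧ d ∈ S'.B := by
  constructor
  · rintro ⟨h1, h2⟩
    refine ⟨⟨h1.1, fun h3 => h2 ⟨h3, ?_⟩⟩, h1⟩
    by_contra h4
    have h5 := h.2 d h4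
    rw [h1.2] at h5
    exact h4 h5.symm
  · rintro ⟨h1, h2⟩
    exact ⟨h2, fun h3 => h1.2 h3.1⟩

theorem sim_exn {S' : Part D} {T' : Part E} (h : Sim S S' x T T' y W θ) : exn S S' = exn T T' := by
  unfold exn
  have h1 : T'.B \ T.B = θ '' (S'.B \ S.B) := by
    ext e
    constructor
    · intro he
      obtain ⟨h2, h3⟩ := (exn_new h.sub').1 he
      rw [← h.new] at h2
      obtain ⟨d, hd, rfl⟩ := h2
      exact ⟨d, (exn_new h.sub).2 ⟨hd, (sim_B h (Or.inl hd)).1 h3⟩, rfl⟩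
    · rintro ⟨d, hd, rfl⟩
      obtain ⟨h2, h3⟩ := (exn_new h.sub).1 hd
      refine (exn_new h.sub').2 ⟨?_, (sim_B h (Or.inl h2)).2 h3⟩
      rw [← h.new]
      exact ⟨d, h2, rfl⟩
  have h2 : Set.InjOn θ (S'.B \ S.B) := h.inj.mono fun d hd => Or.inl ((exn_new h.sub).1 hd).1
  rw [h1, h2.ncard_image]

end Part
end SYS
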