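import Pool.Agent.SYS.PX.LocB
import Pool.Agent.SYS.PX.IndB
import Pool.Agent.SYS.PX.Abs2

/-!
# SYS-PX-GM: the growth number `gB` of a block

`gB nx X` = supremum of the mean number of exits over all bases and all finite sets of ends without far absorption.  `Bok nx N`: the
properties of the block used here: number of steps, gates, intrinsic.

PLAN.
* `gB_bdd`: `exn ≤ 2 N` (`exn_len`), total mass `≤ 1` (`tree_mass`, `end_pf`): all values are in `[0, 2 N]`.
* `gB_up`: `le_csSup`.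
* `gB_low`: there is a base `S₀` (in `Fin (6 n₀)`), a window `W₀` and a finite `Q₀` with value `> gB - ε` (`exists_lt_of_lt_csSup`; the set is nonempty: it contains `0` with `Q = ∅` and any base; if `gB - ε < 0` take `Q = ∅`).  `W := W₀ + 1`, `v :=` maximum of `wvol` over `Q₀`.  For another base `S` with `2 W + 1 < p`, `v ≤ F`:
  `Q :=` all `q` with `LBR b S x W S x q.1 q.2.1 q.2.2`, `b q.2.1 = none`, `q.1 ∈` words of `Q₀` (finite set: finitely many words, `Part D × D` finite).  They are ends (`br_of_lbr`), `¬ Abs S x W`, and `wvol q.1 ≤ v`.  For every word `w` of `Q₀` and every `j`: the number of `q` with word `w` and `exn = j` times `nwt X F w`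
  is the same for the two bases: `ind_b` (with `sim_refl` for the start, `x ∈ NW`, `Φ S' _ := b S' = none ∧ exn S S' = j`, `IB`, `sim_exn`; for `↔` use `IB` in both directions: `none ↔ none` because `some ↦ some`), divided by the two `descFactorial`s (nonzero: `wvol w ≤ F`).  The set of `q ∈ Q₀` with word `w` and `exn = j` is contained in
  the corresponding set of all local ends over `S₀` (`lbr_of_br`, window `W₀ + 1`; NOTE: this needs `2 (W₀ + 1) + 1 < p₀`, while the definition gives only `2 W₀ + 1 < p₀`: therefore the definition of the set uses `2 (W₀ + 1) + 1 < p₀`).  Sum over `w` and `j`.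
-/

namespace SYS
namespace Part

open Classical SST Num

/-- Values of the mean number of exits. -/
def gSet (nx : ∀ {D : Type} [Finite D], Part D → D → Part D → Option D) (X : ℝ) : Set ℝ :=
  {v | ∃ (n : ℕ) (S : Part (Fin (6 * n))) (x : Fin (6 * n)) (l : List (Fin (6 * n))) (p : ℕ) (P : List ℕ) (F κ W : ℕ)
    (Q : Finset (List Stp × Part (Fin (6 * n)) × Fin (6 * n))), S.Typ (x :: l) (p :: P) F κ ∧ 2 * (W + 1) + 1 < p ∧
    (∀ q ∈ Q, BEnd (nx S x) S x q ∧ ¬ S.Abs x W q.2.1) ∧ v = ∑ q ∈ Q, nwt X F q.1 * (exn S q.2.1 : ℝ)}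

/-- Growth number of the block. -/
noncomputable def gB (nx : ∀ {D : Type} [Finite D], Part D → D → Part D → Option D) (X : ℝ) : ℝ := sSup (gSet nx X)

/-- Properties of the block. -/
structure Bok (nx : ∀ {D : Type} [Finite D], Part D → D → Part D → Option D) (N : ℕ) : Prop where
  len : ∀ {D : Type} [Finite D] (S : Part D) (x : D) (q : List Stp × Part D × D), x ∈ S.B → BEnd (nx S x) S x q → q.1.length ≤ N
  gate : ∀ {D : Type} [Finite D] (S : Part D) (x : D), x ∈ S.B → ∀ Z d, S.Sub Z → nx S x Z = some d →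
    d ∈ Z.B ∧ (d = x ∨ d ∈ Z.R \ S.R)
  ib : ∀ {D E : Type} [Finite D] [Finite E] (S : Part D) (x : D) (T : Part E) (y : E) (W : ℕ), x ∈ S.B → y ∈ T.B →
    2 * W + 1 < S.per x → 2 * W + 1 < T.per y → IB (nx S x) (nx T y) S x T y W

variable {nx : ∀ {D : Type} [Finite D], Part D → D → Part D → Option D} {N : ℕ} {X : ℝ}

private theorem typ_B {D : Type} [Finite D] {S : Part D} {x : D} {l : List D} {p : ℕ} {P : List ℕ} {F κ : ℕ}
    (hS : S.Typ (x :: l) (p :: P) F κ) : x ∈ S.B := hS.hl.1 _ List.mem_cons_self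

private theorem typ_per {D : Type} [Finite D] {S : Part D} {x : D} {l : List D} {p : ℕ} {P : List ℕ} {F κ : ℕ}
    (hS : S.Typ (x :: l) (p :: P) F κ) : S.per x = p := by
  have h := hS.per
  rw [List.map_cons] at h
  exact (List.cons_eq_cons.1 h).1

private theorem lvl {α : Type} (A : Finset α) (f : α → ℕ) (M : ℕ) (h : ∀ a ∈ A, f a ≤ M) :
    ∑ a ∈ A, (f a : ℝ) = ∑ j ∈ Finset.range (M + 1), ((A.filter fun a => f a = j).card : ℝ) * j := by
  rw [← Finset.sum_fiberwise_of_maps_to (g := f) (t := Finset.range (M + 1))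
    (fun a ha => Finset.mem_range.2 (Nat.lt_succ_of_le (h a ha)))]
  refine Finset.sum_congr rfl fun j _ => ?_
  rw [Finset.sum_congr rfl (fun a ha => by rw [(Finset.mem_filter.1 ha).2]), Finset.sum_const, nsmul_eq_mul]

/-- Local ends. -/
private noncomputable def EF {D : Type} [Finite D] (b : Part D → Option D) (S : Part D) (x : D) (W : ℕ) (w : List Stp) :
    Finset (Part D × D) :=
  (Set.toFinite {q : Part D × D | LBR b S x W S x w q.1 q.2 ∧ b q.1 = none}).toFinset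

private theorem mem_EF {D : Type} [Finite D] {b : Part D → Option D} {S : Part D} {x : D} {W : ℕ} {w : List Stp}
    {q : Part D × D} : q ∈ EF b S x W w ↔ LBR b S x W S x w q.1 q.2 ∧ b q.1 = none := by
  unfold EF
  rw [Set.Finite.mem_toFinset]
  exact Iff.rfl

private theorem EF_card {D : Type} [Finite D] (b : Part D → Option D) (S : Part D) (x : D) (W : ℕ) (w : List Stp) (j : ℕ) :
    ((EF b S x W w).filter fun q => exn S q.1 = j).card =
      {q : Part D × D | LBR b S x W S x w q.1 q.2 ∧ (b q.1 = none ∧ exn S q.1 = j)}.ncard := by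
  rw [← Set.ncard_coe_finset]
  congr 1
  ext q
  rw [Finset.mem_coe, Finset.mem_filter, mem_EF, and_assoc]
  exact Iff.rfl

private theorem key {D E : Type} [Finite D] [Finite E] {S : Part D} {x : D} {T : Part E} {y : E} {W : ℕ}
    {b : Part D → Option D} {b' : Part E → Option E} (hx : x ∈ S.B) (hy : y ∈ T.B) (hp : 2 * W + 1 < S.per x)
    (hp' : 2 * W + 1 < T.per y) (hI : IB b b' S x T y W) (w : List Stp) {F F' : ℕ}
    (hF : S.R.ncard + 3 * F = Nat.card D) (hF' : T.R.ncard + 3 * F' = Nat.card E) :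
    (∑ q ∈ EF b S x W w, (exn S q.1 : ℝ)) * (((3 * F').descFactorial (3 * wvol w) : ℕ) : ℝ) =
      (∑ q ∈ EF b' T y W w, (exn T q.1 : ℝ)) * (((3 * F).descFactorial (3 * wvol w) : ℕ) : ℝ) := by
  have hexn : ∀ {D : Type} [Finite D] (S X' : Part D), exn S X' ≤ Nat.card D := by
    intro D _ S X'
    unfold exn
    rw [← Set.ncard_univ]
    exact Set.ncard_le_ncard (Set.subset_univ _) (Set.toFinite _)
  rw [lvl _ (fun q : Part D × D => exn S q.1) (max (Nat.card D) (Nat.card E))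
      (fun q _ => (hexn S q.1).trans (le_max_left _ _)),
    lvl _ (fun q : Part E × E => exn T q.1) (max (Nat.card D) (Nat.card E))
      (fun q _ => (hexn T q.1).trans (le_max_right _ _)), Finset.sum_mul, Finset.sum_mul]
  refine Finset.sum_congr rfl fun j _ => ?_
  obtain ⟨θ, hθ⟩ := sim_refl hx hy hp hp'
  have hx0 : θ x = y := by
    have h := hθ.base 0 (by simp)
    have e1 : S.bs x 0 = x := by unfold bs; rw [zpow_zero]; rfl
    have e2 : T.bs y 0 = y := by unfold bs; rw [zpow_zero]; rfl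
    rw [e1, e2] at h
    exact h
  have h1 := ind_b (θ := θ) (S₁ := S) (T₁ := T) (d := x) hI (fun S' _ => b S' = none ∧ exn S S' = j)
    (fun T' _ => b' T' = none ∧ exn T T' = j) (by
      intro S' T' θ' x' hsim _
      rw [sim_exn hsim]
      refine and_congr_left' ⟨fun h => (hI S' T' θ' hsim).1 h, fun h => ?_⟩
      by_contra hne
      obtain ⟨d, hd⟩ := Option.ne_none_iff_exists'.1 hne
      have h2 := ((hI S' T' θ' hsim).2 d hd).2
      rw [h] at h2
      cases h2) hθ (Or.inr ⟨0, by simp, by unfold bs; rw [zpow_zero]; rfl⟩) w hF hF'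
  rw [hx0] at h1
  rw [EF_card, EF_card]
  calc _ = ((({q : Part D × D | LBR b S x W S x w q.1 q.2 ∧ (b q.1 = none ∧ exn S q.1 = j)}.ncard : ℕ) : ℝ) *
        (((3 * F').descFactorial (3 * wvol w) : ℕ) : ℝ)) * j := by ring
    _ = _ := by
      rw [h1]
      ring

private theorem g_le (hX : 0 < X) (hB : Bok nx N) {n : ℕ} {S : Part (Fin (6 * n))} {x : Fin (6 * n)} {l : List (Fin (6 * n))}
    {p : ℕ} {P : List ℕ} {F κ : ℕ} (hS : S.Typ (x :: l) (p :: P) F κ)
    (Q : Finset (List Stp × Part (Fin (6 * n)) × Fin (6 * n))) (hQ : ∀ q ∈ Q, BEnd (nx S x) S x q) :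
    ∑ q ∈ Q, nwt X F q.1 * (exn S q.2.1 : ℝ) ≤ 2 * N := by
  have hx := typ_B hS
  obtain ⟨h1, h2⟩ := end_pf hx Q hQ
  obtain ⟨h3, h4⟩ := rb_rul (nx S x) [] S x hx
  have h5 := tree_mass hX (rb_rul (nx S x)) (typ_repl hS h3 h4) Q h1 h2
  calc ∑ q ∈ Q, nwt X F q.1 * (exn S q.2.1 : ℝ) ≤ ∑ q ∈ Q, nwt X F q.1 * (2 * N : ℝ) := by
        refine Finset.sum_le_sum fun q hq => mul_le_mul_of_nonneg_left ?_ (nwt_nonneg hX _ _)
        have h6 := exn_len hx (hQ q hq).1
        have h7 := hB.len S x q hx (hQ q hq)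
        have h8 : exn S q.2.1 ≤ 2 * N := by omega
        exact_mod_cast h8
    _ = (∑ q ∈ Q, nwt X F q.1) * (2 * N : ℝ) := by rw [Finset.sum_mul]
    _ ≤ 1 * (2 * N : ℝ) := mul_le_mul_of_nonneg_right h5 (by positivity)
    _ = 2 * N := one_mul _

theorem gB_bdd (hX : 0 < X) (hB : Bok nx N) : BddAbove (gSet nx X) ∧ 0 ≤ gB nx X ∧ gB nx X ≤ 2 * N := by
  have h1 : ∀ v ∈ gSet nx X, v ≤ 2 * N := by
    rintro v ⟨n, S, x, l, p, P, F, κ, W, Q, hS, hW, hQ, rfl⟩
    exact g_le hX hB hS Q fun q hq => (hQ q hq).1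
  have h2 : ∀ v ∈ gSet nx X, 0 ≤ v := by
    rintro v ⟨n, S, x, l, p, P, F, κ, W, Q, hS, hW, hQ, rfl⟩
    exact Finset.sum_nonneg fun q _ => mul_nonneg (nwt_nonneg hX _ _) (Nat.cast_nonneg _)
  exact ⟨⟨2 * N, h1⟩, Real.sSup_nonneg h2, Real.sSup_le h1 (by positivity)⟩

theorem gB_up (hX : 0 < X) (hB : Bok nx N) {n : ℕ} {S : Part (Fin (6 * n))} {x : Fin (6 * n)} {l : List (Fin (6 * n))} {p : ℕ}
    {P : List ℕ} {F κ W : ℕ} (hS : S.Typ (x :: l) (p :: P) F κ) (hW : 2 * (W + 1) + 1 < p)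
    (Q : Finset (List Stp × Part (Fin (6 * n)) × Fin (6 * n))) (hQ : ∀ q ∈ Q, BEnd (nx S x) S x q ∧ ¬ S.Abs x W q.2.1) :
    ∑ q ∈ Q, nwt X F q.1 * (exn S q.2.1 : ℝ) ≤ gB nx X :=
  le_csSup (gB_bdd hX hB).1 ⟨n, S, x, l, p, P, F, κ, W, Q, hS, hW, hQ, rfl⟩

theorem gB_low (hX : 0 < X) (hB : Bok nx N) {ε : ℝ} (hε : 0 < ε) : ∃ W v : ℕ, ∀ {n : ℕ} {S : Part (Fin (6 * n))}
    {x : Fin (6 * n)} {l : List (Fin (6 * n))} {p : ℕ} {P : List ℕ} {F κ : ℕ}, S.Typ (x :: l) (p :: P) F κ → 2 * W + 1 < p →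
    v ≤ F → ∃ Q : Finset (List Stp × Part (Fin (6 * n)) × Fin (6 * n)),
      (∀ q ∈ Q, BEnd (nx S x) S x q ∧ ¬ S.Abs x W q.2.1 ∧ wvol q.1 ≤ v) ∧
      gB nx X - ε ≤ ∑ q ∈ Q, nwt X F q.1 * (exn S q.2.1 : ℝ) := by
  by_cases hemp : (gSet nx X).Nonempty
  swap
  · have h0 : gB nx X = 0 := by
      unfold gB
      rw [Set.not_nonempty_iff_eq_empty.1 hemp, Real.sSup_empty]
    refine ⟨0, 0, fun _ _ _ => ⟨∅, fun q hq => absurd hq (Finset.notMem_empty q), ?_⟩⟩
    rw [Finset.sum_empty, h0]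
    linarith
  obtain ⟨v₀, ⟨n₀, S₀, x₀, l₀, p₀, P₀, F₀, κ₀, W₀, Q₀, hS₀, hW₀, hQ₀, rfl⟩, hlt⟩ :=
    exists_lt_of_lt_csSup hemp (show gB nx X - ε < sSup (gSet nx X) by
      show gB nx X - ε < gB nx X
      linarith)
  refine ⟨W₀ + 1, Q₀.sup fun q => wvol q.1, ?_⟩
  intro n S x l p P F κ hS hW hv
  obtain ⟨V, hV⟩ : ∃ V : Finset (List Stp), V = Q₀.image Prod.fst := ⟨_, rfl⟩
  have hx₀ := typ_B hS₀
  have hx := typ_B hS
  have hVle : ∀ w ∈ V, wvol w ≤ F₀ ∧ wvol w ≤ Q₀.sup fun q => wvol q.1 := by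
    intro w hw
    rw [hV] at hw
    obtain ⟨q, hq, rfl⟩ := Finset.mem_image.1 hw
    refine ⟨?_, Finset.le_sup (f := fun q : List Stp × Part (Fin (6 * n₀)) × Fin (6 * n₀) => wvol q.1) hq⟩
    obtain ⟨-, F', hF', -⟩ := br_typ hS₀ (hQ₀ q hq).1.1
    omega
  refine ⟨V.biUnion fun w => (EF (nx S x) S x (W₀ + 1) w).image fun q => (w, q), ?_, ?_⟩
  · intro q hq
    obtain ⟨w, hw, hq⟩ := Finset.mem_biUnion.1 hq
    obtain ⟨r, hr, rfl⟩ := Finset.mem_image.1 hq
    obtain ⟨h1, h2⟩ := mem_EF.1 hr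
    obtain ⟨h3, h4⟩ := br_of_lbr hS hW (fun Z d hZ hd => hB.gate S x hx Z d hZ hd) h1
    exact ⟨⟨h3, h2⟩, h4, (hVle w hw).2⟩
  · have hsumS : ∑ q ∈ V.biUnion fun w => (EF (nx S x) S x (W₀ + 1) w).image fun q => (w, q),
        nwt X F q.1 * (exn S q.2.1 : ℝ) =
        ∑ w ∈ V, nwt X F w * ∑ q ∈ EF (nx S x) S x (W₀ + 1) w, (exn S q.1 : ℝ) := by
      rw [Finset.sum_biUnion]
      · refine Finset.sum_congr rfl fun w _ => ?_
        rw [Finset.sum_image (fun a _ b _ hab => (Prod.mk.inj hab).2), Finset.mul_sum]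
      · intro w _ w' _ hne
        rw [Function.onFun, Finset.disjoint_left]
        intro q hq hq'
        obtain ⟨r, _, rfl⟩ := Finset.mem_image.1 hq
        obtain ⟨r', _, h⟩ := Finset.mem_image.1 hq'
        exact hne (Prod.mk.inj h).1.symm
    have hsum0 : ∑ q ∈ Q₀, nwt X F₀ q.1 * (exn S₀ q.2.1 : ℝ) ≤
        ∑ w ∈ V, nwt X F₀ w * ∑ q ∈ EF (nx S₀ x₀) S₀ x₀ (W₀ + 1) w, (exn S₀ q.1 : ℝ) := by
      rw [← Finset.sum_fiberwise_of_maps_to (g := Prod.fst) (t := V)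
        (fun q hq => by rw [hV]; exact Finset.mem_image_of_mem _ hq)]
      refine Finset.sum_le_sum fun w hw => ?_
      have e1 : ∑ q ∈ Q₀.filter (fun q => q.1 = w), nwt X F₀ q.1 * (exn S₀ q.2.1 : ℝ) =
          nwt X F₀ w * ∑ q ∈ (Q₀.filter (fun q => q.1 = w)).image Prod.snd, (exn S₀ q.1 : ℝ) := by
        rw [Finset.sum_image, Finset.mul_sum]
        · refine Finset.sum_congr rfl fun q hq => ?_
          rw [(Finset.mem_filter.1 hq).2]
        · intro a ha b hb hab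
          have h1 := (Finset.mem_filter.1 ha).2
          have h2 := (Finset.mem_filter.1 hb).2
          exact Prod.ext (h1.trans h2.symm) hab
      rw [e1]
      refine mul_le_mul_of_nonneg_left ?_ (nwt_nonneg hX _ _)
      refine Finset.sum_le_sum_of_subset_of_nonneg ?_ fun _ _ _ => Nat.cast_nonneg _
      intro r hr
      obtain ⟨q, hq, rfl⟩ := Finset.mem_image.1 hr
      have hqm := Finset.mem_filter.1 hq
      obtain ⟨h1, h2⟩ := hQ₀ q hqm.1
      rw [← hqm.2]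
      exact mem_EF.2 ⟨lbr_of_br hS₀ hW₀ (fun Z d hZ hd => hB.gate S₀ x₀ hx₀ Z d hZ hd) h1.1 h2, h1.2⟩
    have heq : ∑ w ∈ V, nwt X F₀ w * ∑ q ∈ EF (nx S₀ x₀) S₀ x₀ (W₀ + 1) w, (exn S₀ q.1 : ℝ) =
        ∑ w ∈ V, nwt X F w * ∑ q ∈ EF (nx S x) S x (W₀ + 1) w, (exn S q.1 : ℝ) := by
      refine Finset.sum_congr rfl fun w hw => ?_
      obtain ⟨hw1, hw2⟩ := hVle w hw
      have hp0 : 2 * (W₀ + 1) + 1 < S₀.per x₀ := by rw [typ_per hS₀]; exact hW₀
      have hp1 : 2 * (W₀ + 1) + 1 < S.per x := by rw [typ_per hS]; exact hW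
      have hk := key hx₀ hx hp0 hp1 (hB.ib S₀ x₀ S x (W₀ + 1) hx₀ hx hp0 hp1) w hS₀.vol hS.vol
      have hd0 : (((3 * F₀).descFactorial (3 * wvol w) : ℕ) : ℝ) ≠ 0 := by
        rw [Nat.cast_ne_zero, Ne, Nat.descFactorial_eq_zero_iff_lt]
        omega
      have hd1 : (((3 * F).descFactorial (3 * wvol w) : ℕ) : ℝ) ≠ 0 := by
        rw [Nat.cast_ne_zero, Ne, Nat.descFactorial_eq_zero_iff_lt]
        omega
      unfold nwt
      rw [div_mul_eq_mul_div, div_mul_eq_mul_div, div_eq_div_iff hd0 hd1, mul_assoc, mul_assoc, hk]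
    rw [hsumS, ← heq]
    exact hlt.le.trans hsum0

end Part
end SYS
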