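import Pool.Agent.SYS.PX.Defs

/-!
# SYS-PX-Br: runs of a block as runs of `Reg/RchG`
-/

namespace SYS
namespace Part

open Classical SST

variable {D : Type} [Finite D] {b : Part D → Option D} {S Z Z' X' : Part D} {x d e z z' : D} {w : List Stp} {h : List Stp}
  {l : List D} {p : ℕ} {P : List ℕ} {F κ : ℕ}

omit [Finite D] in
theorem rb_of (hb : b Z = some d) (hd : d ∈ Z.B) (hz : Z.s.SameCycle z d) : rb b h Z z = d := by
  have h1 : ∃ d, b Z = some d ∧ d ∈ Z.B ∧ Z.s.SameCycle z d := ⟨d, hb, hd, hz⟩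
  unfold rb
  rw [dif_pos h1]
  exact (Option.some.inj (hb.symm.trans h1.choose_spec.1)).symm

omit [Finite D] in
theorem rb_none (hb : b Z = none) : rb b h Z z = z := by
  have h1 : ¬ ∃ d, b Z = some d ∧ d ∈ Z.B ∧ Z.s.SameCycle z d := by
    rintro ⟨d, h2, -⟩
    rw [hb] at h2
    exact absurd h2 (by simp)
  unfold rb
  rw [dif_neg h1]

theorem rb_rul (b : Part D → Option D) : Rul (rb b) := by
  intro h S z hz
  by_cases h1 : ∃ d, b S = some d ∧ d ∈ S.B ∧ S.s.SameCycle z d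
  · obtain ⟨d, h2, h3, h4⟩ := h1
    rw [rb_of h2 h3 h4]
    exact ⟨h3, h4⟩
  · unfold rb
    rw [dif_neg h1]
    exact ⟨hz, Equiv.Perm.SameCycle.refl _ _⟩

private theorem rb_hist (b : Part D → Option D) (h h' : List Stp) (Z : Part D) (z : D) :
    rb b h Z z = rb b h' Z z := rfl

theorem br_rchg (hr : BR b Z z w Z' z') : RchG (rb b) h Z (rb b h Z z) w Z' (rb b (h ++ w) Z' z') := by
  induction w generalizing Z z h with
  | nil =>
    obtain ⟨rfl, rfl⟩ := hr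
    exact ⟨rfl, rb_hist b _ _ _ _⟩
  | cons s w ih =>
    obtain ⟨d, Z₁, z₁, hb, hd, hz, hst, hr⟩ := hr
    refine ⟨Z₁, z₁, ?_, ?_⟩
    · rw [rb_of hb hd hz]
      exact hst
    · rw [rb_hist b (h ++ s :: w) ((h ++ [s]) ++ w)]
      exact ih hr

theorem br_append {w' : List Stp} {Z'' : Part D} {z'' : D} : BR b Z z (w ++ w') Z'' z'' ↔
    ∃ Z' z', BR b Z z w Z' z' ∧ BR b Z' z' w' Z'' z'' := by
  induction w generalizing Z z with
  | nil =>
    rw [List.nil_append]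
    constructor
    · intro hr
      exact ⟨Z, z, ⟨rfl, rfl⟩, hr⟩
    · rintro ⟨Z', z', ⟨rfl, rfl⟩, hr⟩
      exact hr
  | cons s w ih =>
    constructor
    · rintro ⟨d, Z₁, z₁, hb, hd, hz, hst, hr⟩
      obtain ⟨Z', z', hr1, hr2⟩ := ih.1 hr
      exact ⟨Z', z', ⟨d, Z₁, z₁, hb, hd, hz, hst, hr1⟩, hr2⟩
    · rintro ⟨Z', z', ⟨d, Z₁, z₁, hb, hd, hz, hst, hr1⟩, hr2⟩
      exact ⟨d, Z₁, z₁, hb, hd, hz, hst, ih.2 ⟨Z', z', hr1, hr2⟩⟩

theorem br_sub (hr : BR b Z z w Z' z') : Z.Sub Z' := by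
  induction w generalizing Z z with
  | nil =>
    obtain ⟨rfl, rfl⟩ := hr
    exact sub_refl _
  | cons s w ih =>
    obtain ⟨d, Z₁, z₁, hb, hd, hz, hst, hr⟩ := hr
    exact sub_trans (st_sub hst).1 (ih hr)

theorem br_typ (hS : Z.Typ (z :: l) (p :: P) F κ) (hr : BR b Z z w Z' z') : WOk p w ∧
    ∃ F', F' + wvol w = F ∧ Z'.Typ (z' :: l) (wend p w :: P) F' κ := by
  induction w generalizing Z z p F with
  | nil =>
    obtain ⟨rfl, rfl⟩ := hr
    exact ⟨trivial, F, rfl, hS⟩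
  | cons s w ih =>
    obtain ⟨d, Z₁, z₁, hb, hd, hz, hst, hr⟩ := hr
    obtain ⟨hok, F₁, hF₁, hT⟩ := st_typ (typ_repl hS hd hz) hst
    obtain ⟨hok', F', hF', hT'⟩ := ih hT hr
    refine ⟨⟨hok, hok'⟩, F', ?_, hT'⟩
    rw [wvol_cons]
    omega

private theorem br_hu' (hr : BR b Z z w Z' z') {e : D} (he : e ∈ Z.B) (hze : ¬ Z.s.SameCycle z e) :
    e ∈ Z'.B := by
  induction w generalizing Z z with
  | nil =>
    obtain ⟨rfl, rfl⟩ := hr
    exact he
  | cons s w ih =>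
    obtain ⟨d, Z₁, z₁, hb, hd, hz, hst, hr⟩ := hr
    obtain ⟨h1, h2, h3⟩ := st_other hst he (fun h' => hze (hz.trans h'))
    exact ih hr h1 h3

theorem br_hu (hz : z ∈ Z.B) (hr : BR b Z z w Z' z') : Z.Hu Z' z :=
  fun _ he hze => br_hu' hr he hze

private theorem df_sub {S1 S' : Part D} {u : List D} {a : ℕ} (hf : S1.DiscFill S' u a) : S1.Sub S' := by
  rcases hf with ⟨_, _, rfl⟩ | ⟨_, V, _, hf⟩
  · exact sub_refl _
  · exact hf.sub

private theorem glue_strict {S : Part D} {x y : D} (hx : x ∈ S.B) (hy : y ∈ S.B) {u v : List D}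
    (hw : S.hw x = x :: (u ++ y :: v)) {m : List D} {a : ℕ} (hf : (S.glue x y hx hy).DiscFill Z m a) :
    Z.a x ≠ x := by
  have hn := S.hw_nodup hx
  rw [hw, List.nodup_cons] at hn
  have hxy : y ≠ x := by
    rintro rfl
    apply hn.1
    rw [List.mem_append, List.mem_cons]
    exact Or.inr (Or.inl rfl)
  have h1 : (S.glue x y hx hy).a x = y := by
    show (S.a * Equiv.swap x y) x = y
    rw [Equiv.Perm.mul_apply, Equiv.swap_apply_left, hy.2]
  have h2 : (S.glue x y hx hy).a x ≠ x := by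
    rw [h1]
    exact hxy
  rw [(df_sub hf).2 x h2]
  exact h2

theorem st_strict {s : Stp} (hst : S.St d s Z z) : S.a d = d ∧ Z.a d ≠ d := by
  refine ⟨(st_sub hst).2.1.2, ?_⟩
  cases s with
  | T =>
    obtain ⟨t0, t1, t2, hx, h0, h1, h2, h01, h12, h20, rfl, rfl⟩ := hst
    have h3 : (S.face d t0 z t2 hx h0 h1 h2 h01 h12 h20).a d = t0 := by
      show (S.a * Equiv.swap d t0) d = t0
      rw [Equiv.Perm.mul_apply, Equiv.swap_apply_left]
      exact S.af t0 (not_not.1 h0)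
    rw [h3]
    rintro rfl
    exact h0 (S.B_sub_R hx)
  | R k a =>
    obtain ⟨y, u, v, w, hx, hy, hw, hk, hv, hf⟩ := hst
    exact glue_strict hx hy hw hf
  | L k a =>
    obtain ⟨y, u, v, w, hx, hy, hw, hk, hv, hf⟩ := hst
    exact glue_strict hx hy hw hf

theorem hu_repl (hxz : S.s.SameCycle x z) (hu : S.Hu X' x) : S.Hu X' z :=
  fun e he hze => hu e he fun hxe => hze (hxz.symm.trans hxe)

theorem hu_st {s : Stp} (hS : S.Typ (d :: l) (p :: P) F κ) (hst : S.St d s Z z) (hu : S.Hu X' d) : Z.Hu X' z := by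
  intro e he hze
  obtain ⟨-, F', -, hT⟩ := st_typ hS hst
  obtain ⟨e', he', hee⟩ := hT.hl.2.2 e he
  rcases List.mem_cons.1 he' with h1 | h1
  · rw [h1] at hee
    exact absurd hee hze
  · have h2 : e' ∈ S.B := hS.hl.1 e' (List.mem_cons_of_mem _ h1)
    have h3 : ¬ S.s.SameCycle d e' := (List.pairwise_cons.1 hS.hl.2.1).1 e' h1
    obtain ⟨h4, h5, h6⟩ := st_other hst h2 h3
    have h7 : e ∈ Z.hw e' := (mem_hw Z h4).2 ⟨he, hee⟩
    rw [h5, mem_hw S h2] at h7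
    exact hu e h7.1 fun h8 => h3 (h8.trans h7.2.symm)

theorem hu_rchg {σ : List Stp → Part D → D → D} (hσ : Rul σ) (hS : S.Typ (x :: l) (p :: P) F κ)
    (hr : RchG σ h S x w Z z) (hu : S.Hu X' x) : Z.Hu X' z := by
  induction w generalizing h S x p F with
  | nil =>
    obtain ⟨rfl, rfl⟩ := hr
    exact hu
  | cons s w ih =>
    obtain ⟨S₁, z₁, hst, hr⟩ := hr
    obtain ⟨hok, F₁, hF₁, hT⟩ := st_typ hS hst
    have hz := (st_sub hst).2.2
    have hn := hσ (h ++ [s]) S₁ z₁ hz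
    exact ih (typ_repl hT hn.1 hn.2) hr (hu_repl hn.2 (hu_st hS hst hu))

end Part
end SYS
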