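import Pool.Agent.SYS.PX.Br

/-!
# SYS-PX-Nwe: the weight of a region does not depend on the exploration
-/

namespace SYS
namespace Part

open Classical SST Num

variable {D : Type} [Finite D] {σ σ' σ'' : List Stp → Part D → D → D} {h h' h'' : List Stp} {S S' Y : Part D}
  {x x₀ x' x'' y y₀ : D} {w w' v : List Stp} {l : List D} {p : ℕ} {P : List ℕ} {F κ : ℕ}

omit [Finite D] in
private theorem nwe_le (w : List Stp) : ∀ p, wend p w ≤ p + wvol w := by
  induction w with
  | nil =>
    intro p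
    rw [wend_nil]
    omega
  | cons s w ih =>
    intro p
    have h1 := ih (s.nx p)
    rw [wend_cons, wvol_cons]
    have h2 : s.nx p ≤ p + s.vol := by
      cases s with
      | T => exact le_rfl
      | L k a =>
        show p - (k + 2) ≤ p + a
        omega
      | R k a =>
        show p - (k + 2) ≤ p + a
        omega
    omega

private theorem nwe_even {s : Stp} {z : D} {k a : ℕ} (hst : S.St x s Y z) (hs : s = .L k a ∨ s = .R k a) :
    Even (a + k) := by
  have key : ∀ (G : Part D) (u : List D), G.DiscFill Y u a → u.length = k → Even (a + k) := by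
    rintro G u (⟨h1, h2, -⟩ | ⟨-, V, h1, -⟩) h3
    · rw [h2, ← h3, h1]
      exact ⟨0, rfl⟩
    · rw [h3] at h1
      exact ⟨V - 1, by omega⟩
  rcases hs with rfl | rfl
  · obtain ⟨y, u, v, w, hx, hy, -, h1, -, h2⟩ := hst
    exact key _ _ h2 h1
  · obtain ⟨y, u, v, w, hx, hy, -, h1, -, h2⟩ := hst
    exact key _ _ h2 h1

private theorem nwe_aux {X : ℝ} (hσ : Rul σ) (hS : S.Typ (x :: l) (p :: P) F κ) (hr : RchG σ h S x w S' x') :
    wwt (AA X) (q1 X) w * AA X ^ p = AA X ^ wend p w * yy X ^ ((wvol w + p - wend p w) / 2) := by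
  have hA : AA X ≠ 0 := by
    have := AA_gt X
    intro h0
    rw [h0] at this
    norm_num at this
  induction w generalizing h S x p F with
  | nil =>
    rw [wwt_nil, wend_nil, wvol_nil, Nat.zero_add, Nat.sub_self, Nat.zero_div, pow_zero]
    ring
  | cons s w ih =>
    obtain ⟨S₁, z, hst, hr⟩ := hr
    obtain ⟨hok, F₁, hF₁, hT⟩ := st_typ hS hst
    have hz := (st_sub hst).2.2
    have hn := hσ (h ++ [s]) S₁ z hz
    have hT' := typ_repl hT hn.1 hn.2
    have h1 := ih hT' hr
    have h2 := rchg_par hσ hT' hr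
    have h3 := nwe_le w (s.nx p)
    rw [wwt_cons, wend_cons, wvol_cons]
    have key : ∀ k a : ℕ, (s = .L k a ∨ s = .R k a) →
        s.wt (AA X) (q1 X) * wwt (AA X) (q1 X) w * AA X ^ p =
        AA X ^ wend (s.nx p) w * yy X ^ ((s.vol + wvol w + p - wend (s.nx p) w) / 2) := by
      intro k a hs
      have h4 : Even (a + k) := nwe_even hst hs
      have h5 : k + 3 ≤ p := by
        rcases hs with rfl | rfl
        · exact hok
        · exact hok
      have h6 : s.nx p = p - (k + 2) := by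
        rcases hs with rfl | rfl
        · rfl
        · rfl
      have h7 : s.wt (AA X) (q1 X) = q1 X k a := by
        rcases hs with rfl | rfl
        · rfl
        · rfl
      have h8 : s.vol = a := by
        rcases hs with rfl | rfl
        · rfl
        · rfl
      rw [h7, h8]
      rw [h6] at h1 h2 h3 ⊢
      have h9 : AA X ^ p = AA X ^ (p - (k + 2)) * AA X ^ (k + 2) := by
        rw [← pow_add]
        congr 1
        omega
      have h10 : (a + wvol w + p - wend (p - (k + 2)) w) / 2 =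
          1 + (a + k) / 2 + (wvol w + (p - (k + 2)) - wend (p - (k + 2)) w) / 2 := by
        rw [Nat.even_iff] at h2 h4
        omega
      have h11 : AA X ^ (k + 2) ≠ 0 := pow_ne_zero _ hA
      rw [h10, h9, pow_add (yy X)]
      unfold q1
      calc yy X ^ (1 + (a + k) / 2) / AA X ^ (k + 2) * wwt (AA X) (fun k a => yy X ^ (1 + (a + k) / 2) / AA X ^ (k + 2)) w *
            (AA X ^ (p - (k + 2)) * AA X ^ (k + 2)) =
          yy X ^ (1 + (a + k) / 2) * (wwt (AA X) (q1 X) w * AA X ^ (p - (k + 2))) *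
            (AA X ^ (k + 2) / AA X ^ (k + 2)) := by
            show _ = yy X ^ (1 + (a + k) / 2) *
              (wwt (AA X) (fun k a => yy X ^ (1 + (a + k) / 2) / AA X ^ (k + 2)) w * AA X ^ (p - (k + 2))) *
              (AA X ^ (k + 2) / AA X ^ (k + 2))
            ring
        _ = _ := by
            rw [h1, div_self h11]
            ring
    cases s with
    | T =>
      show AA X * wwt (AA X) (q1 X) w * AA X ^ p =
        AA X ^ wend (p + 1) w * yy X ^ ((1 + wvol w + p - wend (p + 1) w) / 2)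
      have h1' : wwt (AA X) (q1 X) w * AA X ^ (p + 1) =
        AA X ^ wend (p + 1) w * yy X ^ ((wvol w + (p + 1) - wend (p + 1) w) / 2) := h1
      have h4 : 1 + wvol w + p - wend (p + 1) w = wvol w + (p + 1) - wend (p + 1) w := by omega
      rw [h4, ← h1', pow_succ]
      ring
    | L k a => exact key k a (Or.inl rfl)
    | R k a => exact key k a (Or.inr rfl)

theorem nwt_cl {X : ℝ} (hX : 0 < X) (hσ : Rul σ) (hS : S.Typ (x :: l) (p :: P) F κ) (hr : RchG σ h S x w S' x') :
    nwt X F w * AA X ^ p * (((3 * F).descFactorial (3 * wvol w) : ℕ) : ℝ) =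
      AA X ^ wend p w * yy X ^ ((wvol w + p - wend p w) / 2) := by
  have _ := hX
  obtain ⟨-, F', hF', -⟩ := rchg_typ hσ hS hr
  have hd : (((3 * F).descFactorial (3 * wvol w) : ℕ) : ℝ) ≠ 0 := by
    rw [Nat.cast_ne_zero, Ne, Nat.descFactorial_eq_zero_iff_lt]
    omega
  rw [← nwe_aux hσ hS hr]
  unfold nwt
  field_simp

theorem nwt_cat {X : ℝ} (hX : 0 < X) (hσ : Rul σ) (hσ' : Rul σ') (hσ'' : Rul σ'') (hS : S.Typ (x :: l) (p :: P) F κ)
    (hx : x₀ ∈ S.B) (hxx : S.s.SameCycle x x₀) (hr : RchG σ h S x w S' x') (hv : RchG σ' h' S x₀ v Y y) (hy : y₀ ∈ Y.B)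
    (hyy : Y.s.SameCycle y y₀) (hw : RchG σ'' h'' Y y₀ w' S' x'') :
    nwt X F w = nwt X F v * nwt X (F - wvol v) w' ∧ wvol w = wvol v + wvol w' ∧ wend p w = wend (wend p v) w' ∧
      S'.s.SameCycle x' x'' := by
  have hA : AA X ≠ 0 := by
    have := AA_gt X
    intro h0
    rw [h0] at this
    norm_num at this
  have hS₀ := typ_repl hS hx hxx
  obtain ⟨-, F₁, hF₁, hT₁⟩ := rchg_typ hσ hS hr
  obtain ⟨-, F₂, hF₂, hT₂⟩ := rchg_typ hσ' hS₀ hv
  have hY₀ := typ_repl hT₂ hy hyy
  obtain ⟨-, F₃, hF₃, hT₃⟩ := rchg_typ hσ'' hY₀ hw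
  have hv1 := hT₁.vol
  have hv3 := hT₃.vol
  have hvol : wvol w = wvol v + wvol w' := by omega
  have hsc : S'.s.SameCycle x' x'' := by
    have h1 : x'' ∈ S'.B := hT₃.hl.1 x'' List.mem_cons_self
    obtain ⟨e, he, hec⟩ := hT₁.hl.2.2 x'' h1
    rcases List.mem_cons.1 he with rfl | he
    · exact hec
    · exfalso
      exact (List.pairwise_cons.1 hT₃.hl.2.1).1 e he hec.symm
  have hend : wend p w = wend (wend p v) w' := by
    have h1 := hT₁.per
    have h3 := hT₃.per
    rw [List.map_cons, List.cons.injEq] at h1 h3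
    rw [← h1.1, ← h3.1]
    exact per_same S' hsc
  refine ⟨?_, hvol, hend, hsc⟩
  have hFF : F - wvol v = F₂ := by omega
  have c1 := nwt_cl hX hσ hS hr
  have c2 := nwt_cl hX hσ' hS₀ hv
  have c3 := nwt_cl hX hσ'' hY₀ hw
  have p2 := rchg_par hσ' hS₀ hv
  have p3 := rchg_par hσ'' hY₀ hw
  have l2 := nwe_le v p
  have l3 := nwe_le w' (wend p v)
  rw [hFF]
  have hdd : (((3 * F).descFactorial (3 * wvol w) : ℕ) : ℝ) =
      (((3 * F₂).descFactorial (3 * wvol w') : ℕ) : ℝ) * (((3 * F).descFactorial (3 * wvol v) : ℕ) : ℝ) := by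
    have h2 := Nat.descFactorial_mul_descFactorial (k := 3 * wvol v)
      (m := 3 * (wvol v + wvol w')) (n := 3 * F) (by omega)
    have h3 : 3 * F - 3 * wvol v = 3 * F₂ := by omega
    have h4 : 3 * (wvol v + wvol w') - 3 * wvol v = 3 * wvol w' := by omega
    rw [h3, h4] at h2
    rw [hvol, ← h2, Nat.cast_mul]
  have hd : (((3 * F).descFactorial (3 * wvol w) : ℕ) : ℝ) ≠ 0 := by
    rw [Nat.cast_ne_zero, Ne, Nat.descFactorial_eq_zero_iff_lt]
    omega
  have hexp : (wvol w + p - wend p w) / 2 =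
      (wvol v + p - wend p v) / 2 + (wvol w' + wend p v - wend (wend p v) w') / 2 := by
    rw [Nat.even_iff] at p2 p3
    rw [hvol, hend]
    omega
  have hAp : AA X ^ p ≠ 0 := pow_ne_zero _ hA
  have hAq : AA X ^ wend p v ≠ 0 := pow_ne_zero _ hA
  apply mul_right_cancel₀ (mul_ne_zero (mul_ne_zero hAp hAq) hd)
  calc nwt X F w * (AA X ^ p * AA X ^ wend p v * (((3 * F).descFactorial (3 * wvol w) : ℕ) : ℝ)) =
      (nwt X F w * AA X ^ p * (((3 * F).descFactorial (3 * wvol w) : ℕ) : ℝ)) * AA X ^ wend p v := by ring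
    _ = (AA X ^ wend p v * yy X ^ ((wvol v + p - wend p v) / 2)) *
        (AA X ^ wend (wend p v) w' * yy X ^ ((wvol w' + wend p v - wend (wend p v) w') / 2)) := by
      rw [c1, hexp, hend, pow_add]
      ring
    _ = _ := by
      rw [← c2, ← c3, hdd]
      ring

end Part
end SYS
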