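import Pool.Agent.SYS.PX.Defs

/-!
# SYS-PX-HcM: hidden components under extensions; the hidden part after a planar step
-/

namespace SYS
namespace Part

open Classical SST

variable {D : Type} [Finite D] {S S' X' : Part D} {T : Tri D}

omit [Finite D] in
private theorem hm_face_a (S : Part D) {x t0 t1 t2 : D} (hx : x ∈ S.B) (h0 : t0 ∉ S.R) (h1 : t1 ∉ S.R) (h2 : t2 ∉ S.R)
    (h01 : t0 ≠ t1) (h12 : t1 ≠ t2) (h20 : t2 ≠ t0) :
    (S.face x t0 t1 t2 hx h0 h1 h2 h01 h12 h20).a x = t0 := by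
  have hf : S.f t0 = t0 := not_not.1 h0
  have ha : S.a t0 = t0 := S.af t0 hf
  show (S.a * Equiv.swap x t0) x = t0
  rw [Equiv.Perm.mul_apply, Equiv.swap_apply_left, ha]

omit [Finite D] in
private theorem hm_face_f0 (S : Part D) {x t0 t1 t2 : D} (hx : x ∈ S.B) (h0 : t0 ∉ S.R) (h1 : t1 ∉ S.R) (h2 : t2 ∉ S.R)
    (h01 : t0 ≠ t1) (h12 : t1 ≠ t2) (h20 : t2 ≠ t0) :
    (S.face x t0 t1 t2 hx h0 h1 h2 h01 h12 h20).f t0 = t1 := by
  have hf : S.f t1 = t1 := not_not.1 h1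
  show (S.f * cyc3 t0 t1 t2) t0 = t1
  rw [Equiv.Perm.mul_apply, cyc3, Equiv.Perm.mul_apply, Equiv.swap_apply_of_ne_of_ne h01 h20.symm, Equiv.swap_apply_left, hf]

omit [Finite D] in
private theorem hm_face_f1 (S : Part D) {x t0 t1 t2 : D} (hx : x ∈ S.B) (h0 : t0 ∉ S.R) (h1 : t1 ∉ S.R) (h2 : t2 ∉ S.R)
    (h01 : t0 ≠ t1) (h12 : t1 ≠ t2) (h20 : t2 ≠ t0) :
    (S.face x t0 t1 t2 hx h0 h1 h2 h01 h12 h20).f t1 = t2 := by
  have hf : S.f t2 = t2 := not_not.1 h2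
  show (S.f * cyc3 t0 t1 t2) t1 = t2
  rw [Equiv.Perm.mul_apply, cyc3, Equiv.Perm.mul_apply, Equiv.swap_apply_left, Equiv.swap_apply_of_ne_of_ne h20 h12.symm, hf]

omit [Finite D] in
private theorem hm_glue_ax (S : Part D) {x y : D} (hx : x ∈ S.B) (hy : y ∈ S.B) :
    (S.glue x y hx hy).a x = y := by
  show (S.a * Equiv.swap x y) x = y
  rw [Equiv.Perm.mul_apply, Equiv.swap_apply_left, hy.2]

private theorem hm_sub_face_vals {S U : Part D} {x t0 t1 t2 : D} (hx : x ∈ S.B) (h0 : t0 ∉ S.R) (h1 : t1 ∉ S.R) (h2 : t2 ∉ S.R)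
    (h01 : t0 ≠ t1) (h12 : t1 ≠ t2) (h20 : t2 ≠ t0) (hU : (S.face x t0 t1 t2 hx h0 h1 h2 h01 h12 h20).Sub U) :
    U.a x = t0 ∧ U.f t0 = t1 ∧ U.f t1 = t2 := by
  have hxt : x ≠ t0 := fun h => h0 (h ▸ hx.1)
  refine ⟨?_, ?_, ?_⟩
  · rw [hU.2 x (by rw [hm_face_a S hx h0 h1 h2 h01 h12 h20]; exact hxt.symm), hm_face_a S hx h0 h1 h2 h01 h12 h20]
  · rw [hU.1 t0 (by rw [hm_face_f0 S hx h0 h1 h2 h01 h12 h20]; exact h01.symm), hm_face_f0 S hx h0 h1 h2 h01 h12 h20]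
  · rw [hU.1 t1 (by rw [hm_face_f1 S hx h0 h1 h2 h01 h12 h20]; exact h12.symm), hm_face_f1 S hx h0 h1 h2 h01 h12 h20]

private theorem hm_le_face_vals {S : Part D} {T : Tri D} {x t0 t1 t2 : D} (hx : x ∈ S.B) (h0 : t0 ∉ S.R) (h1 : t1 ∉ S.R)
    (h2 : t2 ∉ S.R) (h01 : t0 ≠ t1) (h12 : t1 ≠ t2) (h20 : t2 ≠ t0)
    (hU : (S.face x t0 t1 t2 hx h0 h1 h2 h01 h12 h20).Le T) :
    T.a x = t0 ∧ T.f t0 = t1 ∧ T.f t1 = t2 := by
  exact hm_sub_face_vals hx h0 h1 h2 h01 h12 h20 ((le_iff_sub _ T).1 hU)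

private theorem hm_word_facts {S : Part D} {x y : D} (hx : x ∈ S.B) (hy : y ∈ S.B) {u v : List D}
    (hw : S.hw x = x :: (u ++ y :: v)) : x ≠ y ∧ ∀ d, d ∈ u ∨ d ∈ v → d ∈ S.hw x ∧ d ∈ (S.glue x y hx hy).B := by
  have hn := hw_nodup S hx
  rw [hw, List.nodup_cons] at hn
  obtain ⟨hn1, hn2⟩ := hn
  have hxy : x ≠ y := by
    rintro rfl
    exact hn1 (by simp)
  have hn3 := List.nodup_middle.1 hn2
  rw [List.nodup_cons] at hn3
  refine ⟨hxy, fun d hd => ?_⟩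
  have hd1 : d ∈ S.hw x := by
    rw [hw]
    rcases hd with hd | hd
    · simp [hd]
    · simp [hd]
  refine ⟨hd1, ?_⟩
  rw [glue_B S hx hy hxy]
  refine ⟨((mem_hw S hx).1 hd1).1, ?_⟩
  rintro (rfl | h)
  · apply hn1
    rcases hd with hd | hd
    · simp [hd]
    · simp [hd]
  · have hdy : d = y := h
    subst hdy
    apply hn3.1
    rcases hd with hd | hd
    · simp [hd]
    · simp [hd]

private theorem hm_discFill_sub {G S' : Part D} {u : List D} {a : ℕ} (h : G.DiscFill S' u a) : G.Sub S' := by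
  rcases h with ⟨_, _, h⟩ | ⟨_, V, _, h⟩
  · rw [h]
    exact sub_refl G
  · exact h.sub

omit [Finite D] in
private theorem hm_X {S S' : Part D} (hs : S.Sub S') {d : D} (hd : d ∈ S'.X) : d ∈ S.X := by
  by_contra hn
  have h1 : d ∈ S.R := by
    by_contra h'
    exact hn (Or.inl h')
  have h2 : S.a d ≠ d := fun h' => hn (Or.inr ⟨h1, h'⟩)
  rcases hd with h3 | h3
  · exact h3 (hs.R_sub h1)
  · apply h2
    rw [← hs.2 d h2]
    exact h3.2

private theorem hm_hv {S X' : Part D} {T : Tri D} (hs : S.Sub X') (hL : X'.Le T) {e : D} (he : e ∈ NB S X') :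
    S.Hc T e (hv S X' e) := by
  have heX : e ∈ S.X := by
    rcases he with he | he
    · exact Or.inl he.2
    · exact Or.inr he
  have h1 : S.Hc T e (X'.a e) := by
    by_cases h : X'.a e = e
    · rw [h]
      exact hc_refl _ _ _
    · rw [← hL.2 e h]
      exact hc_a heX
  refine hc_trans h1 ?_
  rcases nb_a hs he with h | h
  · rw [hv_new hs he h, ← hL.1 _ h.1]
    exact hc_f h.2
  · rw [hv_old hs he h]
    exact hc_nx h

private theorem hm_split {S : Part D} {T : Tri D} {x y : D} (hx : x ∈ S.B) (hy : y ∈ S.B) {u v : List D}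
    (hw : S.hw x = x :: (u ++ y :: v)) (hG : (S.glue x y hx hy).Le T) (hc : S.HConn T) {c o : List D}
    (hco : (c = u ∧ o = v) ∨ (c = v ∧ o = u)) {z : D} (hzo : z ∈ o)
    (ho : ∀ d ∈ o, (S.glue x y hx hy).Hc T z d) {d : D} (hd : d ∈ (S.glue x y hx hy).X) :
    (S.glue x y hx hy).Hc T z d ∨ ∃ z1 ∈ c, (S.glue x y hx hy).Hc T z1 d := by
  have hf := hm_word_facts hx hy hw
  have hSle : S.Le T := sub_le (glue_sub S hx hy) hG
  have hTa : T.a x = y := by
    rw [hG.2 x (by rw [hm_glue_ax S hx hy]; exact hf.1.symm), hm_glue_ax S hx hy]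
  have hzX : z ∈ (S.glue x y hx hy).X := by
    refine Or.inr (hf.2 z ?_).2
    rcases hco with ⟨_, h2⟩ | ⟨_, h2⟩
    · rw [h2] at hzo
      exact Or.inr hzo
    · rw [h2] at hzo
      exact Or.inl hzo
  have hSd : S.Hc T z d :=
    hc z (hm_X (glue_sub S hx hy) hzX) d (hm_X (glue_sub S hx hy) hd)
  rcases hco with ⟨rfl, rfl⟩ | ⟨rfl, rfl⟩
  · rcases (hc_glue_split hSle hx hy hTa hw hzX hd).1 hSd with h | ⟨_, z', h1, h2⟩ | ⟨_, z', h1, h2⟩
    · exact Or.inl h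
    · exact Or.inl (hc_trans (ho z' h1) h2)
    · exact Or.inr ⟨z', h1, h2⟩
  · rcases (hc_glue_split hSle hx hy hTa hw hzX hd).1 hSd with h | ⟨_, z', h1, h2⟩ | ⟨_, z', h1, h2⟩
    · exact Or.inl h
    · exact Or.inr ⟨z', h1, h2⟩
    · exact Or.inl (hc_trans (ho z' h1) h2)

private theorem hm_word {G : Part D} {T : Tri D} {z1 : D} {c : List D} (hz1 : z1 ∈ G.B) (hw : G.hw z1 = c) :
    (∀ d ∈ c, G.Hc T z1 d) ∧ G.HUn {d | d ∈ c} := by
  refine ⟨fun d hd => hc_hole hz1 (by rw [hw]; exact hd), fun d hd => ?_, fun d hd e he hde => ?_⟩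
  · have hd' : d ∈ c := hd
    rw [← hw] at hd'
    exact ((mem_hw G hz1).1 hd').1
  · have hd' : d ∈ c := hd
    rw [← hw] at hd'
    show e ∈ c
    rw [← hw, mem_hw G hz1]
    exact ⟨he, ((mem_hw G hz1).1 hd').2.trans hde⟩

private theorem hm_aux {S S' : Part D} {T : Tri D} {x y : D} (hx : x ∈ S.B) (hy : y ∈ S.B) {u v : List D}
    (hw : S.hw x = x :: (u ++ y :: v)) {c o : List D} (hco : (c = u ∧ o = v) ∨ (c = v ∧ o = u))
    (hwc : ∀ z1 w1, c = z1 :: w1 → (S.glue x y hx hy).hw z1 = c)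
    (hwo : ∀ z1 w1, o = z1 :: w1 → (S.glue x y hx hy).hw z1 = o)
    {a : ℕ} (hD : (S.glue x y hx hy).DiscFill S' c a) {z : D} {w : List D} (hz : o = z :: w) (hT : S'.Le T)
    (hc : S.HConn T) : S'.HConn T := by
  have hf := hm_word_facts hx hy hw
  have hG : (S.glue x y hx hy).Le T := sub_le (hm_discFill_sub hD) hT
  have hcB : ∀ d ∈ c, d ∈ (S.glue x y hx hy).B := by
    intro d hd
    refine (hf.2 d ?_).2
    rcases hco with ⟨h2, _⟩ | ⟨h2, _⟩
    · rw [h2] at hd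
      exact Or.inl hd
    · rw [h2] at hd
      exact Or.inr hd
  have hoB : ∀ d ∈ o, d ∈ (S.glue x y hx hy).B := by
    intro d hd
    refine (hf.2 d ?_).2
    rcases hco with ⟨_, h2⟩ | ⟨_, h2⟩
    · rw [h2] at hd
      exact Or.inr hd
    · rw [h2] at hd
      exact Or.inl hd
  have hzo : z ∈ o := by
    rw [hz]
    exact List.mem_cons_self
  have ho := (hm_word (T := T) (hoB z hzo) (hwo z w hz)).1
  have hsp := fun d (hd : d ∈ (S.glue x y hx hy).X) => hm_split hx hy hw hG hc hco hzo ho hd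
  rcases hD with ⟨hc0, _, rfl⟩ | ⟨hne, V, _, hfil⟩
  · have h1 : ∀ d ∈ (S.glue x y hx hy).X, (S.glue x y hx hy).Hc T z d := by
      intro d hd
      rcases hsp d hd with h2 | ⟨z1, h3, _⟩
      · exact h2
      · rw [hc0] at h3
        exact absurd h3 List.not_mem_nil
    intro d hd e he
    exact hc_trans (hc_symm (h1 d hd)) (h1 e he)
  · obtain ⟨z1, w1, hc1⟩ := List.exists_cons_of_ne_nil hne
    have hz1 : z1 ∈ c := by
      rw [hc1]
      exact List.mem_cons_self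
    obtain ⟨hh, hH⟩ := hm_word (T := T) (hcB z1 hz1) (hwc z1 w1 hc1)
    obtain ⟨hHC, hS'⟩ := fil_le_hc hG hH hfil hT (x := z1) hz1
    have h1 : ∀ d ∈ (S.glue x y hx hy).X, (S.glue x y hx hy).Hc T z1 d ∨ (S.glue x y hx hy).Hc T z d := by
      intro d hd
      rcases hsp d hd with h2 | ⟨z2, h3, h4⟩
      · exact Or.inr h2
      · exact Or.inl (hc_trans (hh z2 h3) h4)
    rw [hS']
    intro d hd e he
    rw [hc_fill hG z1 hd he]
    rw [X_fill] at hd he
    have h2 : (S.glue x y hx hy).Hc T z d := by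
      rcases h1 d hd.1 with h3 | h3
      · exact absurd ⟨hd.1, h3⟩ hd.2
      · exact h3
    have h4 : (S.glue x y hx hy).Hc T z e := by
      rcases h1 e he.1 with h3 | h3
      · exact absurd ⟨he.1, h3⟩ he.2
      · exact h3
    exact hc_trans (hc_symm h2) h4

theorem hc_mono (hs : S.Sub X') (hL : X'.Le T) {d e : D} (h : X'.Hc T d e) : S.Hc T d e := by
  refine hc_ind (S := X') (T := T) (fun d e => S.Hc T d e) (fun d => hc_refl S T d)
    (fun d e h => hc_symm h) (fun d e k h h' => hc_trans h h') ?_ ?_ ?_ h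
  · intro d hd
    exact hc_a (hm_X hs hd)
  · intro d hd
    exact hc_f fun h' => hd (hs.R_sub h')
  · intro d hd
    obtain ⟨j, h1, -⟩ := ret_spec (hv S X') hd
    rw [← nx_hv hs hd, h1]
    have key : ∀ i : ℕ, ((hv S X') ^ i) d ∈ NB S X' ∧ S.Hc T d (((hv S X') ^ i) d) := by
      intro i
      induction i with
      | zero => exact ⟨sub_B hs hd, hc_refl _ _ _⟩
      | succ i ih =>
        rw [pow_succ', Equiv.Perm.mul_apply]
        exact ⟨hv_mem hs ih.1, hc_trans ih.2 (hm_hv hs hL ih.1)⟩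
    exact (key (j + 1)).2

theorem st_fwd {x z : D} {s : Stp} (h : S.St x s S' z) (hL : S'.Le T) (hc : S.HConn T) : S'.HConn T := by
  cases s with
  | T =>
    obtain ⟨t0, t1, t2, hx, h0, h1, h2, h01, h12, h20, hS', hz⟩ := h
    have hT' := hL
    rw [hS'] at hT'
    obtain ⟨e0, e1, e2⟩ := hm_le_face_vals hx h0 h1 h2 h01 h12 h20 hT'
    subst e0
    subst e1
    subst e2
    have hsub : S.Sub S' := by
      rw [hS']
      exact face_sub S hx h0 h1 h2 h01 h12 h20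
    have hSle : S.Le T := sub_le hsub hL
    intro d hd e he
    exact (hc_face hSle hx h0 h1 h2 hS' hd he).2 (hc d (hm_X hsub hd) e (hm_X hsub he))
  | L k a =>
    obtain ⟨y, u, v, w, hx, hy, hw, hk, hu, hD⟩ := h
    exact hm_aux hx hy hw (c := v) (o := u) (Or.inr ⟨rfl, rfl⟩)
      (fun z1 w1 h1 => hw_glue_split_right S hx hy hw h1)
      (fun z1 w1 h1 => hw_glue_split_left S hx hy hw h1) hD hu hL hc
  | R k a =>
    obtain ⟨y, u, v, w, hx, hy, hw, hk, hu, hD⟩ := h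
    exact hm_aux hx hy hw (c := u) (o := v) (Or.inl ⟨rfl, rfl⟩)
      (fun z1 w1 h1 => hw_glue_split_left S hx hy hw h1)
      (fun z1 w1 h1 => hw_glue_split_right S hx hy hw h1) hD hu hL hc

theorem rchg_fwd {σ : List Stp → Part D → D → D} {h w : List Stp} {x x' : D} (hr : RchG σ h S x w S' x') (hL : S'.Le T)
    (hc : S.HConn T) : S'.HConn T := by
  induction w generalizing h S x with
  | nil =>
    obtain ⟨rfl, rfl⟩ := hr
    exact hc
  | cons s w ih =>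
    obtain ⟨S₁, z, hst, hr⟩ := hr
    exact ih hr (st_fwd hst (sub_le (rchg_sub hr) hL) hc)

end Part
end SYS
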