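import Pool.Agent.SYS.PX.Br

/-!
# SYS-PX-Far: the step which absorbs the first far boundary dart

The far darts are the positions `K < t < p - K` of the hole word.
-/

namespace SYS
namespace Part

open Classical SST

variable {D : Type} [Finite D] {b : Part D → Option D} {S Z Z₁ X' : Part D} {x d e z z₁ x' : D} {K : ℕ} {w : List Stp} {s : Stp}

private theorem nx_append' {S : Part D} {x d e : D} (hx : x ∈ S.B) {u v : List D} (hw : S.hw x = u ++ d :: e :: v) :
    S.nx d = e := by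
  have h := S.hw_chain hx
  rw [hw] at h
  have h2 := (List.isChain_append.1 h).2.1
  exact (List.isChain_cons_cons.1 h2).1

private theorem nx_last' {S : Part D} {x d : D} (hx : x ∈ S.B) {u : List D} (hw : S.hw x = u ++ [d]) : S.nx d = x := by
  obtain ⟨w, hw'⟩ := S.hw_cons hx
  have hd : d ∈ S.B := by
    have h1 : d ∈ S.hw x := by rw [hw]; simp
    exact ((S.mem_hw hx).1 h1).1
  rcases u with _ | ⟨a, u⟩
  · have h1 : d = x := by
      rw [hw', List.nil_append] at hw
      exact (List.cons_eq_cons.1 hw).1.symm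
    have h2 := S.nx_mem.2 hd
    obtain ⟨h3, h4⟩ := nx_pow_same S hd 1
    rw [pow_one] at h4
    have h5 : S.nx d ∈ S.hw x := by
      rw [S.mem_hw hx]
      exact ⟨h2, by rw [← h1]; exact h4⟩
    rw [hw] at h5
    have h6 : S.nx d = d := by simpa using h5
    rw [h6, h1]
  · have h1 : a = x := by
      rw [hw', List.cons_append] at hw
      exact (List.cons_eq_cons.1 hw).1.symm
    have h2 := S.hw_rot hx (u := a :: u) (v := []) hw
    rw [List.nil_append, h1] at h2
    exact nx_append' hd (u := []) (v := u) h2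

/-- the successor of an old dart -/
private theorem nx_out {S S₁ : Part D} (hs : S.Sub S₁) {b : D} (hb : b ∈ S.B) (hb1 : b ∈ S₁.B) (hb2 : S.nx b ∈ S₁.B) :
    S₁.nx b = S.nx b := by
  have ha : S₁.a b = b := hb1.2
  have h1 : hv S S₁ b = S.nx b := by
    rw [hv_old hs (sub_B hs hb1) (by rw [ha]; exact hb), ha]
  rw [← nx_hv hs hb1]
  have h2 := ret_eq (hv S S₁) hb1 (j := 0) (by rw [zero_add, pow_one, h1]; exact hb2) (fun i hi => absurd hi (by omega))
  rw [h2, zero_add, pow_one, h1]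

private theorem disc_B {G S₂ : Part D} {u : List D} {a : ℕ} (h : G.DiscFill S₂ u a) : S₂.B = G.B \ {d | d ∈ u} := by
  rcases h with ⟨h1, -, h2⟩ | ⟨-, V, -, hf⟩
  · rw [h2, h1]
    simp
  · exact hf.B

private theorem ne_xy {S : Part D} {x y : D} (hx : x ∈ S.B) {u v : List D} (hw : S.hw x = x :: (u ++ y :: v)) : x ≠ y := by
  have h := S.hw_nodup hx
  rw [hw, List.nodup_cons] at h
  intro h1
  apply h.1
  rw [← h1]
  simp

private theorem pd0 (S : Part D) {x : D} (hx : x ∈ S.B) {k : ℕ} (hk : k < S.per x)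
    (h : (S.nx ^ k) x = x) : k = 0 := by
  have h1 := S.hw_nodup hx
  unfold hw at h1
  exact List.inj_on_of_nodup_map h1 (List.mem_range.2 hk) (List.mem_range.2 (S.per_pos hx)) h

private theorem pos_of (S : Part D) {x e : D} (hx : x ∈ S.B) (he : e ∈ S.B) (h : S.s.SameCycle x e) :
    ∃ t < S.per x, e = (S.nx ^ t) x := by
  have h1 := (mem_hw S hx).2 ⟨he, h⟩
  unfold hw at h1
  obtain ⟨t, ht, h2⟩ := List.mem_map.1 h1
  exact ⟨t, List.mem_range.1 ht, h2.symm⟩

private theorem nx_per (S : Part D) {x : D} (hx : x ∈ S.B) : (S.nx ^ S.per x) x = x := by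
  obtain ⟨h1, h2⟩ := nx_pow_same S hx (S.per x)
  obtain ⟨t, ht, h3⟩ := pos_of S hx h1 h2
  have h4 : (S.nx ^ (S.per x - t)) x = x := by
    have h5 : S.per x = t + (S.per x - t) := by omega
    rw [h5, pow_add, Equiv.Perm.mul_apply] at h3
    exact (S.nx ^ t).injective h3
  rcases Nat.eq_zero_or_pos t with h5 | h5
  · rw [h3, h5]
    rfl
  · have h6 := pd0 S hx (by omega) h4
    omega

private theorem far_of (S : Part D) {x : D} {K t : ℕ} (hx : x ∈ S.B) (h1 : K < t)
    (h2 : t + K < S.per x) : Far S x K ((S.nx ^ t) x) := by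
  obtain ⟨h3, h4⟩ := nx_pow_same S hx t
  refine ⟨h3, h4, fun m hm h => ?_⟩
  unfold bs at h
  have h5 := abs_le.1 hm
  obtain ⟨k, hk⟩ : ∃ k : ℕ, (k : ℤ) = t - m := ⟨((t : ℤ) - m).toNat, by omega⟩
  have h6 : (S.nx ^ k) x = x := by
    have h7 : (S.nx ^ ((t : ℤ) - m)) x = x := by
      rw [sub_eq_neg_add, zpow_add, Equiv.Perm.mul_apply, zpow_natCast, h,
        ← Equiv.Perm.mul_apply, ← zpow_add, neg_add_cancel, zpow_zero, Equiv.Perm.one_apply]
    rw [← hk, zpow_natCast] at h7
    exact h7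
  have h8 := pd0 S hx (by omega) h6
  omega

private theorem of_far (S : Part D) {x e : D} {K : ℕ} (hx : x ∈ S.B) (h : Far S x K e) :
    ∃ t : ℕ, K < t ∧ t + K < S.per x ∧ e = (S.nx ^ t) x := by
  obtain ⟨t, ht, h1⟩ := pos_of S hx h.1 h.2.1
  refine ⟨t, ?_, ?_, h1⟩
  · by_contra h2
    refine h.2.2 t ?_ ?_
    · rw [abs_of_nonneg (by omega)]
      omega
    · show e = (S.nx ^ (t : ℤ)) x
      rw [zpow_natCast]
      exact h1
  · by_contra h2
    refine h.2.2 ((t : ℤ) - S.per x) ?_ ?_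
    · rw [abs_le]
      omega
    · show e = (S.nx ^ ((t : ℤ) - S.per x)) x
      rw [sub_eq_add_neg, zpow_add, Equiv.Perm.mul_apply, zpow_natCast, zpow_neg, zpow_natCast]
      have h3 : (S.nx ^ S.per x)⁻¹ x = x := by
        rw [Equiv.Perm.inv_eq_iff_eq]
        exact (nx_per S hx).symm
      rw [h3]
      exact h1

private theorem nx_far {S Z : Part D} {x e : D} {K : ℕ} (hs : S.Sub Z) (hZ : ¬ S.Abs x K Z)
    (he : Far S x K e) (he' : Far S x K (S.nx e)) : Z.nx e = S.nx e := by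
  have h1 : ∀ f, Far S x K f → f ∈ Z.B := by
    intro f hf
    by_contra h
    exact hZ ⟨f, hf, h⟩
  exact nx_out hs he.1 (h1 e he) (h1 _ he')

/-- a far dart in the interval `L` between darts which are not far -/
private theorem spread {S Z : Part D} {x a b : D} {K : ℕ} {L : List D} (hx : x ∈ S.B)
    (hs : S.Sub Z) (hZ : ¬ S.Abs x K Z) (ha : ¬ Far S x K a) (hb : ¬ Far S x K b)
    (hf : ∀ e ∈ L, Z.nx e ∈ L ∨ Z.nx e = b) (hp : ∀ e ∈ L, ∃ e', Z.nx e' = e ∧ (e' ∈ L ∨ e' = a))
    {e₀ : D} (h0 : Far S x K e₀) (h0L : e₀ ∈ L) : S.per x ≤ L.length + 2 * K + 1 := by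
  obtain ⟨t₀, h1, h2, h3⟩ := of_far S hx h0
  rw [h3] at h0L
  have hup : ∀ n : ℕ, t₀ + n + K < S.per x → (S.nx ^ (t₀ + n)) x ∈ L := by
    intro n
    induction n with
    | zero => exact fun _ => h0L
    | succ n ih =>
      intro h
      have h4 := ih (by omega)
      have h5 := far_of S hx (K := K) (t := t₀ + n) (by omega) (by omega)
      have h6 := far_of S hx (K := K) (t := t₀ + (n + 1)) (by omega) (by omega)
      have h7 : (S.nx ^ (t₀ + (n + 1))) x = S.nx ((S.nx ^ (t₀ + n)) x) := by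
        rw [← add_assoc, pow_succ', Equiv.Perm.mul_apply]
      rw [h7] at h6 ⊢
      have h8 := nx_far hs hZ h5 h6
      rcases hf _ h4 with h9 | h9
      · rwa [h8] at h9
      · rw [h8] at h9
        rw [h9] at h6
        exact absurd h6 hb
  have hdn : ∀ n : ℕ, K < t₀ - n → (S.nx ^ (t₀ - n)) x ∈ L := by
    intro n
    induction n with
    | zero => exact fun _ => h0L
    | succ n ih =>
      intro h
      have h4 := ih (by omega)
      have h5 := far_of S hx (K := K) (t := t₀ - n) (by omega) (by omega)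
      have h6 := far_of S hx (K := K) (t := t₀ - (n + 1)) (by omega) (by omega)
      have h7 : (S.nx ^ (t₀ - n)) x = S.nx ((S.nx ^ (t₀ - (n + 1))) x) := by
        have h8 : t₀ - n = (t₀ - (n + 1)) + 1 := by omega
        rw [h8, pow_succ', Equiv.Perm.mul_apply]
      rw [h7] at h5 h4
      have h8 := nx_far hs hZ h6 h5
      obtain ⟨e', h9, h10⟩ := hp _ h4
      rw [← h8] at h9
      have h11 := Z.nx.injective h9
      rcases h10 with h10 | h10
      · rwa [h11] at h10
      · rw [← h11, h10] at h6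
        exact absurd h6 ha
  have hall : ∀ t : ℕ, K < t → t + K < S.per x → (S.nx ^ t) x ∈ L := by
    intro t h4 h5
    rcases Nat.le_total t₀ t with h6 | h6
    · have h7 := hup (t - t₀) (by omega)
      rwa [Nat.add_sub_cancel' h6] at h7
    · have h7 := hdn (t₀ - t) (by omega)
      rwa [Nat.sub_sub_self h6] at h7
  have hinj : Set.InjOn (fun t : ℕ => (S.nx ^ t) x) (Finset.Ioo K (S.per x - K)) := by
    intro i hi j hj hij
    rw [Finset.mem_coe, Finset.mem_Ioo] at hi hj
    have h4 := S.hw_nodup hx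
    unfold hw at h4
    exact List.inj_on_of_nodup_map h4 (List.mem_range.2 (by omega)) (List.mem_range.2 (by omega))
      hij
  have hcard := Finset.card_le_card_of_injOn (s := Finset.Ioo K (S.per x - K)) (t := L.toFinset)
    (fun t : ℕ => (S.nx ^ t) x) (fun t ht => by
      rw [Finset.mem_coe, Finset.mem_Ioo] at ht
      rw [Finset.mem_coe, List.mem_toFinset]
      exact hall t ht.1 (by omega)) hinj
  rw [Nat.card_Ioo] at hcard
  have h4 := L.toFinset_card_le
  omega

private theorem glue_a {Z : Part D} {d y : D} (hd : d ∈ Z.B) (hy : y ∈ Z.B) (hne : d ≠ y)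
    {u : List D} {a : ℕ} (h : (Z.glue d y hd hy).DiscFill Z₁ u a) : Z₁.a d = y := by
  have h1 : (Z.glue d y hd hy).a d = y := by
    show (Z.a * Equiv.swap d y) d = y
    rw [Equiv.Perm.mul_apply, Equiv.swap_apply_left]
    exact hy.2
  rcases h with ⟨-, -, h2⟩ | ⟨-, V, -, hf⟩
  · rw [h2, h1]
  · rw [hf.sub.2 d (by rw [h1]; exact hne.symm), h1]

theorem far_first (hr : BR b Z z w X' x') (hZ : ¬ S.Abs x K Z) (hX : S.Abs x K X') :
    ∃ (w₁ : List Stp) (s : Stp) (w₂ : List Stp) (Z₁ : Part D) (z₁ d : D) (Z₂ : Part D) (z₂ : D), w = w₁ ++ s :: w₂ ∧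
      BR b Z z w₁ Z₁ z₁ ∧ ¬ S.Abs x K Z₁ ∧ b Z₁ = some d ∧ d ∈ Z₁.B ∧ Z₁.s.SameCycle z₁ d ∧ Z₁.St d s Z₂ z₂ ∧
      S.Abs x K Z₂ ∧ BR b Z₂ z₂ w₂ X' x' := by
  induction w generalizing Z z with
  | nil =>
    obtain ⟨rfl, rfl⟩ := hr
    exact absurd hX hZ
  | cons s w ih =>
    obtain ⟨d, Z₁, z₁, hb, hd, hz, hst, hr⟩ := hr
    by_cases hA : S.Abs x K Z₁
    · exact ⟨[], s, w, Z, z, d, Z₁, z₁, rfl, ⟨rfl, rfl⟩, hZ, hb, hd, hz, hst, hA, hr⟩
    · obtain ⟨w₁, s', w₂, Z', z', d', Z₂, z₂, hw, hr1, h2, h3, h4, h5, h6, h7, h8⟩ := ih hr hA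
      refine ⟨s :: w₁, s', w₂, Z', z', d', Z₂, z₂, ?_, ⟨d, Z₁, z₁, hb, hd, hz, hst, hr1⟩, h2, h3,
        h4, h5, h6, h7, h8⟩
      rw [hw]
      rfl

theorem far_nx (hs : S.Sub Z) (hZ : ¬ S.Abs x K Z) (he : Far S x K e) (he' : Far S x K (S.nx e)) : Z.nx e = S.nx e := by
  exact nx_far hs hZ he he'

theorem far_step (hx : x ∈ S.B) (hK : 2 * K + 1 < S.per x) (hs : S.Sub Z) (hZ : ¬ S.Abs x K Z) (hd : ¬ Far S x K d)
    (hst : Z.St d s Z₁ z₁) (hA : S.Abs x K Z₁) :
    (∃ y, Far S x K y ∧ Z₁.a d = y) ∨ ∃ k a, (s = .L k a ∨ s = .R k a) ∧ S.per x ≤ k + 2 * K + 1 := by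
  have _ := hK
  obtain ⟨e₀, h0, h0n⟩ := hA
  have h0B : e₀ ∈ Z.B := by
    by_contra h
    exact hZ ⟨e₀, h0, h⟩
  have h0d : e₀ ≠ d := by
    intro h
    rw [h] at h0
    exact hd h0
  cases s with
  | T =>
    obtain ⟨t0, t1, t2, hx', g0, g1, g2, g01, g12, g20, hS', hz⟩ := hst
    exfalso
    apply h0n
    rw [hS', face_B]
    exact Or.inl ⟨h0B, h0d⟩
  | R k a =>
    obtain ⟨y, u, v, w, hx', hy, hw, hk, hv, hD⟩ := hst
    have hne := ne_xy hx' hw
    by_cases hyF : Far S x K y
    · exact Or.inl ⟨y, hyF, glue_a hx' hy hne hD⟩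
    · right
      refine ⟨k, a, Or.inr rfl, ?_⟩
      have h0y : e₀ ≠ y := by
        intro h
        rw [h] at h0
        exact hyF h0
      have h0u : e₀ ∈ u := by
        rw [disc_B hD, glue_B Z hx' hy hne] at h0n
        by_contra h
        apply h0n
        refine ⟨⟨h0B, ?_⟩, h⟩
        rintro (h1 | h1)
        · exact h0d h1
        · exact h0y h1
      rw [← hk]
      refine spread hx hs hZ hd hyF ?_ ?_ h0 h0u
      · intro e he
        obtain ⟨u1, u2, hu⟩ := List.append_of_mem he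
        rcases u2 with _ | ⟨f, u2⟩
        · right
          exact nx_append' hx' (u := d :: u1) (v := v) (by rw [hw, hu]; simp)
        · left
          have h1 := nx_append' hx' (u := d :: u1) (v := u2 ++ y :: v) (d := e) (e := f)
            (by rw [hw, hu]; simp)
          rw [h1, hu]
          simp
      · intro e he
        obtain ⟨u1, u2, hu⟩ := List.append_of_mem he
        rcases List.eq_nil_or_concat u1 with h1 | ⟨u3, f, h1⟩
        · refine ⟨d, ?_, Or.inr rfl⟩
          exact nx_append' hx' (u := []) (v := u2 ++ y :: v) (by rw [hw, hu, h1]; simp)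
        · refine ⟨f, ?_, Or.inl ?_⟩
          · exact nx_append' hx' (u := d :: u3) (v := u2 ++ y :: v) (by rw [hw, hu, h1]; simp)
          · rw [hu, h1]
            simp
  | L k a =>
    obtain ⟨y, u, v, w, hx', hy, hw, hk, hu, hD⟩ := hst
    have hne := ne_xy hx' hw
    by_cases hyF : Far S x K y
    · exact Or.inl ⟨y, hyF, glue_a hx' hy hne hD⟩
    · right
      refine ⟨k, a, Or.inl rfl, ?_⟩
      have h0y : e₀ ≠ y := by
        intro h
        rw [h] at h0
        exact hyF h0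
      have h0v : e₀ ∈ v := by
        rw [disc_B hD, glue_B Z hx' hy hne] at h0n
        by_contra h
        apply h0n
        refine ⟨⟨h0B, ?_⟩, h⟩
        rintro (h1 | h1)
        · exact h0d h1
        · exact h0y h1
      rw [← hk]
      refine spread hx hs hZ hyF hd ?_ ?_ h0 h0v
      · intro e he
        obtain ⟨v1, v2, hv⟩ := List.append_of_mem he
        rcases v2 with _ | ⟨f, v2⟩
        · right
          exact nx_last' hx' (u := d :: (u ++ y :: v1)) (by rw [hw, hv]; simp)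
        · left
          have h1 := nx_append' hx' (u := d :: (u ++ y :: v1)) (v := v2) (d := e) (e := f)
            (by rw [hw, hv]; simp)
          rw [h1, hv]
          simp
      · intro e he
        obtain ⟨v1, v2, hv⟩ := List.append_of_mem he
        rcases List.eq_nil_or_concat v1 with h1 | ⟨v3, f, h1⟩
        · refine ⟨y, ?_, Or.inr rfl⟩
          exact nx_append' hx' (u := d :: u) (v := v2) (by rw [hw, hv, h1]; simp)
        · refine ⟨f, ?_, Or.inl ?_⟩
          · exact nx_append' hx' (u := d :: (u ++ y :: v3)) (v := v2) (by rw [hw, hv, h1]; simp)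
          · rw [hv, h1]
            simp

end Part
end SYS
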