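import Pool.Agent.SYS.PX.Abs1
import Pool.Agent.SYS.PX.Abs2
import Pool.Agent.SYS.PX.Far

/-!
# SYS-PX-AbsF: absorption of far boundary darts, final form
-/

namespace SYS
namespace Part

open Classical SST Num

variable {n κ : ℕ} {l : List (Fin (6 * n))} {p : ℕ} {P : List ℕ} {F : ℕ} {S : Part (Fin (6 * n))} {x : Fin (6 * n)}
  {b : Part (Fin (6 * n)) → Option (Fin (6 * n))}

private theorem af_class (hS : S.Typ (x :: l) (p :: P) F κ) {R K : ℕ} (hP : PathP b S x R) (hK : 2 * K + 1 < p)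
    {q : List Stp × Part (Fin (6 * n)) × Fin (6 * n)} (hq : BEnd b S x q) (hA : Abs S x K q.2.1)
    (h : ¬ ∃ τ : List Bool, τ.length ≤ R ∧ ∃ (Y : Part (Fin (6 * n))) (d y : Fin (6 * n)),
      RchG (trn τ) [] S x (List.replicate τ.length .T) Y d ∧ Y.Sub q.2.1 ∧ Far S x K y ∧ q.2.1.a d = y) :
    ∃ s ∈ q.1, ∃ k a, (s = Stp.L k a ∨ s = Stp.R k a) ∧ p - (2 * K + 1) ≤ k := by
  have hxB : x ∈ S.B := hS.hl.1 x List.mem_cons_self
  have hpx : S.per x = p := by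
    have h1 := hS.per
    rw [List.map_cons, List.cons.injEq] at h1
    exact h1.1
  obtain ⟨hr, hb⟩ := hq
  have hS0 : ¬ S.Abs x K S := by
    rintro ⟨e, h1, h2⟩
    exact h2 h1.1
  obtain ⟨w₁, s, w₂, Z₁, z₁, d, Z₂, z₂, hw, hr1, hZ, hbd, hd, hz, hst, hA2, hr2⟩ := far_first hr hS0 hA
  have hr3 : BR b Z₁ z₁ (s :: w₂) q.2.1 q.2.2 := ⟨d, Z₂, z₂, hbd, hd, hz, hst, hr2⟩
  obtain ⟨τ, hτ, Y, hY, hYs⟩ := hP w₁ (s :: w₂) Z₁ q.2.1 z₁ d q.2.2 hr1 hbd hr3 hb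
  have hnf : ¬ Far S x K d := by
    intro hf
    rcases path_new hY with ⟨_, _, h1⟩ | h1
    · refine hf.2.2 0 (by simp) ?_
      rw [h1]
      rfl
    · exact h1.2 hf.1.1
  rcases far_step hxB (by rw [hpx]; exact hK) (br_sub hr1) hZ hnf hst hA2 with ⟨y, hy, hya⟩ | ⟨k, a, h1, h2⟩
  · exfalso
    apply h
    refine ⟨τ, hτ, Y, d, y, hY, hYs, hy, ?_⟩
    rw [← hya]
    exact (br_sub hr2).2 d (st_strict hst).2
  · refine ⟨s, ?_, k, a, h1, ?_⟩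
    · rw [hw]
      simp
    · rw [hpx] at h2
      omega

theorem abs_le {X : ℝ} (hX : 0 < X) (hS : S.Typ (x :: l) (p :: P) F κ) (hM : Mon b S) {R N K : ℕ} (hP : PathP b S x R)
    (hK : 2 * K + 1 < p) (Q : Finset (List Stp × Part (Fin (6 * n)) × Fin (6 * n)))
    (hQ : ∀ q ∈ Q, BEnd b S x q ∧ Abs S x K q.2.1 ∧ q.1.length ≤ N ∧ wvol q.1 + l.length + 1 ≤ F) {t t' : ℝ}
    (ht : ∀ G : Finset (ℕ × ℕ), (∀ c ∈ G, K ≤ c.1) → ∑ c ∈ G, qq X c.1 c.2 ≤ t)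
    (ht' : ∀ G : Finset (ℕ × ℕ), (∀ c ∈ G, p ≤ c.1 + (2 * K + 1)) → ∑ c ∈ G, qq X c.1 c.2 ≤ t') :
    ∑ q ∈ Q, nwt X F q.1 ≤ 2 ^ (R + 2) * t + 2 * N * t' := by
  classical
  rw [← Finset.sum_filter_add_sum_filter_not Q fun q => ∃ τ : List Bool, τ.length ≤ R ∧
    ∃ (Y : Part (Fin (6 * n))) (d y : Fin (6 * n)),
      RchG (trn τ) [] S x (List.replicate τ.length .T) Y d ∧ Y.Sub q.2.1 ∧ Far S x K y ∧ q.2.1.a d = y]
  refine add_le_add ?_ ?_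
  · refine abs1 hX hS hM _ (fun q hq => (hQ q (Finset.mem_filter.1 hq).1).1) (fun q hq => ?_) hK
      (fun q hq => (Finset.mem_filter.1 hq).2) ht
    obtain ⟨⟨hr, _⟩, _, _, hF⟩ := hQ q (Finset.mem_filter.1 hq).1
    obtain ⟨_, F', hF', hT⟩ := br_typ hS hr
    refine ext_ne hT (List.cons_ne_nil _ _) ?_
    rw [List.length_cons]
    omega
  · refine abs2 (k₀ := p - (2 * K + 1)) hX hS _ (fun q hq => (hQ q (Finset.mem_filter.1 hq).1).1)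
      (fun q hq => (hQ q (Finset.mem_filter.1 hq).1).2.2.1) (fun q hq => ?_) fun G hG => ht' G fun c hc => ?_
    · obtain ⟨h1, h2⟩ := Finset.mem_filter.1 hq
      obtain ⟨h3, h4, _, _⟩ := hQ q h1
      exact af_class hS hP hK h3 h4 h2
    · have := hG c hc
      omega

end Part
end SYS
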