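import Pool.Agent.SYS.PX.Br

/-!
# SYS-PX-Ex: exits of a block

PLAN.  `ex_hole`: `br_typ`: `X'.Typ (x' :: l) ..`, so the boundary dart `e` of `X'` is in the hole of `x'` or of some `e' ∈ l` (`HL`, `hl.2.2`).  In the second case `e' ∈ S.B`, `¬ S.s.SameCycle x e'`; the hole of `e'` is not changed by the run (`rchg_other` with `br_rchg`: `X'.hw e' = S.hw e'`; the gate `rb b [] S x` is in the hole of `x`), so
`e ∈ S.hw e'`, `e ∈ S.B` and not in the hole of `x`: both forms of the hypothesis `he` are contradicted.  `exn_le`: the exits are in `X'.hole x'` whose number of elements is `per = wend p w` (`Typ.per`).  `exn_len`: each step adds at most 2 boundary darts which are not in `S.B` (only `T` steps add darts: `face_B`): induction over the run.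
`br_mass`: total mass of ends, `tree_mass` with `end_pf` (`PX/Abs2`), copy or import it.
-/

namespace SYS
namespace Part

open Classical SST Num

variable {D : Type} [Finite D] {b : Part D → Option D} {S X' : Part D} {x x' e : D} {w : List Stp} {l : List D} {p : ℕ} {P : List ℕ}
  {F κ : ℕ}

theorem ex_hole (hS : S.Typ (x :: l) (p :: P) F κ) (hr : BR b S x w X' x') (he : e ∈ X'.B)
    (he' : e ∉ S.B ∨ S.s.SameCycle x e) : X'.s.SameCycle x' e := by
  obtain ⟨-, F', -, hT⟩ := br_typ hS hr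
  have hx : x ∈ S.B := hS.hl.1 x List.mem_cons_self
  obtain ⟨e', he'l, hs⟩ := hT.hl.2.2 e he
  rcases List.mem_cons.1 he'l with rfl | h1
  · exact hs
  exfalso
  have h2 : e' ∈ S.B := hS.hl.1 e' (List.mem_cons_of_mem _ h1)
  have h3 : ¬ S.s.SameCycle x e' := (List.pairwise_cons.1 hS.hl.2.1).1 e' h1
  obtain ⟨h4, h5⟩ := rb_rul b [] S x hx
  obtain ⟨h6, h7, -⟩ := rchg_other (rb_rul b) (br_rchg (h := []) hr) h2 (fun h => h3 (h5.trans h))
  have h8 : e ∈ S.hw e' := by
    rw [← h7]
    exact (mem_hw X' h6).2 ⟨he, hs⟩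
  obtain ⟨h9, h10⟩ := (mem_hw S h2).1 h8
  rcases he' with h | h
  · exact h h9
  · exact h3 (h.trans h10.symm)

theorem exn_le (hS : S.Typ (x :: l) (p :: P) F κ) (hr : BR b S x w X' x') : exn S X' ≤ wend p w := by
  obtain ⟨-, F', -, hT⟩ := br_typ hS hr
  have h1 : X'.per x' = wend p w := by
    have := hT.per
    rw [List.map_cons, List.cons.injEq] at this
    exact this.1
  rw [← h1]
  unfold exn per
  refine Set.ncard_le_ncard (fun e he => ?_) (Set.toFinite _)
  exact ⟨he.1, ex_hole hS hr he.1 (Or.inl he.2)⟩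

private theorem ex_df {S1 S' : Part D} {u : List D} {a : ℕ} (hf : S1.DiscFill S' u a) : S'.B ⊆ S1.B := by
  rcases hf with ⟨_, _, rfl⟩ | ⟨_, V, _, hf⟩
  · exact subset_rfl
  · rw [hf.B]
    exact Set.sdiff_subset

private theorem ex_st {S₁ : Part D} {d z₁ : D} {s : Stp} (h : S.St d s S₁ z₁) : (S₁.B \ S.B).ncard ≤ 2 := by
  have key : ∀ (y : D) (hx : d ∈ S.B) (hy : y ∈ S.B), (S.glue d y hx hy).B ⊆ S.B := by
    intro y hx hy
    by_cases hxy : d = y
    · subst hxy
      intro e he
      refine ⟨he.1, ?_⟩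
      have h1 : (S.a * Equiv.swap d d) e = e := he.2
      rw [Equiv.swap_self] at h1
      exact h1
    · rw [glue_B S hx hy hxy]
      exact Set.sdiff_subset
  cases s with
  | T =>
    obtain ⟨t0, t1, t2, hx, h0, h1, h2, h01, h12, h20, rfl, _⟩ := h
    have hsub : (S.face d t0 t1 t2 hx h0 h1 h2 h01 h12 h20).B \ S.B ⊆ {t1, t2} := by
      rw [face_B]
      rintro e ⟨he | he, he'⟩
      · exact absurd he.1 he'
      · exact he
    refine (Set.ncard_le_ncard hsub (Set.toFinite _)).trans ?_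
    exact (Set.ncard_insert_le _ _).trans (by rw [Set.ncard_singleton])
  | L k a =>
    obtain ⟨y, u, v, w, hx, hy, hw, _, _, hD⟩ := h
    have h1 : S₁.B \ S.B = ∅ := Set.sdiff_eq_empty.2 ((ex_df hD).trans (key y hx hy))
    rw [h1, Set.ncard_empty]
    omega
  | R k a =>
    obtain ⟨y, u, v, w, hx, hy, hw, _, _, hD⟩ := h
    have h1 : S₁.B \ S.B = ∅ := Set.sdiff_eq_empty.2 ((ex_df hD).trans (key y hx hy))
    rw [h1, Set.ncard_empty]
    omega

theorem exn_len (hx : x ∈ S.B) (hr : BR b S x w X' x') : exn S X' ≤ 2 * w.length := by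
  induction w generalizing S x with
  | nil =>
    obtain ⟨rfl, rfl⟩ := hr
    unfold exn
    simp
  | cons s w ih =>
    obtain ⟨d, S₁, z₁, h1, h2, h3, h4, h5⟩ := hr
    have h6 := ih (st_sub h4).2.2 h5
    have h7 := ex_st h4
    unfold exn at h6 ⊢
    have h8 : X'.B \ S.B ⊆ (X'.B \ S₁.B) ∪ (S₁.B \ S.B) := by
      rintro e ⟨he, he'⟩
      by_cases h : e ∈ S₁.B
      · exact Or.inr ⟨h, he'⟩
      · exact Or.inl ⟨he, h⟩
    have h9 := (Set.ncard_le_ncard h8 (Set.toFinite _)).trans (Set.ncard_union_le _ _)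
    rw [List.length_cons]
    omega

end Part
end SYS
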