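import Pool.Agent.SYS.PX.Br

/-! # SYS-PX-Pth: exploration along a dual path -/

namespace SYS
namespace Part

open Classical SST

variable {D : Type} [Finite D] {S Y Z : Part D} {x d y z : D} {K : ℕ} {τ : List Bool} {s : Stp}

theorem trn_rul (τ : List Bool) : Rul (trn (D := D) τ) := by
  intro h S z hz
  unfold trn
  by_cases h1 : τ.getD (h.length - 1) true = true
  · rw [if_pos h1]
    exact ⟨hz, Equiv.Perm.SameCycle.refl _ _⟩
  · rw [if_neg h1]
    have h2 := nx_pow_same S hz 1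
    rw [pow_one] at h2
    exact h2

private theorem pth_nx (hs : S.Sub Z) {e : D} (he : e ∈ S.B) (he' : e ∈ Z.B) (hn : S.nx e ∈ Z.B) : Z.nx e = S.nx e := by
  have h1 : hv S Z e = S.nx (Z.a e) := hv_old hs (Or.inr he) (by rw [he'.2]; exact he)
  rw [he'.2] at h1
  have h2 : (hv S Z ^ (0 + 1)) e = S.nx e := by rw [zero_add, pow_one, h1]
  rw [← nx_hv hs he', ← h2]
  exact ret_eq _ he' (by rw [h2]; exact hn) (fun i hi => absurd hi (Nat.not_lt_zero i))

private theorem pth_step (hst : S.St x .T Y z) :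
    z ∉ S.R ∧ Y.nx z ∉ S.R ∧ z ∈ Y.B ∧ ∀ e ∈ S.B, e ≠ x → e ∈ Y.B := by
  obtain ⟨t0, t1, t2, hx, h0, h1, h2, h01, h12, h20, rfl, rfl⟩ := hst
  obtain ⟨u, hu⟩ := S.hw_cons hx
  have h3 := S.hw_face hx h0 h1 h2 h01 h12 h20 hu
  have hz : z ∈ (S.face x t0 z t2 hx h0 h1 h2 h01 h12 h20).B := by
    rw [face_B]
    exact Or.inr (Or.inl rfl)
  have h4 := (S.face x t0 z t2 hx h0 h1 h2 h01 h12 h20).hw_chain hz
  rw [h3] at h4
  refine ⟨h1, ?_, hz, fun e he hex => ?_⟩
  · rw [(List.isChain_cons_cons.1 h4).1]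
    exact h2
  · rw [face_B]
    exact Or.inl ⟨he, hex⟩

private theorem pth_gate (τ : List Bool) (h : List Stp) (hst : S.St x .T Y z) :
    trn τ h Y z ∉ S.R ∧ trn τ h Y z ∈ Y.B := by
  obtain ⟨h1, h2, h3, -⟩ := pth_step hst
  unfold trn
  by_cases h4 : τ.getD (h.length - 1) true = true
  · rw [if_pos h4]
    exact ⟨h1, h3⟩
  · rw [if_neg h4]
    exact ⟨h2, (nx_mem Y).2 h3⟩

private theorem pth_inv (r : ℕ) (hY : RchG (trn τ) [] S x (List.replicate (r + 1) .T) Y d) :
    d ∉ S.R ∧ d ∈ Y.B ∧ ∀ e ∈ S.B, e ≠ x → e ∈ Y.B := by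
  induction r generalizing Y d with
  | zero =>
    obtain ⟨Y₁, z, hst, rfl, rfl⟩ := hY
    obtain ⟨h1, h2⟩ := pth_gate τ ([] ++ [.T]) hst
    exact ⟨h1, h2, (pth_step hst).2.2.2⟩
  | succ r ih =>
    rw [List.replicate_succ', rchg_append] at hY
    obtain ⟨Y₁, d₁, hY₁, Y₂, z, hst, rfl, rfl⟩ := hY
    obtain ⟨h1, h2, h3⟩ := ih hY₁
    obtain ⟨h4, h5⟩ := pth_gate τ (([] ++ List.replicate (r + 1) .T) ++ [.T]) hst
    have hs := rchg_sub hY₁
    refine ⟨fun h => h4 (hs.R_sub h), h5, fun e he hex => (pth_step hst).2.2.2 e (h3 e he hex) ?_⟩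
    rintro rfl
    exact h1 he.1

private theorem pth_pow {Z : Part D} {d y : D} {u v : List D} (hd : d ∈ Z.B) (hw : Z.hw d = d :: (u ++ y :: v)) :
    (Z.nx ^ (u.length + 1)) d = y ∧ (Z.nx ^ (v.length + 1)) y = d := by
  have key : ∀ {d y : D} {u v : List D}, Z.hw d = d :: (u ++ y :: v) → (Z.nx ^ (u.length + 1)) d = y := by
    intro d y u v hw
    have h1 : (Z.hw d)[u.length + 1]? = some y := by
      rw [hw, List.getElem?_cons_succ, List.getElem?_append_right le_rfl, Nat.sub_self]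
      rfl
    unfold Part.hw at h1
    rw [List.getElem?_map] at h1
    obtain ⟨i, hi, hi'⟩ := Option.map_eq_some_iff.1 h1
    have h2 : i = u.length + 1 := by
      obtain ⟨h3, h4⟩ := List.getElem?_eq_some_iff.1 hi
      rw [← h4, List.getElem_range]
    rw [h2] at hi'
    exact hi'
  refine ⟨key hw, ?_⟩
  have h1 : Z.hw d = (d :: u) ++ y :: v := hw
  exact key (Z.hw_rot hd h1)

private theorem pth_word {Z : Part D} {d y : D} {u v : List D} (hs : S.Sub Z) (hd : d ∈ Z.B)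
    (hD : d ∉ S.R) (hB : ∀ e ∈ S.B, e ≠ x → e ∈ Z.B) (hy : Far S x K y)
    (hw : Z.hw d = d :: (u ++ y :: v)) : K ≤ u.length ∧ K ≤ v.length := by
  obtain ⟨hu, hv⟩ := pth_pow hd hw
  obtain ⟨hyB, -, hym⟩ := hy
  constructor
  · by_contra hK
    have key : ∀ j : ℕ, j ≤ K → (S.nx⁻¹ ^ j) y ∈ S.B ∧ (Z.nx ^ j) ((S.nx⁻¹ ^ j) y) = y := by
      intro j
      induction j with
      | zero => exact fun _ => ⟨hyB, rfl⟩
      | succ j ih =>
        intro hj
        obtain ⟨h1, h2⟩ := ih (by omega)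
        obtain ⟨e, he⟩ : ∃ e, e = (S.nx⁻¹ ^ (j + 1)) y := ⟨_, rfl⟩
        have h3 : S.nx e = (S.nx⁻¹ ^ j) y := by
          rw [he, pow_succ', Equiv.Perm.mul_apply]
          exact Equiv.apply_symm_apply _ _
        have hne : ∀ i : ℕ, i ≤ K → (S.nx⁻¹ ^ i) y ≠ x := by
          intro i hi h4
          refine hym i (by simpa using hi) ?_
          show y = (S.nx ^ (i : ℤ)) x
          rw [zpow_natCast, ← h4, inv_pow]
          exact (Equiv.apply_symm_apply _ _).symm
        have h4 : e ∈ S.B := by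
          rw [← S.nx_mem, h3]
          exact h1
        have h5 : e ∈ Z.B := hB e h4 (by rw [he]; exact hne (j + 1) hj)
        have h6 : S.nx e ∈ Z.B := by
          rw [h3]
          exact hB _ h1 (hne j (by omega))
        rw [← he]
        refine ⟨h4, ?_⟩
        rw [pow_succ, Equiv.Perm.mul_apply, pth_nx hs h4 h5 h6, h3, h2]
    obtain ⟨h1, h2⟩ := key (u.length + 1) (by omega)
    rw [← hu] at h2
    have h3 := (Z.nx ^ (u.length + 1)).injective h2
    rw [hu] at h3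
    exact hD (h3 ▸ h1.1)
  · by_contra hK
    have hne : ∀ i : ℕ, i ≤ K → (S.nx ^ i) y ≠ x := by
      intro i hi h4
      refine hym (-i) (by simpa using hi) ?_
      show y = (S.nx ^ (-(i : ℤ))) x
      rw [zpow_neg, zpow_natCast, ← h4]
      exact (Equiv.symm_apply_apply _ _).symm
    have key : ∀ j : ℕ, j ≤ K → (S.nx ^ j) y ∈ S.B ∧ (Z.nx ^ j) y = (S.nx ^ j) y := by
      intro j
      induction j with
      | zero => exact fun _ => ⟨hyB, rfl⟩
      | succ j ih =>
        intro hj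
        obtain ⟨h1, h2⟩ := ih (by omega)
        have h3 : S.nx ((S.nx ^ j) y) = (S.nx ^ (j + 1)) y := by rw [pow_succ', Equiv.Perm.mul_apply]
        have h4 : (S.nx ^ (j + 1)) y ∈ S.B := by
          rw [← h3]
          exact S.nx_mem.2 h1
        have h5 := pth_nx hs h1 (hB _ h1 (hne j (by omega))) (by rw [h3]; exact hB _ h4 (hne (j + 1) hj))
        refine ⟨h4, ?_⟩
        rw [pow_succ', Equiv.Perm.mul_apply, h2, h5, h3]
    obtain ⟨h1, h2⟩ := key (v.length + 1) (by omega)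
    rw [hv] at h2
    exact hD (h2 ▸ h1.1)

private theorem pth_word0 {d y : D} {u v : List D} (hd : d ∈ S.B) (hy : Far S d K y)
    (hw : S.hw d = d :: (u ++ y :: v)) : K ≤ u.length ∧ K ≤ v.length := by
  obtain ⟨hu, hv⟩ := pth_pow hd hw
  obtain ⟨-, -, hym⟩ := hy
  constructor
  · by_contra hK
    refine hym ((u.length + 1 : ℕ) : ℤ) ?_ ?_
    · rw [Nat.abs_cast]
      exact_mod_cast (by omega : u.length + 1 ≤ K)
    · show y = (S.nx ^ ((u.length + 1 : ℕ) : ℤ)) d
      rw [zpow_natCast, hu]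
  · by_contra hK
    refine hym (-((v.length + 1 : ℕ) : ℤ)) ?_ ?_
    · rw [abs_neg, Nat.abs_cast]
      exact_mod_cast (by omega : v.length + 1 ≤ K)
    · show y = (S.nx ^ (-((v.length + 1 : ℕ) : ℤ))) d
      rw [zpow_neg, zpow_natCast]
      nth_rewrite 1 [← hv]
      exact (Equiv.symm_apply_apply _ _).symm

private theorem pth_len {u v : List D} {y : D} (hx : x ∈ S.B) (hY : RchG (trn τ) [] S x (List.replicate τ.length .T) Y d)
    (hy : Far S x K y) (hw : Y.hw d = d :: (u ++ y :: v)) : K ≤ u.length ∧ K ≤ v.length := by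
  cases τ with
  | nil =>
    obtain ⟨rfl, rfl⟩ := hY
    exact pth_word0 hx hy hw
  | cons c τ =>
    obtain ⟨h1, h2, h3⟩ := pth_inv (τ := c :: τ) τ.length hY
    exact pth_word (rchg_sub hY) h2 h1 h3 hy hw

private theorem pth_df {S' : Part D} {u : List D} {a : ℕ} (hf : S.DiscFill S' u a) : S.Sub S' := by
  rcases hf with ⟨_, _, rfl⟩ | ⟨_, V, _, hf⟩
  · exact sub_refl _
  · exact hf.sub

private theorem pth_glue {d y : D} (hx : d ∈ S.B) (hy : y ∈ S.B) {u v : List D}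
    (hw : S.hw d = d :: (u ++ y :: v)) {m : List D} {a : ℕ} (hf : (S.glue d y hx hy).DiscFill Z m a) :
    Z.a d = y := by
  have hn := S.hw_nodup hx
  rw [hw, List.nodup_cons] at hn
  have hxy : y ≠ d := by
    rintro rfl
    apply hn.1
    rw [List.mem_append, List.mem_cons]
    exact Or.inr (Or.inl rfl)
  have h1 : (S.glue d y hx hy).a d = y := by
    show (S.a * Equiv.swap d y) d = y
    rw [Equiv.Perm.mul_apply, Equiv.swap_apply_left, hy.2]
  have h2 : (S.glue d y hx hy).a d ≠ d := by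
    rw [h1]
    exact hxy
  rw [(pth_df hf).2 d h2, h1]

theorem path_new (hY : RchG (trn τ) [] S x (List.replicate τ.length .T) Y d) : (τ = [] ∧ Y = S ∧ d = x) ∨ d ∈ Y.R \ S.R := by
  cases τ with
  | nil => exact Or.inl ⟨rfl, hY.1, hY.2⟩
  | cons c τ =>
    right
    obtain ⟨h1, h2, -⟩ := pth_inv (τ := c :: τ) τ.length hY
    exact ⟨h2.1, h1⟩

theorem path_far (hx : x ∈ S.B) (hK : 2 * K + 1 < S.per x) (hY : RchG (trn τ) [] S x (List.replicate τ.length .T) Y d)
    (hy : Far S x K y) (hst : Y.St d s Z z) (hya : Z.a d = y) : ∃ k a, (s = .L k a ∨ s = .R k a) ∧ K ≤ k := by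
  have hs : S.Sub Y := rchg_sub hY
  cases s with
  | T =>
    exfalso
    obtain ⟨t0, t1, t2, hd, h0, h1, h2, h01, h12, h20, rfl, rfl⟩ := hst
    have h3 : (Y.face d t0 z t2 hd h0 h1 h2 h01 h12 h20).a d = t0 := by
      show (Y.a * Equiv.swap d t0) d = t0
      rw [Equiv.Perm.mul_apply, Equiv.swap_apply_left]
      exact Y.af t0 (not_not.1 h0)
    rw [h3] at hya
    rw [hya] at h0
    exact h0 (hs.R_sub hy.1.1)
  | L k a =>
    obtain ⟨y', u, v, w, hd, hy', hw, hk, hu, hf⟩ := hst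
    have h1 := pth_glue hd hy' hw hf
    have h2 : y' = y := h1.symm.trans hya
    subst h2
    refine ⟨k, a, Or.inl rfl, ?_⟩
    rw [← hk]
    exact (pth_len hx hY hy hw).2
  | R k a =>
    obtain ⟨y', u, v, w, hd, hy', hw, hk, hv, hf⟩ := hst
    have h1 := pth_glue hd hy' hw hf
    have h2 : y' = y := h1.symm.trans hya
    subst h2
    refine ⟨k, a, Or.inr rfl, ?_⟩
    rw [← hk]
    exact (pth_len hx hY hy hw).1

end Part
end SYS
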