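import Pool.Agent.SYS.PX.Spm
import Pool.Agent.SYS.PX.Pth

/-!
# SYS-PX-Abs1: ends in which a far boundary dart is glued at the end of a dual path
-/

namespace SYS
namespace Part

open Classical SST Num

variable {n κ : ℕ} {l : List (Fin (6 * n))} {p : ℕ} {P : List ℕ} {F : ℕ} {S : Part (Fin (6 * n))} {x : Fin (6 * n)}
  {b : Part (Fin (6 * n)) → Option (Fin (6 * n))}

/-- facts about an end of the block -/
private theorem ab_facts (hS : S.Typ (x :: l) (p :: P) F κ) {q : List Stp × Part (Fin (6 * n)) × Fin (6 * n)}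
    (hq : BEnd b S x q) {T : Tri (Fin (6 * n))} (hT : T ∈ q.2.1.Ext κ) (hc : q.2.1.HConn T) :
    Tgt T q.2.1 ∧ S.HConn T ∧ S.Hu q.2.1 x := by
  obtain ⟨hr, hb⟩ := hq
  obtain ⟨_, F', _, hT'⟩ := br_typ hS hr
  have hxB : x ∈ S.B := hS.hl.1 x List.mem_cons_self
  have hSc : S.HConn T := rchg_hconn (br_rchg (h := []) hr) hT.2 hc
  exact ⟨⟨hT.2, hc, ⟨q.2.2, hT'.hl.1 _ List.mem_cons_self⟩⟩, hSc, br_hu hxB hr⟩

private theorem ab_fib {α β : Type*} [DecidableEq β] (s : Finset α) (φ : α → β) (f : α → ℝ) (g : β → ℝ)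
    (h : ∀ i ∈ s.image φ, ∑ a ∈ s with φ a = i, f a ≤ g i) : ∑ a ∈ s, f a ≤ ∑ i ∈ s.image φ, g i := by
  rw [← Finset.sum_fiberwise_of_maps_to (g := φ) (t := s.image φ) (fun a ha => Finset.mem_image_of_mem φ ha)]
  exact Finset.sum_le_sum h

private def ab_c : Stp → ℕ × ℕ
  | .T => (0, 0)
  | .L k a => (k, a)
  | .R k a => (k, a)

private theorem ab_stp {X : ℝ} {K : ℕ} {t : ℝ} (ht : ∀ G : Finset (ℕ × ℕ), (∀ c ∈ G, K ≤ c.1) → ∑ c ∈ G, qq X c.1 c.2 ≤ t)
    (G : Finset Stp) (hG : ∀ s ∈ G, ∃ k a, (s = .L k a ∨ s = .R k a) ∧ K ≤ k) :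
    ∑ s ∈ G, s.wt (AA X) (qq X) ≤ 2 * t := by
  rw [← Finset.sum_filter_add_sum_filter_not G fun s => ∃ k a, s = .L k a]
  have h1 : ∑ s ∈ G with (∃ k a, s = .L k a), s.wt (AA X) (qq X) ≤ t := by
    have e1 : ∑ s ∈ G with (∃ k a, s = .L k a), s.wt (AA X) (qq X) =
        ∑ c ∈ (G.filter fun s => ∃ k a, s = .L k a).image ab_c, qq X c.1 c.2 := by
      rw [Finset.sum_image]
      · refine Finset.sum_congr rfl fun s hs => ?_
        obtain ⟨k, a, rfl⟩ := (Finset.mem_filter.1 hs).2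
        rfl
      · intro s hs s' hs' h
        obtain ⟨k, a, rfl⟩ := (Finset.mem_filter.1 (Finset.mem_coe.1 hs)).2
        obtain ⟨k', a', rfl⟩ := (Finset.mem_filter.1 (Finset.mem_coe.1 hs')).2
        have h2 : (k, a) = (k', a') := h
        rw [Prod.mk.injEq] at h2
        rw [h2.1, h2.2]
    rw [e1]
    refine ht _ fun c hc => ?_
    obtain ⟨s, hs, rfl⟩ := Finset.mem_image.1 hc
    obtain ⟨k, a, h2, h3⟩ := hG s (Finset.mem_filter.1 hs).1
    rcases h2 with rfl | rfl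
    · exact h3
    · exact h3
  have h2 : ∑ s ∈ G with ¬ (∃ k a, s = .L k a), s.wt (AA X) (qq X) ≤ t := by
    have hR : ∀ s ∈ G.filter (fun s => ¬ ∃ k a, s = .L k a), ∃ k a, s = .R k a := by
      intro s hs
      rw [Finset.mem_filter] at hs
      obtain ⟨k, a, h2 | h2, -⟩ := hG s hs.1
      · exact absurd ⟨k, a, h2⟩ hs.2
      · exact ⟨k, a, h2⟩
    have e1 : ∑ s ∈ G with ¬ (∃ k a, s = .L k a), s.wt (AA X) (qq X) =
        ∑ c ∈ (G.filter fun s => ¬ ∃ k a, s = .L k a).image ab_c, qq X c.1 c.2 := by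
      rw [Finset.sum_image]
      · refine Finset.sum_congr rfl fun s hs => ?_
        obtain ⟨k, a, rfl⟩ := hR s hs
        rfl
      · intro s hs s' hs' h
        obtain ⟨k, a, rfl⟩ := hR s (Finset.mem_coe.1 hs)
        obtain ⟨k', a', rfl⟩ := hR s' (Finset.mem_coe.1 hs')
        have h2 : (k, a) = (k', a') := h
        rw [Prod.mk.injEq] at h2
        rw [h2.1, h2.2]
    rw [e1]
    refine ht _ fun c hc => ?_
    obtain ⟨s, hs, rfl⟩ := Finset.mem_image.1 hc
    obtain ⟨k, a, h2, h3⟩ := hG s (Finset.mem_filter.1 hs).1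
    rcases h2 with rfl | rfl
    · exact h3
    · exact h3
  linarith

private theorem ab_card (R : ℕ) (J : Finset (List Bool)) (hJ : ∀ τ ∈ J, τ.length ≤ R) : J.card ≤ 2 ^ (R + 1) := by
  have h1 : J ⊆ (Finset.range (R + 1)).biUnion fun j => (Finset.univ : Finset (Fin j → Bool)).image List.ofFn := by
    intro τ hτ
    rw [Finset.mem_biUnion]
    refine ⟨τ.length, Finset.mem_range.2 (by have := hJ τ hτ; omega), ?_⟩
    rw [Finset.mem_image]
    exact ⟨τ.get, Finset.mem_univ _, List.ofFn_get τ⟩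
  have h2 : ∀ m : ℕ, ∑ j ∈ Finset.range m, 2 ^ j + 1 = 2 ^ m := by
    intro m
    induction m with
    | zero => rfl
    | succ m ih =>
      rw [Finset.sum_range_succ, pow_succ]
      omega
  have h3 : ∀ j ∈ Finset.range (R + 1), ((Finset.univ : Finset (Fin j → Bool)).image List.ofFn).card ≤ 2 ^ j := by
    intro j _
    refine Finset.card_image_le.trans ?_
    rw [Finset.card_univ, Fintype.card_fun, Fintype.card_bool, Fintype.card_fin]
  have h4 := h2 (R + 1)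
  calc J.card ≤ _ := Finset.card_le_card h1
    _ ≤ _ := Finset.card_biUnion_le
    _ ≤ ∑ j ∈ Finset.range (R + 1), 2 ^ j := Finset.sum_le_sum h3
    _ ≤ 2 ^ (R + 1) := by omega

theorem abs1 {X : ℝ} (hX : 0 < X) (hS : S.Typ (x :: l) (p :: P) F κ) (hM : Mon b S)
    (Q : Finset (List Stp × Part (Fin (6 * n)) × Fin (6 * n))) (hQ : ∀ q ∈ Q, BEnd b S x q)
    (hQT : ∀ q ∈ Q, ∃ T ∈ q.2.1.Ext κ, q.2.1.HConn T) {R K : ℕ} (hK : 2 * K + 1 < p)
    (hq : ∀ q ∈ Q, ∃ τ : List Bool, τ.length ≤ R ∧ ∃ (Y : Part (Fin (6 * n))) (d y : Fin (6 * n)),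
      RchG (trn τ) [] S x (List.replicate τ.length .T) Y d ∧ Y.Sub q.2.1 ∧ Far S x K y ∧ q.2.1.a d = y) {t : ℝ}
    (ht : ∀ G : Finset (ℕ × ℕ), (∀ c ∈ G, K ≤ c.1) → ∑ c ∈ G, qq X c.1 c.2 ≤ t) :
    ∑ q ∈ Q, nwt X F q.1 ≤ 2 ^ (R + 2) * t := by
  have hxB : x ∈ S.B := hS.hl.1 x List.mem_cons_self
  have hpx : S.per x = p := by
    have h1 := hS.per
    rw [List.map_cons, List.cons.injEq] at h1
    exact h1.1
  have hA : 0 < AA X := by
    have := AA_gt X
    linarith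
  have hA1 : AA X ≤ 1 := (AA_lt X).le
  have ht0 : 0 ≤ t := by
    have := ht ∅ (fun c hc => absurd hc (Finset.notMem_empty c))
    rwa [Finset.sum_empty] at this
  have : Nonempty (List Bool × Stp × Part (Fin (6 * n)) × Fin (6 * n)) := ⟨([], .T, S, x)⟩
  have hex : ∀ q ∈ Q, ∃ i : List Bool × Stp × Part (Fin (6 * n)) × Fin (6 * n), i.1.length ≤ R ∧
      (∃ k a, (i.2.1 = .L k a ∨ i.2.1 = .R k a) ∧ K ≤ k) ∧
      RchG (trn i.1) [] S x (List.replicate i.1.length .T ++ [i.2.1]) i.2.2.1 i.2.2.2 ∧ i.2.2.1.Sub q.2.1 := by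
    intro q hqQ
    obtain ⟨τ, hτ, Y, d, y, hY, hYs, hfar, hdy⟩ := hq q hqQ
    obtain ⟨T, hT, hc⟩ := hQT q hqQ
    obtain ⟨hTgt, hSc, hhu⟩ := ab_facts hS (hQ q hqQ) hT hc
    obtain ⟨_, FY, hFY, hYT⟩ := rchg_typ (trn_rul τ) hS hY
    have hdB : d ∈ Y.B := hYT.hl.1 d List.mem_cons_self
    have hyd : y ≠ d := by
      rcases path_new hY with ⟨_, _, hdx⟩ | hdR
      · intro h
        refine hfar.2.2 0 (by simp) ?_
        rw [h, hdx]
        rfl
      · intro h
        apply hdR.2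
        rw [← h]
        exact hfar.1.1
    have hdX : d ∉ q.2.1.B := by
      intro h
      apply hyd
      rw [← hdy]
      exact h.2
    have hIn : In T κ l P q.2.1 Y d :=
      ⟨⟨_, FY, hYT⟩, rchg_fwd hY (sub_le hYs hT.2) hSc, hYs, hu_rchg (trn_rul τ) hS hY hhu⟩
    obtain ⟨s, Y', z, hst, hIn'⟩ := el hT.1 hTgt hIn hdB (Equiv.Perm.SameCycle.refl _ _) hdX
    have hya : Y'.a d = y := by
      rw [← hdy]
      exact (hIn'.sub.2 d (st_strict hst).2).symm
    obtain ⟨k, a, hs, hk⟩ := path_far hxB (by rw [hpx]; exact hK) hY hfar hst hya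
    refine ⟨(τ, s, Y', trn τ ([] ++ List.replicate τ.length .T ++ [s]) Y' z), hτ, ⟨k, a, hs, hk⟩, ?_, hIn'.sub⟩
    exact rchg_append.2 ⟨Y, d, hY, Y', z, hst, rfl, rfl⟩
  choose! φ hφ using hex
  have s1 : ∑ q ∈ Q, nwt X F q.1 ≤ ∑ i ∈ Q.image φ, nwt X F (List.replicate i.1.length .T ++ [i.2.1]) := by
    refine ab_fib Q φ _ _ fun i hi => ?_
    obtain ⟨q0, hq0, rfl⟩ := Finset.mem_image.1 hi
    refine spm hX hS hM _ (fun q hq' => hQ q (Finset.mem_filter.1 hq').1) (fun q hq' => hQT q (Finset.mem_filter.1 hq').1)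
      (trn_rul (φ q0).1) (hφ q0 hq0).2.2.1 fun q hq' => ?_
    rw [Finset.mem_filter] at hq'
    rw [← hq'.2]
    exact (hφ q hq'.1).2.2.2
  have s2 : ∑ i ∈ Q.image φ, nwt X F (List.replicate i.1.length .T ++ [i.2.1]) ≤
      ∑ j ∈ (Q.image φ).image (fun i => (i.1, i.2.1)), j.2.wt (AA X) (qq X) := by
    refine ab_fib (Q.image φ) (fun i => (i.1, i.2.1)) _ _ fun j hj => ?_
    obtain ⟨i0, hi0, rfl⟩ := Finset.mem_image.1 hj
    obtain ⟨q0, hq0, rfl⟩ := Finset.mem_image.1 hi0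
    obtain ⟨τ, hτ⟩ : ∃ τ, τ = (φ q0).1 := ⟨_, rfl⟩
    obtain ⟨s, hs⟩ : ∃ s, s = (φ q0).2.1 := ⟨_, rfl⟩
    rw [← hτ, ← hs]
    show _ ≤ s.wt (AA X) (qq X)
    obtain ⟨-, -, hr0, -⟩ := hφ q0 hq0
    rw [← hτ, ← hs] at hr0
    obtain ⟨hok, F', hF', -⟩ := rchg_typ (trn_rul τ) hS hr0
    have hword := nwt_word X (h := []) (trn_rul τ) hS hok (by omega)
    have e1 : ∀ i ∈ (Q.image φ).filter (fun i => (i.1, i.2.1) = (τ, s)),
        nwt X F (List.replicate i.1.length .T ++ [i.2.1]) = nwt X F (List.replicate τ.length .T ++ [s]) := by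
      intro i hi
      have h1 := (Finset.mem_filter.1 hi).2
      rw [Prod.mk.injEq] at h1
      rw [h1.1, h1.2]
    rw [Finset.sum_congr rfl e1, Finset.sum_const, nsmul_eq_mul]
    have h2 : ((Q.image φ).filter (fun i => (i.1, i.2.1) = (τ, s))).card ≤
        {q : Part (Fin (6 * n)) × Fin (6 * n) | RchG (trn τ) [] S x (List.replicate τ.length .T ++ [s]) q.1 q.2}.ncard := by
      have h3 : (((Q.image φ).filter (fun i => (i.1, i.2.1) = (τ, s))).image fun i => (i.2.2.1, i.2.2.2)).card =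
          ((Q.image φ).filter (fun i => (i.1, i.2.1) = (τ, s))).card := by
        refine Finset.card_image_of_injOn ?_
        intro i hi i' hi' h4
        rw [Finset.mem_coe, Finset.mem_filter, Prod.mk.injEq] at hi hi'
        have h4' : (i.2.2.1, i.2.2.2) = (i'.2.2.1, i'.2.2.2) := h4
        rw [Prod.mk.injEq] at h4'
        exact Prod.ext (hi.2.1.trans hi'.2.1.symm) (Prod.ext (hi.2.2.trans hi'.2.2.symm) (Prod.ext h4'.1 h4'.2))
      rw [← h3, ← Set.ncard_coe_finset]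
      refine Set.ncard_le_ncard ?_ (Set.toFinite _)
      intro c hc
      rw [Finset.mem_coe, Finset.mem_image] at hc
      obtain ⟨i, hi, rfl⟩ := hc
      rw [Finset.mem_filter, Prod.mk.injEq] at hi
      obtain ⟨q, hq', rfl⟩ := Finset.mem_image.1 hi.1
      have h5 := (hφ q hq').2.2.1
      rw [hi.2.1, hi.2.2] at h5
      exact h5
    have h6 : 0 ≤ nwt X F (List.replicate τ.length .T ++ [s]) := nwt_nonneg hX F _
    have h7 : PRW X (List.replicate τ.length .T ++ [s]) ≤ s.wt (AA X) (qq X) := by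
      unfold PRW
      rw [wwt_append, wwt_cons, wwt_nil, mul_one]
      have h8 : wwt (AA X) (qq X) (List.replicate τ.length .T) ≤ 1 := by
        generalize τ.length = m
        induction m with
        | zero => exact le_of_eq (wwt_nil _ _)
        | succ m ih =>
          rw [List.replicate_succ, wwt_cons]
          show AA X * _ ≤ 1
          calc AA X * wwt (AA X) (qq X) (List.replicate m .T) ≤ AA X * 1 := mul_le_mul_of_nonneg_left ih hA.le
            _ ≤ 1 := by linarith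
      have h9 : 0 ≤ s.wt (AA X) (qq X) := by
        refine Stp.wt_nonneg hA.le (fun k a => ?_) s
        unfold qq
        exact div_nonneg (mul_nonneg (pow_nonneg (yy_pos X).le _) (W_nonneg k a)) (pow_nonneg hA.le _)
      calc _ ≤ 1 * s.wt (AA X) (qq X) := mul_le_mul_of_nonneg_right h8 h9
        _ = _ := one_mul _
    refine le_trans ?_ h7
    rw [← hword]
    exact mul_le_mul_of_nonneg_right (by exact_mod_cast h2) h6
  have s3 : ∑ j ∈ (Q.image φ).image (fun i => (i.1, i.2.1)), j.2.wt (AA X) (qq X) ≤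
      ∑ τ ∈ ((Q.image φ).image (fun i => (i.1, i.2.1))).image Prod.fst, 2 * t := by
    refine ab_fib _ Prod.fst _ _ fun τ _ => ?_
    have e1 : ∑ j ∈ (Q.image φ).image (fun i => (i.1, i.2.1)) with j.1 = τ, j.2.wt (AA X) (qq X) =
        ∑ s ∈ (((Q.image φ).image (fun i => (i.1, i.2.1))).filter fun j => j.1 = τ).image Prod.snd,
          s.wt (AA X) (qq X) := by
      rw [Finset.sum_image]
      intro j hj j' hj' h
      rw [Finset.mem_coe, Finset.mem_filter] at hj hj'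
      exact Prod.ext (hj.2.trans hj'.2.symm) h
    rw [e1]
    refine ab_stp ht _ fun s hs => ?_
    obtain ⟨j, hj, rfl⟩ := Finset.mem_image.1 hs
    obtain ⟨i, hi, rfl⟩ := Finset.mem_image.1 (Finset.mem_filter.1 hj).1
    obtain ⟨q, hq', rfl⟩ := Finset.mem_image.1 hi
    exact (hφ q hq').2.1
  have s4 : ((((Q.image φ).image (fun i => (i.1, i.2.1))).image Prod.fst).card : ℝ) ≤ 2 ^ (R + 1) := by
    have h1 := ab_card R (((Q.image φ).image (fun i => (i.1, i.2.1))).image Prod.fst) ?_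
    · exact_mod_cast h1
    · intro τ hτ
      obtain ⟨j, hj, rfl⟩ := Finset.mem_image.1 hτ
      obtain ⟨i, hi, rfl⟩ := Finset.mem_image.1 hj
      obtain ⟨q, hq', rfl⟩ := Finset.mem_image.1 hi
      exact (hφ q hq').1
  rw [Finset.sum_const, nsmul_eq_mul] at s3
  calc ∑ q ∈ Q, nwt X F q.1 ≤ _ := s1.trans (s2.trans s3)
    _ ≤ 2 ^ (R + 1) * (2 * t) := mul_le_mul_of_nonneg_right s4 (by linarith)
    _ = 2 ^ (R + 2) * t := by ring

end Part
end SYS
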