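import Pool.Agent.SYS.Reg.Ind
import Pool.Agent.SYS.Reg.Loc
import Pool.Agent.SYS.Reg.TreeU

/-!
# SYS-PX-Defs: runs of a block

`b : Part D → Option D` = the rule of a block with its base and its gate fixed: `b Z` = the next gate, `none` = the block is
complete.  `BR b Z z w Z' z'` = a run with planar steps, word `w`; `z`, `z'` = reference darts (any boundary dart of the hole of
the run).  `BEnd b S x q` = `q` is an end of the block started at `S`.  `Mon b S` = the only property of the rule used by the
exchange arguments.  `Hu S X' x` = the holes of `S` other than the hole of `x` are not touched by `X'`.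
`Far S x K e` = `e` is a boundary dart of the hole of `x` at distance `> K` from `x`, `Abs S x K X'` = some such dart is absorbed.
-/

namespace SYS
namespace Part

open Classical SST

variable {D : Type} [Finite D]

/-- Runs. -/
def BR (b : Part D → Option D) : Part D → D → List Stp → Part D → D → Prop
  | Z, z, [], Z', z' => Z' = Z ∧ z' = z
  | Z, z, s :: w, Z', z' => ∃ (d : D) (Z₁ : Part D) (z₁ : D), b Z = some d ∧ d ∈ Z.B ∧ Z.s.SameCycle z d ∧
      Z.St d s Z₁ z₁ ∧ BR b Z₁ z₁ w Z' z'

/-- Ends of the block. -/
def BEnd (b : Part D → Option D) (S : Part D) (x : D) (q : List Stp × Part D × D) : Prop :=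
  BR b S x q.1 q.2.1 q.2.2 ∧ b q.2.1 = none

/-- The rule of the block as a rule of `Reg/RchG`. -/
noncomputable def rb (b : Part D → Option D) (_ : List Stp) (Z : Part D) (z : D) : D :=
  if h : ∃ d, b Z = some d ∧ d ∈ Z.B ∧ Z.s.SameCycle z d then h.choose else z

/-- The gates of the block are inner darts of its ends. -/
def Mon (b : Part D → Option D) (S : Part D) : Prop :=
  ∀ Z X' : Part D, S.Sub Z → Z.Sub X' → b X' = none → ∀ d, b Z = some d → d ∈ Z.B ∧ d ∉ X'.B

/-- The other holes are not touched. -/
def Hu (S X' : Part D) (x : D) : Prop := ∀ e ∈ S.B, ¬ S.s.SameCycle x e → e ∈ X'.B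

/-- `e` is in the hole of `x`, at distance more than `K` from `x`. -/
def Far (S : Part D) (x : D) (K : ℕ) (e : D) : Prop :=
  e ∈ S.B ∧ S.s.SameCycle x e ∧ ∀ m : ℤ, |m| ≤ K → e ≠ S.bs x m

/-- A far boundary dart is absorbed. -/
def Abs (S : Part D) (x : D) (K : ℕ) (X' : Part D) : Prop := ∃ e, Far S x K e ∧ e ∉ X'.B

/-- Number of exits. -/
noncomputable def exn (S X' : Part D) : ℕ := (X'.B \ S.B).ncard

/-- Local runs of the block. -/
def LBR (b : Part D → Option D) (S : Part D) (x : D) (W : ℕ) : Part D → D → List Stp → Part D → D → Prop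
  | Z, z, [], Z', z' => Z' = Z ∧ z' = z
  | Z, _, s :: w, Z', z' => ∃ (d : D) (Z₁ : Part D) (z₁ : D), b Z = some d ∧ LSt S Z x W d s Z₁ z₁ ∧ LBR b S x W Z₁ z₁ w Z' z'

/-- Rule of the exploration along a dual path with the turns `τ`: after a step `T` the next gate is `z` or its successor. -/
noncomputable def trn (τ : List Bool) (h : List Stp) (Z : Part D) (z : D) : D :=
  if τ.getD (h.length - 1) true then z else Z.nx z

/-- Every gate of a run which is continued to an end is reached by a dual path inside the end. -/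
def PathP (b : Part D → Option D) (S : Part D) (x : D) (R : ℕ) : Prop :=
  ∀ (w₁ w₂ : List Stp) (Z X' : Part D) (z d z' : D), BR b S x w₁ Z z → b Z = some d → BR b Z z w₂ X' z' → b X' = none →
    ∃ τ : List Bool, τ.length ≤ R ∧ ∃ Y, RchG (trn τ) [] S x (List.replicate τ.length .T) Y d ∧ Y.Sub X'

/-- The rules `b` over `S, x` and `b'` over `T, y` agree under isomorphisms of the new parts. -/
def IB {E : Type} [Finite E] (b : Part D → Option D) (b' : Part E → Option E) (S : Part D) (x : D) (T : Part E) (y : E)
    (W : ℕ) : Prop :=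
  ∀ (S₁ : Part D) (T₁ : Part E) (θ : D → E), Sim S S₁ x T T₁ y W θ →
    (b S₁ = none → b' T₁ = none) ∧ ∀ d, b S₁ = some d → d ∈ NW S S₁ x W ∧ b' T₁ = some (θ d)

end Part
end SYS
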