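import Pool.Agent.SYS.PX.HcM
import Pool.Agent.SYS.PX.Br

/-!
# SYS-PX-El: the exchange lemma

`T` has the least possible genus `κ` over `X'` (the hidden part of `X'` is planar), so all peeling steps towards `X'` are planar.
`Tgt T X'`: `X'` is a region of `T` with a hole.  `In T κ l P X' Z z`: `Z` is a region between, `z` a dart of the active hole.

At a gate `d` which is absorbed by `X'`: either a new face is revealed, or `d` is glued inside its hole;
then the hidden part is disconnected (otherwise the genus of `T` would be too large), `X'` has its hidden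
part on one side, and the other side is a disc for the same reason.  (The first lemmas are copied from
`Lib/Alt.lean`.)
-/

namespace SYS
namespace Part

open Classical SST

/-- `X'` is a region of `T` with a hole, the hidden part is connected. -/
structure Tgt {D : Type} [Finite D] (T : Tri D) (X' : Part D) : Prop where
  le : X'.Le T
  hc : X'.HConn T
  ne : X'.B.Nonempty

/-- `Z`, `z` is a region between (same type, the other holes untouched). -/
structure In {D : Type} [Finite D] (T : Tri D) (κ : ℕ) (l : List D) (P : List ℕ) (X' Z : Part D) (z : D) : Prop where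
  typ : ∃ p F, Z.Typ (z :: l) (p :: P) F κ
  hc : Z.HConn T
  sub : Z.Sub X'
  hu : Z.Hu X' z

section
variable {D : Type} [Finite D]

omit [Finite D] in
private theorem alt_X_mono {S S' : Part D} (h : S.Sub S') {d : D} (hd : d ∈ S'.X) : d ∈ S.X := by
  by_contra hn
  have h1 : d ∈ S.R := by
    by_contra h1
    exact hn (Or.inl h1)
  have h2 : d ∉ S.B := fun h2 => hn (Or.inr h2)
  have h3 : S.a d ≠ d := fun h3 => h2 ⟨h1, h3⟩
  have h4 : S'.a d = S.a d := h.2 d h3
  rcases hd with hd | hd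
  · exact hd (h.R_sub h1)
  · exact h3 (h4 ▸ hd.2)

private theorem alt_hun {S : Part D} {z : D} (hz : z ∈ S.B) : S.HUn {d | d ∈ S.hw z} := by
  constructor
  · intro d hd
    exact ((S.mem_hw hz).1 hd).1
  · intro d hd e he hde
    exact (S.mem_hw hz).2 ⟨he, ((S.mem_hw hz).1 hd).2.trans hde⟩

private theorem alt_self {S : Part D} {z : D} (hz : z ∈ S.B) : z ∈ S.hw z :=
  (S.mem_hw hz).2 ⟨hz, Equiv.Perm.SameCycle.refl _ _⟩

private theorem alt_word {S : Part D} {x y : D} (hx : x ∈ S.B) {u v : List D} (h : S.hw x = x :: (u ++ y :: v)) :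
    x ≠ y ∧ S.s.SameCycle x y ∧ (∀ z ∈ u, z ∉ v ∧ z ≠ x ∧ z ≠ y ∧ z ∈ S.B) ∧ (∀ z ∈ v, z ∉ u ∧ z ≠ x ∧ z ≠ y ∧ z ∈ S.B) ∧
      (∀ z ∈ S.B, S.s.SameCycle x z → z = x ∨ z ∈ u ∨ z = y ∨ z ∈ v) := by
  have hn := S.hw_nodup hx
  have hm := fun d => S.mem_hw (d := d) hx
  rw [h] at hn hm
  have h1 := List.nodup_cons.1 hn
  have h2 := List.nodup_append.1 h1.2
  have h3 := List.nodup_cons.1 h2.2.1
  have hd := List.disjoint_of_nodup_append h1.2
  refine ⟨?_, ?_, ?_, ?_, ?_⟩
  · rintro rfl
    exact h1.1 (by simp)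
  · exact ((hm y).1 (by simp)).2
  · intro z hz
    refine ⟨fun h4 => hd hz (List.mem_cons_of_mem _ h4), ?_, ?_, ((hm z).1 (by simp [hz])).1⟩
    · rintro rfl
      exact h1.1 (by simp [hz])
    · rintro rfl
      exact hd hz List.mem_cons_self
  · intro z hz
    refine ⟨fun h4 => hd h4 (List.mem_cons_of_mem _ hz), ?_, ?_, ((hm z).1 (by simp [hz])).1⟩
    · rintro rfl
      exact h1.1 (by simp [hz])
    · rintro rfl
      exact h3.1 hz
  · intro z hz hxz
    have h4 := (hm z).2 ⟨hz, hxz⟩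
    simp only [List.mem_cons, List.mem_append] at h4
    tauto

/-- the setting: `x` is glued to `y` inside its hole -/
private structure AltS (S : Part D) (T : Tri D) (x y : D) (u v : List D) : Prop where
  le : S.Le T
  hx : x ∈ S.B
  hy : y ∈ S.B
  hT : T.a x = y
  hw : S.hw x = x :: (u ++ y :: v)

private theorem alt_leg {S : Part D} {T : Tri D} {x y : D} {u v : List D} (h : AltS S T x y u v) :
    (S.glue x y h.hx h.hy).Le T := glue_le S h.hx h.hy h.le h.hT

private theorem alt_B {S : Part D} {T : Tri D} {x y : D} {u v : List D} (h : AltS S T x y u v) :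
    (S.glue x y h.hx h.hy).B = S.B \ {x, y} := glue_B S h.hx h.hy (alt_word h.hx h.hw).1

private theorem alt_u {S : Part D} {T : Tri D} {x y : D} {u v : List D} (h : AltS S T x y u v) {z : D} (hz : z ∈ u) :
    z ∈ (S.glue x y h.hx h.hy).B ∧ ∃ z', u.head? = some z' ∧ z' ∈ (S.glue x y h.hx h.hy).B ∧
      (S.glue x y h.hx h.hy).hw z' = u ∧ (S.glue x y h.hx h.hy).Hc T z' z := by
  cases u with
  | nil => exact absurd hz List.not_mem_nil
  | cons z' w =>
    have h1 := hw_glue_split_left S h.hx h.hy h.hw rfl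
    have h2 := (alt_word h.hx h.hw).2.2.1
    have h3 : ∀ d ∈ z' :: w, d ∈ (S.glue x y h.hx h.hy).B := by
      intro d hd
      rw [alt_B h]
      obtain ⟨-, h4, h5, h6⟩ := h2 d hd
      refine ⟨h6, ?_⟩
      rintro (h7 | h7)
      · exact h4 h7
      · exact h5 h7
    refine ⟨h3 z hz, z', rfl, h3 z' List.mem_cons_self, h1, ?_⟩
    apply hc_hole (h3 z' List.mem_cons_self)
    rw [h1]
    exact hz

private theorem alt_v {S : Part D} {T : Tri D} {x y : D} {u v : List D} (h : AltS S T x y u v) {z : D} (hz : z ∈ v) :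
    z ∈ (S.glue x y h.hx h.hy).B ∧ ∃ z', v.head? = some z' ∧ z' ∈ (S.glue x y h.hx h.hy).B ∧
      (S.glue x y h.hx h.hy).hw z' = v ∧ (S.glue x y h.hx h.hy).Hc T z' z := by
  cases v with
  | nil => exact absurd hz List.not_mem_nil
  | cons z' w =>
    have h1 := hw_glue_split_right S h.hx h.hy h.hw rfl
    have h2 := (alt_word h.hx h.hw).2.2.2.1
    have h3 : ∀ d ∈ z' :: w, d ∈ (S.glue x y h.hx h.hy).B := by
      intro d hd
      rw [alt_B h]
      obtain ⟨-, h4, h5, h6⟩ := h2 d hd
      refine ⟨h6, ?_⟩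
      rintro (h7 | h7)
      · exact h4 h7
      · exact h5 h7
    refine ⟨h3 z hz, z', rfl, h3 z' List.mem_cons_self, h1, ?_⟩
    apply hc_hole (h3 z' List.mem_cons_self)
    rw [h1]
    exact hz

/-- if the hidden part of `S` is connected there are at most two components after the gluing -/
private theorem alt_hc {S : Part D} {T : Tri D} {x y : D} {u v : List D} (h : AltS S T x y u v) (hc : S.HConn T) {d e : D}
    (hd : d ∈ (S.glue x y h.hx h.hy).X) (he : e ∈ (S.glue x y h.hx h.hy).X) :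
    (S.glue x y h.hx h.hy).Hc T d e ∨
      ((∃ z ∈ u, (S.glue x y h.hx h.hy).Hc T z d) ∧ ∃ z ∈ v, (S.glue x y h.hx h.hy).Hc T z e) ∨
      ((∃ z ∈ v, (S.glue x y h.hx h.hy).Hc T z d) ∧ ∃ z ∈ u, (S.glue x y h.hx h.hy).Hc T z e) :=
  (hc_glue_split h.le h.hx h.hy h.hT h.hw hd he).1
    (hc d (alt_X_mono (glue_sub S h.hx h.hy) hd) e (alt_X_mono (glue_sub S h.hx h.hy) he))

/-- the hidden part after the filling of one side -/
private theorem alt_side {S : Part D} {T : Tri D} {x y : D} {u v : List D} (h : AltS S T x y u v) (hc : S.HConn T)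
    {zu zv : D} (hu : zu ∈ u) (hv : zv ∈ v) (hn : ¬ (S.glue x y h.hx h.hy).Hc T zu zv) {d : D}
    (hd : d ∈ (S.glue x y h.hx h.hy).X) : (S.glue x y h.hx h.hy).Hc T zu d ∨ (S.glue x y h.hx h.hy).Hc T zv d := by
  obtain ⟨h1, zu', h2, h3, h4, h5⟩ := alt_u h hu
  obtain ⟨h6, zv', h7, h8, h9, h10⟩ := alt_v h hv
  have hzu : zu ∈ (S.glue x y h.hx h.hy).X := Or.inr h1
  rcases alt_hc h hc hzu hd with h11 | ⟨-, z, hz, h11⟩ | ⟨⟨z, hz, h11⟩, -⟩
  · exact Or.inl h11
  · right
    obtain ⟨-, zv'', h12, -, -, h13⟩ := alt_v h hz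
    have : zv'' = zv' := by
      rw [h7] at h12
      exact (Option.some.inj h12).symm
    subst this
    exact hc_trans (hc_symm h10) (hc_trans h13 h11)
  · exfalso
    apply hn
    obtain ⟨-, zv'', h12, -, -, h13⟩ := alt_v h hz
    have : zv'' = zv' := by
      rw [h7] at h12
      exact (Option.some.inj h12).symm
    subst this
    exact hc_symm (hc_trans (hc_symm h10) (hc_trans h13 h11))

private theorem alt_hc_fill {S : Part D} {T : Tri D} (h : S.Le T) {z z' : D}
    (hz : ∀ d ∈ S.X, S.Hc T z d ∨ S.Hc T z' d) : (S.fill T h z).HConn T := by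
  intro d hd e he
  rw [hc_fill h z hd he]
  rw [X_fill] at hd he
  have h1 : S.Hc T z' d := by
    rcases hz d hd.1 with h1 | h1
    · exact absurd ⟨hd.1, h1⟩ hd.2
    · exact h1
  have h2 : S.Hc T z' e := by
    rcases hz e he.1 with h2 | h2
    · exact absurd ⟨he.1, h2⟩ he.2
    · exact h2
  exact hc_trans (hc_symm h1) h2

omit [Finite D] in
/-- a region between two others -/
private theorem el_sub_of {S S1 S' : Part D} {T : Tri D} {x y : D} (hs : S.Sub S') (h1 : S1.Le T) (hT : S'.Le T)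
    (hR : S1.R ⊆ S'.R) (ha : S1.a = S.a * Equiv.swap x y) (hxy : S'.a x = y) (hx : S.a x = x) (hy : S.a y = y) :
    S1.Sub S' := by
  refine ⟨fun d hd => ?_, fun d hd => ?_⟩
  · rw [← h1.1 d hd, hT.1 d (hR hd)]
  · by_cases hdx : d = x
    · subst hdx
      rw [ha, Equiv.Perm.mul_apply, Equiv.swap_apply_left, hy, hxy]
    · by_cases hdy : d = y
      · subst hdy
        rw [ha, Equiv.Perm.mul_apply, Equiv.swap_apply_right, hx, ← hxy, S'.aa]
      · rw [ha, Equiv.Perm.mul_apply, Equiv.swap_apply_of_ne_of_ne hdx hdy] at hd ⊢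
        exact hs.2 d hd

/-- both sides are empty: nothing else is hidden -/
private theorem el_nil {S : Part D} {T : Tri D} (hc : S.HConn T) {x y : D} (h : AltS S T x y [] []) :
    ∀ d ∈ S.X, d = x ∨ d = y := by
  obtain ⟨hxy, hsame, -, -, hall⟩ := alt_word h.hx h.hw
  have hyx : T.a y = x := by rw [← h.hT, T.aa]
  have hm : ∀ d, d ∈ ({x, y} : Set D) ↔ d ∈ S.B ∧ S.s.SameCycle x d := by
    intro d
    constructor
    · rintro (rfl | h1)
      · exact ⟨h.hx, Equiv.Perm.SameCycle.refl _ _⟩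
      · have h2 : d = y := h1
        rw [h2]
        exact ⟨h.hy, hsame⟩
    · rintro ⟨h1, h2⟩
      rcases hall d h1 h2 with h3 | h3 | h3 | h3
      · exact Or.inl h3
      · exact absurd h3 List.not_mem_nil
      · exact Or.inr h3
      · exact absurd h3 List.not_mem_nil
  intro d hd
  have h1 := hc x (Or.inr h.hx) d hd
  have h2 := hc_ind (S := S) (T := T) (fun d e => d ∈ ({x, y} : Set D) ↔ e ∈ ({x, y} : Set D))
    (fun _ => Iff.rfl) (fun _ _ h => h.symm) (fun _ _ _ h h' => h.trans h') ?_ ?_ ?_ h1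
  · exact h2.1 (Or.inl rfl)
  · intro e _
    constructor
    · rintro (rfl | h3)
      · exact Or.inr h.hT
      · have h4 : e = y := h3
        rw [h4, hyx]
        exact Or.inl rfl
    · rintro (h3 | h3)
      · right
        show e = y
        rw [← h.hT, ← h3, T.aa]
      · left
        show e = x
        have h4 : T.a e = y := h3
        rw [← hyx, ← h4, T.aa]
  · intro e he
    constructor
    · intro h3
      exact absurd (S.B_sub_R ((hm e).1 h3).1) he
    · intro h3
      exact absurd ((le_f_mem h.le e).1 (S.B_sub_R ((hm _).1 h3).1)) he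
  · intro e he
    have h3 := S.nx_pow_same he 1
    rw [pow_one] at h3
    rw [hm, hm]
    exact ⟨fun h4 => ⟨h3.1, h4.2.trans h3.2⟩, fun h4 => ⟨he, h4.2.trans h3.2.symm⟩⟩

/-- Euler relation of a filling of one hole -/
private theorem el_eul {S S' : Part D} {z : D} (hz : z ∈ S.B) {F V : ℕ}
    (h : S.FillBy S' {d | d ∈ S.B ∧ ∃ _ : Unit, S.s.SameCycle z d} F V) :
    ∃ g : ℕ, 2 * V + 4 * g + 2 = 4 + F + S.per z := by
  have h1 := fill_card S (ι := Unit) (fun _ => z) (fun _ => hz) (fun _ _ _ => rfl) F V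
  have h2 : {S' : Part D | S.FillBy S' {d | d ∈ S.B ∧ ∃ _ : Unit, S.s.SameCycle z d} F V}.ncard ≠ 0 := by
    rw [Ne, Set.ncard_eq_zero (Set.toFinite _)]
    intro h3
    have h4 : S' ∈ {S' : Part D | S.FillBy S' {d | d ∈ S.B ∧ ∃ _ : Unit, S.s.SameCycle z d} F V} := h
    rw [h3] at h4
    exact h4
  have h3 : SYS.mu (fun _ : Unit => S.per z) F V ≠ 0 := by
    intro h3
    rw [h3, mul_zero] at h1
    exact h2 (by exact_mod_cast h1)
  obtain ⟨g, hg⟩ := SYS.A.mu_euler (Or.inl ⟨()⟩) h3
  refine ⟨g, ?_⟩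
  simpa using hg

end

variable {n κ : ℕ} {T : Tri (Fin (6 * n))} {l : List (Fin (6 * n))} {P : List ℕ} {X' Z : Part (Fin (6 * n))}
  {d z : Fin (6 * n)}

theorem in_le (hX : Tgt T X') (h : In T κ l P X' Z z) : Z.Le T :=
  sub_le h.sub hX.le

/-- one of the two sides is swallowed -/
private theorem el_side {G : Part (Fin (6 * n))} {a b c : Fin (6 * n)} {pa F : ℕ} {Q : List ℕ} (hT : T ∈ Trn n κ)
    (hX : Tgt T X') (hle : G.Le T) (hs : G.Sub X') (hG : G.Typ (a :: b :: l) (pa :: Q) F (κ + 1))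
    (hn : ¬ G.Hc T a b) (hside : ∀ d ∈ G.X, G.Hc T a d ∨ G.Hc T b d) (hc : c ∈ X'.B) (hbc : G.Hc T b c)
    (hl : ∀ e ∈ l, e ∈ X'.B) (hcn : G.Cn a b) :
    ∃ F1, G.DiscFill (G.fill T hle a) (G.hw a) F1 ∧ (G.fill T hle a).Sub X' := by
  have haB : a ∈ G.B := hG.hl.1 a (by simp)
  have hbB : b ∈ G.B := hG.hl.1 b (by simp)
  -- the hidden part of `X'` is on the side of `b`
  have hb : ∀ e ∈ X'.X, G.Hc T b e := by
    intro e he
    exact hc_trans hbc (hc_mono hs hX.le (hX.hc c (Or.inr hc) e he))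
  have hna : ∀ e ∈ X'.X, ¬ G.Hc T a e := fun e he h1 => hn (hc_trans h1 (hc_symm (hb e he)))
  have hset : G.B ∩ G.HC T a = {d | d ∈ G.hw a} := by
    ext e
    constructor
    · rintro ⟨h1, h2⟩
      obtain ⟨e', he', hee⟩ := hG.hl.2.2 e h1
      have he'B := hG.hl.1 e' he'
      rcases List.mem_cons.1 he' with h3 | h3
      · subst h3
        exact (G.mem_hw he'B).2 ⟨h1, hee⟩
      · exfalso
        have h4 : G.Hc T a e' := hc_trans h2.2 (hc_symm (hc_hole he'B ((G.mem_hw he'B).2 ⟨h1, hee⟩)))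
        rcases List.mem_cons.1 h3 with h5 | h5
        · subst h5
          exact hn h4
        · exact hna e' (Or.inr (hl e' h5)) h4
    · intro h1
      have h2 := (G.mem_hw haB).1 h1
      exact ⟨h2.1, Or.inr h2.1, hc_hole haB h1⟩
  obtain ⟨F1, V, hf⟩ := fil_of_hc hle haB
  rw [hset] at hf
  have hset1 : ({d | d ∈ G.hw a} : Set (Fin (6 * n))) = {d | d ∈ G.B ∧ ∃ _ : Unit, G.s.SameCycle a d} := by
    ext e
    show e ∈ G.hw a ↔ _
    rw [G.mem_hw haB]
    exact ⟨fun h => ⟨h.1, (), h.2⟩, fun ⟨h1, _, h2⟩ => ⟨h1, h2⟩⟩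
  have hset2 : ({d | d ∈ G.hw a} : Set (Fin (6 * n))) = {d | d ∈ G.B ∧ ∃ e ∈ [a], G.s.SameCycle e d} := by
    ext e
    show e ∈ G.hw a ↔ _
    rw [G.mem_hw haB]
    constructor
    · rintro ⟨h1, h2⟩
      exact ⟨h1, a, List.mem_cons_self, h2⟩
    · rintro ⟨h1, e', h2, h3⟩
      rw [List.mem_singleton] at h2
      rw [h2] at h3
      exact ⟨h1, h3⟩
  obtain ⟨g, hg⟩ := el_eul haB (S' := G.fill T hle a) (F := F1) (V := V) (by rw [← hset1]; exact hf)
  have hpa : G.per a = pa := by
    have h1 := hG.per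
    rw [List.map_cons, List.cons_eq_cons] at h1
    exact h1.1
  have hvol : F1 ≤ F := by
    have h1 := hG.vol
    have h2 := hf.R
    have h3 := Set.ncard_le_card (G.fill T hle a).R
    omega
  obtain ⟨F2, rfl⟩ := Nat.exists_eq_add_of_le hvol
  have hcZ : (G.fill T hle a).HConn T := alt_hc_fill hle hside
  have hZt : (G.fill T hle a).Typ (b :: l) Q F2 (κ + g) := by
    refine typ_fill (l1 := [a]) (P1 := [pa]) (h := g) (V := V) (F1 := F1) (κ' := κ + 1) hG rfl
      (List.cons_ne_nil _ _) (List.cons_ne_nil _ _) (by rw [← hset2]; exact hf) ?_ ?_ (by omega)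
    · simp only [List.length_singleton, List.sum_singleton]
      rw [← hpa]
      omega
    · intro e he
      rw [List.mem_singleton] at he
      rw [he]
      exact ⟨b, List.mem_cons_self, hcn⟩
  have hg0 := typ_le hZt (T := T) (g := κ) ⟨hT, fill_le hle a⟩ hcZ
  have hg1 : g = 0 := by omega
  subst hg1
  refine ⟨F1, Or.inr ⟨List.ne_nil_of_mem (alt_self haB), V, ?_, hf⟩, ?_⟩
  · rw [G.hw_length haB]
    omega
  · have hle' := fill_le hle a
    have hR : (G.fill T hle a).R ⊆ X'.R := by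
      rw [fill_R]
      rintro e (he | he)
      · exact hs.R_sub he
      · by_contra h1
        exact hna e (Or.inl h1) he.2
    refine ⟨fun e he => ?_, fun e he => ?_⟩
    · exact (hX.le.1 e (hR he)).symm.trans (hle'.1 e he)
    · have h1 : X'.a e ≠ e := by
        by_cases h2 : e ∈ G.HC T a
        · intro h3
          refine hna e ?_ h2.2
          by_cases h4 : e ∈ X'.R
          · exact Or.inr ⟨h4, h3⟩
          · exact Or.inl h4
        · have h3 : e ∈ (G.fill T hle a).R := by
            by_contra h3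
            have h4 : (G.fill T hle a).f e = e := by
              by_contra h4
              exact h3 h4
            exact he ((G.fill T hle a).af e h4)
          have h4 : e ∈ G.R := by
            rw [fill_R] at h3
            rcases h3 with h3 | h3
            · exact h3
            · exact absurd h3 h2
          have h5 : e ∉ G.B := by
            intro h5
            have h6 : e ∈ (G.fill T hle a).B := by
              rw [fill_B]
              exact ⟨h5, h2⟩
            exact he h6.2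
          have h6 : G.a e ≠ e := fun h6 => h5 ⟨h4, h6⟩
          rw [hs.2 e h6]
          exact h6
      exact (hX.le.2 e h1).symm.trans (hle'.2 e he)

private theorem el_step (hT : T ∈ Trn n κ) (hX : Tgt T X') {p F : ℕ} (hZ : Z.Typ (d :: l) (p :: P) F κ)
    (hc : Z.HConn T) (hs : Z.Sub X') (hu : Z.Hu X' d) (hdX : d ∉ X'.B) :
    ∃ (s : Stp) (Z₁ : Part (Fin (6 * n))) (z₁ : Fin (6 * n)), Z.St d s Z₁ z₁ ∧ Z₁.Sub X' := by
  have hle : Z.Le T := sub_le hs hX.le
  have hd : d ∈ Z.B := hZ.hl.1 d List.mem_cons_self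
  have hdR : d ∈ X'.R := hs.R_sub (Z.B_sub_R hd)
  have hda : X'.a d ≠ d := fun h => hdX ⟨hdR, h⟩
  have hTa : T.a d = X'.a d := hX.le.2 d hda
  have hyR : T.a d ∈ X'.R := by
    rw [hTa]
    exact (X'.mem_R_a d).2 hdR
  have hyB : T.a d ∉ X'.B := by
    intro h
    have h1 := h.2
    rw [hTa, X'.aa] at h1
    exact hda h1.symm
  rcases peel hle hd with ⟨hy, hyd⟩ | h0
  · have hsame : Z.s.SameCycle d (T.a d) := by
      by_contra h
      exact hyB (hu _ hy h)
    obtain ⟨w, hw⟩ := Z.hw_cons hd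
    have hy2 : T.a d ∈ Z.hw d := (Z.mem_hw hd).2 ⟨hy, hsame⟩
    rw [hw] at hy2
    rcases List.mem_cons.1 hy2 with h1 | h1
    · exact absurd h1 hyd
    obtain ⟨u, v, huv⟩ := List.append_of_mem h1
    rw [huv] at hw
    have hA : AltS Z T d (T.a d) u v := ⟨hle, hd, hy, rfl, hw⟩
    have hleg := alt_leg hA
    have hGs : (Z.glue d (T.a d) hd hy).Sub X' :=
      el_sub_of hs hleg hX.le (by rw [glue_R]; exact hs.R_sub) rfl hTa.symm hd.2 hy.2
    obtain ⟨c, hcB⟩ := hX.ne
    have hlX : ∀ e ∈ l, e ∈ X'.B := by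
      intro e he
      refine hu e (hZ.hl.1 e (List.mem_cons_of_mem _ he)) ?_
      have h2 := hZ.hl.2.1
      rw [List.pairwise_cons] at h2
      exact h2.1 e he
    cases u with
    | nil =>
      cases v with
      | nil =>
        exfalso
        have h2 := el_nil hc hA c (alt_X_mono hs (Or.inr hcB))
        rcases h2 with h2 | h2
        · exact hdX (h2 ▸ hcB)
        · exact hyB (h2 ▸ hcB)
      | cons zv v =>
        exact ⟨.R 0 0, Z.glue d (T.a d) hd hy, zv, ⟨T.a d, [], zv :: v, v, hd, hy, hw, rfl, rfl,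
          Or.inl ⟨rfl, rfl, rfl⟩⟩, hGs⟩
    | cons zu u =>
      cases v with
      | nil =>
        exact ⟨.L 0 0, Z.glue d (T.a d) hd hy, zu, ⟨T.a d, zu :: u, [], u, hd, hy, hw, rfl, rfl,
          Or.inl ⟨rfl, rfl, rfl⟩⟩, hGs⟩
      | cons zv v =>
        have hG := typ_ns hZ hd hy hw
        have hcg : ¬ (Z.glue d (T.a d) hd hy).HConn T := by
          intro h2
          have h3 := typ_le hG (T := T) (g := κ) ⟨hT, hleg⟩ h2
          omega
        obtain ⟨hzuB, zu', hzu1, hzu', hwu, -⟩ := alt_u hA (z := zu) List.mem_cons_self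
        obtain ⟨hzvB, zv', hzv1, hzv', hwv, -⟩ := alt_v hA (z := zv) List.mem_cons_self
        have hzu2 : zu' = zu := (Option.some.inj hzu1).symm
        have hzv2 : zv' = zv := (Option.some.inj hzv1).symm
        subst hzu2 hzv2
        -- the two sides are in different components
        have hn : ¬ (Z.glue d (T.a d) hd hy).Hc T zu' zv' := by
          intro hn
          apply hcg
          have hall : ∀ e ∈ (Z.glue d (T.a d) hd hy).X, (Z.glue d (T.a d) hd hy).Hc T zu' e := by
            intro e he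
            rcases alt_hc hA hc (Or.inr hzu' : zu' ∈ (Z.glue d (T.a d) hd hy).X) he with
              h2 | ⟨-, z, hz, h2⟩ | ⟨⟨z, hz, h2⟩, z2, hz2, h3⟩
            · exact h2
            · obtain ⟨-, z3, hz3, -, -, h4⟩ := alt_v hA hz
              have h5 : z3 = zv' := (Option.some.inj hz3).symm
              subst h5
              exact hc_trans hn (hc_trans h4 h2)
            · obtain ⟨-, z3, hz3, -, -, h4⟩ := alt_u hA hz2
              have h5 : z3 = zu' := (Option.some.inj hz3).symm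
              subst h5
              exact hc_trans h4 h3
          intro e he e' he'
          exact hc_trans (hc_symm (hall e he)) (hall e' he')
        have hside : ∀ e ∈ (Z.glue d (T.a d) hd hy).X, (Z.glue d (T.a d) hd hy).Hc T zu' e ∨
            (Z.glue d (T.a d) hd hy).Hc T zv' e :=
          fun e he => alt_side hA hc List.mem_cons_self List.mem_cons_self hn he
        have hcn : (Z.glue d (T.a d) hd hy).Cn zu' zv' := by
          have h2 : ∀ e ∈ Z.hw d, Z.s.SameCycle d e := fun e he => ((Z.mem_hw hd).1 he).2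
          rw [hw] at h2
          have h3 := h2 zu' (by simp)
          have h4 := h2 zv' (by simp)
          have h5 : zu' ∈ Z.R := by
            rw [← glue_R Z hd hy]
            exact Part.B_sub_R _ hzu'
          exact cn_sub (glue_sub Z hd hy) h5 (cn_of_same (h3.symm.trans h4))
        rcases hside c (alt_X_mono hGs (Or.inr hcB)) with h2 | h2
        · -- the side of `zv` is swallowed
          have hG' := typ_perm hG (List.Perm.swap zv' zu' l)
          have h3 : (zv' :: zu' :: l).map (Z.glue d (T.a d) hd hy).per =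
              (Z.glue d (T.a d) hd hy).per zv' :: (zu' :: l).map (Z.glue d (T.a d) hd hy).per := rfl
          rw [h3] at hG'
          obtain ⟨F1, h4, h5⟩ := el_side hT hX hleg hGs hG' (fun h => hn (hc_symm h))
            (fun e he => (hside e he).symm) hcB h2 hlX (cn_symm hcn)
          rw [hwv] at h4
          exact ⟨.L (zv' :: v).length F1, _, zu', ⟨T.a d, zu' :: u, zv' :: v, u, hd, hy, hw, rfl, rfl, h4⟩, h5⟩
        · obtain ⟨F1, h4, h5⟩ := el_side hT hX hleg hGs hG hn hside hcB h2 hlX hcn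
          rw [hwu] at h4
          exact ⟨.R (zu' :: u).length F1, _, zv', ⟨T.a d, zu' :: u, zv' :: v, v, hd, hy, hw, rfl, rfl, h4⟩, h5⟩
  · have h1 : T.f (T.a d) ∉ Z.R := fun h => h0 ((le_f_mem hle _).1 h)
    have h2 : T.f (T.f (T.a d)) ∉ Z.R := fun h => h1 ((le_f_mem hle _).1 h)
    have hle' := face_le Z hle hd h0 h1 h2 (tri_ne T _).1 (tri_ne T _).2.1 (tri_ne T _).2.2
    refine ⟨.T, _, T.f (T.a d), ⟨T.a d, T.f (T.a d), T.f (T.f (T.a d)), hd, h0, h1, h2, (tri_ne T _).1,
      (tri_ne T _).2.1, (tri_ne T _).2.2, rfl, rfl⟩, ?_⟩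
    refine el_sub_of hs hle' hX.le ?_ rfl hTa.symm hd.2 (Z.af _ (not_not.1 h0))
    rw [face_R]
    have h3 := (le_f_mem hX.le _).2 hyR
    have h4 := (le_f_mem hX.le _).2 h3
    rintro e (he | he | he | he)
    · exact hs.R_sub he
    · rw [he]
      exact hyR
    · rw [he]
      exact h3
    · have he' : e = T.f (T.f (T.a d)) := he
      rw [he']
      exact h4

theorem el (hT : T ∈ Trn n κ) (hX : Tgt T X') (h : In T κ l P X' Z z) (hd : d ∈ Z.B) (hzd : Z.s.SameCycle z d)
    (hdX : d ∉ X'.B) : ∃ (s : Stp) (Z₁ : Part (Fin (6 * n))) (z₁ : Fin (6 * n)), Z.St d s Z₁ z₁ ∧ In T κ l P X' Z₁ z₁ := by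
  obtain ⟨p, F, hZ⟩ := h.typ
  have hZd := typ_repl hZ hd hzd
  have hu := hu_repl hzd h.hu
  obtain ⟨s, Z₁, z₁, hst, hsub⟩ := el_step hT hX hZd h.hc h.sub hu hdX
  refine ⟨s, Z₁, z₁, hst, ?_, st_fwd hst (sub_le hsub hX.le) h.hc, hsub, hu_st hZd hst hu⟩
  obtain ⟨-, F', -, ht⟩ := st_typ hZd hst
  exact ⟨_, F', ht⟩

end Part
end SYS
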