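import Pool.Agent.SYS.PX.Ex

/-!
# SYS-PX-LocB: runs without far absorption are local

`hg`: all gates after the first are new darts.

A step absorbs only darts `nx ^ i d` or `nx⁻¹ ^ i d`; a far dart of the base is never absorbed.
-/

namespace SYS
namespace Part

open Classical SST

variable {D : Type} [Finite D] {b : Part D → Option D} {S X' : Part D} {x x' : D} {K W : ℕ} {w : List Stp} {l : List D} {p : ℕ}
  {P : List ℕ} {F κ : ℕ}

private theorem nx_append' {S : Part D} {x d e : D} (hx : x ∈ S.B) {u v : List D} (hw : S.hw x = u ++ d :: e :: v) :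
    S.nx d = e := by
  have h := S.hw_chain hx
  rw [hw] at h
  have h2 := (List.isChain_append.1 h).2.1
  exact (List.isChain_cons_cons.1 h2).1

private theorem nx_last' {S : Part D} {x d : D} (hx : x ∈ S.B) {u : List D} (hw : S.hw x = u ++ [d]) : S.nx d = x := by
  obtain ⟨w, hw'⟩ := S.hw_cons hx
  have hd : d ∈ S.B := by
    have h1 : d ∈ S.hw x := by rw [hw]; simp
    exact ((S.mem_hw hx).1 h1).1
  rcases u with _ | ⟨a, u⟩
  · have h1 : d = x := by
      rw [hw', List.nil_append] at hw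
      exact (List.cons_eq_cons.1 hw).1.symm
    have h2 := S.nx_mem.2 hd
    obtain ⟨h3, h4⟩ := nx_pow_same S hd 1
    rw [pow_one] at h4
    have h5 : S.nx d ∈ S.hw x := by
      rw [S.mem_hw hx]
      exact ⟨h2, by rw [← h1]; exact h4⟩
    rw [hw] at h5
    have h6 : S.nx d = d := by simpa using h5
    rw [h6, h1]
  · have h1 : a = x := by
      rw [hw', List.cons_append] at hw
      exact (List.cons_eq_cons.1 hw).1.symm
    have h2 := S.hw_rot hx (u := a :: u) (v := []) hw
    rw [List.nil_append, h1] at h2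
    exact nx_append' hd (u := []) (v := u) h2

/-- positions in the hole word, from the start -/
private theorem hw_pos {S : Part D} {x : D} {e : D} {u v : List D} (hword : S.hw x = u ++ e :: v) :
    e = (S.nx ^ u.length) x := by
  have h1 : (S.hw x)[u.length]? = some e := by
    rw [hword, List.getElem?_append_right le_rfl, Nat.sub_self]
    rfl
  unfold hw at h1
  rw [List.getElem?_map] at h1
  obtain ⟨i, h2, h3⟩ := Option.map_eq_some_iff.1 h1
  have h4 := List.getElem?_eq_some_iff.1 h2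
  obtain ⟨h5, h6⟩ := h4
  rw [List.getElem_range] at h6
  rw [← h3, ← h6]

/-- positions in the hole word, from the end -/
private theorem hw_neg {S : Part D} {x : D} (hx : x ∈ S.B) (v : List D) : ∀ (e : D) (u : List D), S.hw x = u ++ e :: v →
    e = (S.nx⁻¹ ^ (v.length + 1)) x := by
  induction v with
  | nil =>
    intro e u hw
    have h1 := nx_last' hx hw
    rw [List.length_nil, zero_add, pow_one, Equiv.Perm.eq_inv_iff_eq]
    exact h1
  | cons f v ih =>
    intro e u hw
    have h1 := nx_append' hx hw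
    have h2 := ih f (u ++ [e]) (by rw [hw]; simp)
    rw [List.length_cons, pow_succ', Equiv.Perm.mul_apply, ← h2, Equiv.Perm.eq_inv_iff_eq]
    exact h1

private theorem nw_mono {S S₁ : Part D} {x : D} {K K' : ℕ} (h : K ≤ K') : NW S S₁ x K ⊆ NW S S₁ x K' := by
  rintro d (hd | ⟨m, hm, rfl⟩)
  · exact Or.inl hd
  · exact Or.inr ⟨m, hm.trans (by exact_mod_cast h), rfl⟩

/-- the successor of an old dart -/
private theorem nx_out {S S₁ : Part D} (hs : S.Sub S₁) {b : D} (hb : b ∈ S.B) (hb1 : b ∈ S₁.B) (hb2 : S.nx b ∈ S₁.B) :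
    S₁.nx b = S.nx b := by
  have ha : S₁.a b = b := hb1.2
  have h1 : hv S S₁ b = S.nx b := by
    rw [hv_old hs (sub_B hs hb1) (by rw [ha]; exact hb), ha]
  rw [← nx_hv hs hb1]
  have h2 := ret_eq (hv S S₁) hb1 (j := 0) (by rw [zero_add, pow_one, h1]; exact hb2) (fun i hi => absurd hi (by omega))
  rw [h2, zero_add, pow_one, h1]

private theorem bs_nx (S : Part D) (x : D) (m : ℤ) : S.nx (S.bs x m) = S.bs x (m + 1) := by
  unfold bs
  rw [← Equiv.Perm.mul_apply, ← zpow_one_add, add_comm]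

private theorem in_win {S S₁ : Part D} {x : D} {K : ℕ} {b : D} (hb : b ∈ S.B) (h : b ∈ NW S S₁ x K) :
    ∃ m : ℤ, |m| ≤ K ∧ b = S.bs x m := by
  rcases h with h | h
  · exact absurd hb.1 h.2
  · exact h

private theorem move_f {S S₁ : Part D} {x : D} {K : ℕ} (hs : S.Sub S₁)
    (hU : ∀ b ∈ S.B, b ∉ NW S S₁ x K → b ∈ S₁.B) {e : D} (he : e ∈ S₁.B) (hG : e ∈ NW S S₁ x K) :
    S₁.nx e ∈ NW S S₁ x (K + 1) := by
  have hb : S₁.nx e ∈ S₁.B := S₁.nx_mem.2 he
  rcases sub_B hs hb with hn | hb0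
  · exact Or.inl hn
  by_contra hcon
  obtain ⟨b', hb'⟩ : ∃ b', S.nx b' = S₁.nx e := ⟨S.nx⁻¹ (S₁.nx e), by simp⟩
  have hb'B : b' ∈ S.B := by
    rw [← S.nx_mem, hb']
    exact hb0
  have hout : b' ∉ NW S S₁ x K := by
    intro h
    obtain ⟨m, hm, hm2⟩ := in_win hb'B h
    apply hcon
    right
    refine ⟨m + 1, ?_, ?_⟩
    · calc |m + 1| ≤ |m| + |1| := abs_add_le m 1
        _ ≤ ((K + 1 : ℕ) : ℤ) := by rw [abs_one]; push_cast; linarith
    · rw [← hb', hm2, bs_nx]
  have h1 := nx_out hs hb'B (hU b' hb'B hout) (by rw [hb']; exact hb)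
  rw [hb'] at h1
  have h2 : b' = e := S₁.nx.injective h1
  rw [h2] at hout
  exact hout hG

private theorem disc_B {G S₂ : Part D} {u : List D} {a : ℕ} (h : G.DiscFill S₂ u a) : S₂.B = G.B \ {d | d ∈ u} := by
  rcases h with ⟨h1, -, h2⟩ | ⟨-, V, -, hf⟩
  · rw [h2, h1]
    simp
  · exact hf.B

private theorem ne_xy {S : Part D} {x y : D} (hx : x ∈ S.B) {u v : List D} (hw : S.hw x = x :: (u ++ y :: v)) : x ≠ y := by
  have h := S.hw_nodup hx
  rw [hw, List.nodup_cons] at h
  intro h1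
  apply h.1
  rw [← h1]
  simp

private theorem spl (L : List D) (i : ℕ) (hi : i < L.length) :
    ∃ u e v, L = u ++ e :: v ∧ u.length = i :=
  ⟨L.take i, L[i], L.drop (i + 1), by rw [List.cons_getElem_drop_succ, List.take_append_drop],
    by rw [List.length_take]; omega⟩

/-- the darts absorbed by a step R -/
private theorem absR {Z Z₁ : Part D} {d z₁ : D} {k a : ℕ} (h : Z.St d (.R k a) Z₁ z₁) {e : D}
    (he : e ∈ Z.B) : e ∉ Z₁.B ↔ ∃ i ≤ k + 1, e = (Z.nx ^ i) d := by
  obtain ⟨y, u, v, w, hx', hy, hw, hk, hv, hD⟩ := h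
  have hB : e ∉ Z₁.B ↔ (e = d ∨ e ∈ u ∨ e = y) := by
    rw [disc_B hD, glue_B Z hx' hy (ne_xy hx' hw)]
    simp only [Set.mem_sdiff, Set.mem_insert_iff, Set.mem_singleton_iff, Set.mem_setOf_eq]
    tauto
  rw [hB]
  constructor
  · rintro (h | h | h)
    · exact ⟨0, Nat.zero_le _, by rw [pow_zero]; exact h⟩
    · obtain ⟨u1, u2, hu⟩ := List.append_of_mem h
      refine ⟨(d :: u1).length, ?_, hw_pos (u := d :: u1) (v := u2 ++ y :: v) (by rw [hw, hu]; simp)⟩
      rw [hu, List.length_append, List.length_cons] at hk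
      rw [List.length_cons]
      omega
    · refine ⟨k + 1, le_rfl, ?_⟩
      have h1 := hw_pos (u := d :: u) (v := v) (e := y) (by rw [hw]; simp)
      rw [List.length_cons, hk] at h1
      rw [h, h1]
  · rintro ⟨i, hi, h⟩
    obtain ⟨u1, e', u2, h1, h2⟩ := spl (d :: (u ++ [y])) i (by
      rw [List.length_cons, List.length_append, List.length_singleton]
      omega)
    have h3 : Z.hw d = u1 ++ e' :: (u2 ++ v) := by
      rw [hw]
      have h4 : d :: (u ++ y :: v) = (d :: (u ++ [y])) ++ v := by simp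
      rw [h4, h1]
      simp
    have h5 := hw_pos h3
    rw [h2, ← h] at h5
    have h6 : e ∈ d :: (u ++ [y]) := by
      rw [h1, ← h5]
      simp
    simpa using h6

/-- the darts absorbed by a step L -/
private theorem absL {Z Z₁ : Part D} {d z₁ : D} {k a : ℕ} (h : Z.St d (.L k a) Z₁ z₁) {e : D}
    (he : e ∈ Z.B) : e ∉ Z₁.B ↔ ∃ i ≤ k + 1, e = (Z.nx⁻¹ ^ i) d := by
  obtain ⟨y, u, v, w, hx', hy, hw, hk, hu, hD⟩ := h
  have hB : e ∉ Z₁.B ↔ (e = d ∨ e ∈ y :: v) := by
    rw [disc_B hD, glue_B Z hx' hy (ne_xy hx' hw), List.mem_cons]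
    simp only [Set.mem_sdiff, Set.mem_insert_iff, Set.mem_singleton_iff, Set.mem_setOf_eq]
    tauto
  rw [hB]
  constructor
  · rintro (h | h)
    · exact ⟨0, Nat.zero_le _, by rw [pow_zero]; exact h⟩
    · obtain ⟨v1, v2, hv⟩ := List.append_of_mem h
      refine ⟨v2.length + 1, ?_, hw_neg hx' v2 e (d :: (u ++ v1)) (by rw [hw, hv]; simp)⟩
      have h1 := congrArg List.length hv
      rw [List.length_cons, List.length_append, List.length_cons] at h1
      omega
  · rintro ⟨i, hi, h⟩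
    rcases Nat.eq_zero_or_pos i with h0 | h0
    · left
      rw [h, h0, pow_zero]
      rfl
    · right
      obtain ⟨v1, e', v2, h1, h2⟩ := spl (y :: v) (k + 1 - i) (by
        rw [List.length_cons]
        omega)
      have h3 : Z.hw d = (d :: (u ++ v1)) ++ e' :: v2 := by
        rw [hw]
        have h4 : d :: (u ++ y :: v) = (d :: u) ++ (y :: v) := by simp
        rw [h4, h1]
        simp
      have h5 := hw_neg hx' v2 e' _ h3
      have h6 := congrArg List.length h1
      rw [List.length_cons, List.length_append, List.length_cons] at h6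
      have h7 : v2.length + 1 = i := by omega
      rw [h7, ← h] at h5
      rw [h1, ← h5]
      simp

private theorem back {Z X : Part D} (h : Z.Sub X) {e : D} (he : e ∈ Z.R) (hX : e ∈ X.B) :
    e ∈ Z.B := by
  refine ⟨he, ?_⟩
  by_contra hc
  have h1 := h.2 e hc
  exact hc (h1.symm.trans hX.2)

private theorem gate {S Z : Part D} {x d : D} (K : ℕ) (h : d = x ∨ d ∈ Z.R \ S.R) :
    d ∈ NW S Z x K := by
  rcases h with h | h
  · refine Or.inr ⟨0, by simp, ?_⟩
    show d = (S.nx ^ (0 : ℤ)) x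
    rw [zpow_zero, h]
    rfl
  · exact Or.inl h

private theorem lbr_aux (hx : x ∈ S.B)
    (hg : ∀ Z d, S.Sub Z → b Z = some d → d ∈ Z.B ∧ (d = x ∨ d ∈ Z.R \ S.R))
    (hU : ∀ e ∈ S.B, (∀ m : ℤ, |m| ≤ K → e ≠ S.bs x m) → e ∈ X'.B) (w : List Stp) :
    ∀ (Z : Part D) (z : D), S.Sub Z → BR b Z z w X' x' → LBR b S x (K + 1) Z z w X' x' := by
  induction w with
  | nil => exact fun Z z _ hr => hr
  | cons s w ih =>
    intro Z z hs hr
    obtain ⟨d, Z₁, z₁, hb, hd, hsc, hst, hr⟩ := hr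
    have hsub := (st_sub hst).1
    have hX := br_sub hr
    have hZX := sub_trans hsub hX
    have hG := gate K (hg Z d hs hb).2
    have hU1 : ∀ e ∈ S.B, e ∉ NW S Z x K → e ∈ Z.B := by
      intro e he hn
      exact back hZX (hs.R_sub he.1) (hU e he fun m hm h => hn (Or.inr ⟨m, hm, h⟩))
    have hU2 : ∀ e ∈ Z.B, e ∉ Z₁.B → e ∈ NW S Z x K := by
      intro e he hn
      rcases sub_B hs he with h1 | h1
      · exact Or.inl h1
      · by_contra h2
        exact hn (back hX (hsub.R_sub he.1) (hU e h1 fun m hm h => h2 (Or.inr ⟨m, hm, h⟩)))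
    have hmv : ∀ e ∈ Z.B, e ∈ NW S Z x K → Z.nx e ∈ NW S Z x (K + 1) :=
      fun e he h => move_f hs hU1 he h
    have hpB : ∀ i : ℕ, (Z.nx ^ i) d ∈ Z.B := by
      intro i
      induction i with
      | zero => exact hd
      | succ i ih =>
        rw [pow_succ', Equiv.Perm.mul_apply]
        exact Z.nx_mem.2 ih
    have hmB : ∀ i : ℕ, (Z.nx⁻¹ ^ i) d ∈ Z.B := by
      intro i
      induction i with
      | zero => exact hd
      | succ i ih =>
        rw [pow_succ', Equiv.Perm.mul_apply, ← Z.nx_mem]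
        simpa using ih
    refine ⟨d, Z₁, z₁, hb, ⟨hst, ?_⟩, ih Z₁ z₁ (sub_trans hs hsub) hr⟩
    cases s with
    | T => trivial
    | R k a =>
      have h1 : ∀ i ≤ k + 1, (Z.nx ^ i) d ∈ NW S Z x K := by
        intro i hi
        exact hU2 _ (hpB i) ((absR hst (hpB i)).2 ⟨i, hi, rfl⟩)
      intro i hi
      rcases Nat.lt_or_ge i (k + 2) with h2 | h2
      · exact nw_mono (Nat.le_succ K) (h1 i (by omega))
      · have h3 : i = (k + 1) + 1 := by omega
        rw [h3, pow_succ', Equiv.Perm.mul_apply]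
        exact hmv _ (hpB (k + 1)) (h1 (k + 1) le_rfl)
    | L k a =>
      refine ⟨hmv d hd hG, ?_⟩
      intro i hi
      exact nw_mono (Nat.le_succ K) (hU2 _ (hmB i) ((absL hst (hmB i)).2 ⟨i, hi, rfl⟩))

private theorem br_aux (hS : S.Typ (x :: l) (p :: P) F κ)
    (hg : ∀ Z d, S.Sub Z → b Z = some d → d ∈ Z.B ∧ (d = x ∨ d ∈ Z.R \ S.R)) (w : List Stp) :
    ∀ (u : List Stp) (Z : Part D) (z : D), BR b S x u Z z → (∀ e, S.Far x W e → e ∈ Z.B) →
      LBR b S x W Z z w X' x' → BR b S x (u ++ w) X' x' ∧ ∀ e, S.Far x W e → e ∈ X'.B := by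
  induction w with
  | nil =>
    rintro u Z z hr hU ⟨rfl, rfl⟩
    rw [List.append_nil]
    exact ⟨hr, hU⟩
  | cons s w ih =>
    rintro u Z z hr hU ⟨d, Z₁, z₁, hb, ⟨hst, hloc⟩, hl⟩
    have hs := br_sub hr
    obtain ⟨hd, hdx⟩ := hg Z d hs hb
    have hsc : Z.s.SameCycle z d := by
      refine ex_hole hS hr hd ?_
      rcases hdx with h | h
      · right
        rw [h]
      · left
        exact fun h' => h.2 h'.1
    have hr1 : BR b S x (u ++ [s]) Z₁ z₁ :=
      br_append.2 ⟨Z, z, hr, d, Z₁, z₁, hb, hd, hsc, hst, rfl, rfl⟩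
    have hno : ∀ e, S.Far x W e → e ∉ NW S Z x W := by
      rintro e he (h | ⟨m, hm, h⟩)
      · exact h.2 he.1.1
      · exact he.2.2 m hm h
    have hU1 : ∀ e, S.Far x W e → e ∈ Z₁.B := by
      intro e he
      have heB := hU e he
      by_contra hn
      cases s with
      | T =>
        obtain ⟨t0, t1, t2, hx', h0, h1, h2, h01, h12, h20, hS', hz⟩ := hst
        apply hn
        rw [hS', face_B]
        refine Or.inl ⟨heB, fun h3 => ?_⟩
        have h4 : e = d := h3
        apply hno e he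
        rw [h4]
        exact gate W hdx
      | R k a =>
        obtain ⟨i, hi, h⟩ := (absR hst heB).1 hn
        apply hno e he
        rw [h]
        exact hloc i (by omega)
      | L k a =>
        obtain ⟨i, hi, h⟩ := (absL hst heB).1 hn
        apply hno e he
        rw [h]
        exact hloc.2 i hi
    have h1 := ih (u ++ [s]) Z₁ z₁ hr1 hU1 hl
    rwa [List.append_assoc, List.singleton_append] at h1

theorem lbr_of_br (hS : S.Typ (x :: l) (p :: P) F κ) (hK : 2 * (K + 1) + 1 < p)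
    (hg : ∀ Z d, S.Sub Z → b Z = some d → d ∈ Z.B ∧ (d = x ∨ d ∈ Z.R \ S.R)) (hr : BR b S x w X' x') (hA : ¬ S.Abs x K X') :
    LBR b S x (K + 1) S x w X' x' := by
  have hx : x ∈ S.B := hS.hl.1 x List.mem_cons_self
  have hU : ∀ e ∈ S.B, (∀ m : ℤ, |m| ≤ K → e ≠ S.bs x m) → e ∈ X'.B := by
    intro e he hm
    by_cases hsc : S.s.SameCycle x e
    · by_contra h
      exact hA ⟨e, ⟨he, hsc, hm⟩, h⟩
    · exact br_hu hx hr e he hsc
  exact lbr_aux hx hg hU w S x (sub_refl S) hr

theorem br_of_lbr (hS : S.Typ (x :: l) (p :: P) F κ) (hW : 2 * W + 1 < p)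
    (hg : ∀ Z d, S.Sub Z → b Z = some d → d ∈ Z.B ∧ (d = x ∨ d ∈ Z.R \ S.R)) (hr : LBR b S x W S x w X' x') :
    BR b S x w X' x' ∧ ¬ S.Abs x W X' := by
  obtain ⟨h1, h2⟩ := br_aux hS hg w [] S x ⟨rfl, rfl⟩ (fun e he => he.1) hr
  refine ⟨h1, ?_⟩
  rintro ⟨e, he, hn⟩
  exact hn (h2 e he)

end Part
end SYS
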