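import Pool.Agent.SYS.PX.Defs
import Pool.Agent.SYS.BD.MgT

/-!
# SYS-PX-Pos: every region extends to a triangulation of minimal genus
-/

namespace SYS
namespace Part

open Classical SST Num

private theorem pos_conv (f g : Multiset ℕ → ℝ) (hf : ∀ Q, 0 ≤ f Q) (hg : ∀ Q, 0 ≤ g Q) (P : Multiset ℕ) :
    0 ≤ SYS.A.conv f g P := by
  unfold SYS.A.conv
  refine Multiset.sum_nonneg fun x hx => ?_
  obtain ⟨w, hw, rfl⟩ := Multiset.mem_map.1 hx
  exact mul_nonneg (hf _) (hg _)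

private theorem pos_c (m : ℕ) (Q : Multiset ℕ) (F : ℕ) :
    0 ≤ ∑ x ∈ Finset.HasAntidiagonal.antidiagonal m, ∑ y ∈ Finset.HasAntidiagonal.antidiagonal F,
      ∑ z ∈ Finset.HasAntidiagonal.antidiagonal 0,
        SYS.A.conv (fun R => muG (x.1 ::ₘ R) y.1 z.1) (fun R => muG (x.2 ::ₘ R) y.2 z.2) Q :=
  Finset.sum_nonneg fun _ _ => Finset.sum_nonneg fun _ _ => Finset.sum_nonneg fun _ _ =>
    pos_conv _ _ (fun _ => muG_nonneg _ _ _) (fun _ => muG_nonneg _ _ _) Q

private theorem pos_t (h : ℕ → ℕ) (Q : Multiset ℕ) (F : ℕ) :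
    ∀ x ∈ Q.map fun q : ℕ => (q : ℝ) * muG (h q ::ₘ Q.erase q) F 0, 0 ≤ x := by
  intro x hx
  obtain ⟨q, hq, rfl⟩ := Multiset.mem_map.1 hx
  exact mul_nonneg (Nat.cast_nonneg q) (muG_nonneg _ _ _)

private theorem pos_new (p : ℕ) (hp : 1 ≤ p) (Q : Multiset ℕ) (F : ℕ) :
    muG ((p + 1) ::ₘ Q) F 0 ≤ muG (p ::ₘ Q) (F + 1) 0 := by
  rcases Nat.lt_or_ge p 2 with h | h
  · obtain rfl : p = 1 := by omega
    have h1 := Multiset.sum_nonneg (pos_t (fun q => q - 1) Q (F + 1))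
    rw [tutG_one, if_neg (Nat.succ_ne_zero F), Nat.add_sub_cancel]
    exact le_add_of_nonneg_right h1
  · obtain ⟨m, rfl⟩ : ∃ m, p = m + 2 := ⟨p - 2, by omega⟩
    have h1 := Multiset.sum_nonneg (pos_t (fun q => q + m) Q (F + 1))
    have h2 := pos_c m Q (F + 1)
    have h3 := tutG m Q (F + 1) 0
    rw [if_neg (Nat.succ_ne_zero F), if_pos (rfl : (0 : ℕ) = 0), Nat.add_sub_cancel] at h3
    rw [h3]
    show muG ((m + 3) ::ₘ Q) F 0 ≤ _
    linarith

private theorem pos_merge (m : ℕ) (Q : Multiset ℕ) (F : ℕ) {q : ℕ} (hq : q ∈ Q) :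
    (q : ℝ) * muG ((q + m) ::ₘ Q.erase q) F 0 ≤ muG ((m + 2) ::ₘ Q) F 0 := by
  have h1 := Multiset.single_le_sum (pos_t (fun q => q + m) Q F) _ (Multiset.mem_map_of_mem _ hq)
  have h2 := pos_c m Q F
  have h3 : 0 ≤ (if F = 0 then 0 else muG ((m + 3) ::ₘ Q) (F - 1) 0) := by
    split_ifs
    · exact le_rfl
    · exact muG_nonneg _ _ _
  rw [tutG, if_pos (rfl : (0 : ℕ) = 0)]
  linarith

private theorem pos_disc0 (k : ℕ) : 0 < muG {2 * k + 2} 0 0 := by
  induction k with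
  | zero =>
    have h := muG_two 0 0 0
    rw [if_pos ⟨rfl, rfl, rfl⟩] at h
    have h1 : muG {2 * 0 + 2} 0 0 = muG (2 ::ₘ 0) 0 0 := rfl
    rw [h1, h]
    simp
  | succ k ih =>
    have e : muG {2 * (k + 1) + 2} 0 0 = muG ((2 * k + 2 + 2) ::ₘ 0) 0 0 := rfl
    have h1 := Multiset.sum_nonneg (pos_t (fun q => q + (2 * k + 2)) 0 0)
    have h2 : muG {2 * k + 2} 0 0 ≤ ∑ x ∈ Finset.HasAntidiagonal.antidiagonal (2 * k + 2),
        ∑ y ∈ Finset.HasAntidiagonal.antidiagonal 0, ∑ z ∈ Finset.HasAntidiagonal.antidiagonal 0,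
        SYS.A.conv (fun R => muG (x.1 ::ₘ R) y.1 z.1) (fun R => muG (x.2 ::ₘ R) y.2 z.2) 0 := by
      have h3 : ∀ x ∈ Finset.HasAntidiagonal.antidiagonal (2 * k + 2),
          0 ≤ ∑ y ∈ Finset.HasAntidiagonal.antidiagonal 0, ∑ z ∈ Finset.HasAntidiagonal.antidiagonal 0,
          SYS.A.conv (fun R => muG (x.1 ::ₘ R) y.1 z.1) (fun R => muG (x.2 ::ₘ R) y.2 z.2) 0 := fun x _ =>
        Finset.sum_nonneg fun _ _ => Finset.sum_nonneg fun _ _ =>
          pos_conv _ _ (fun _ => muG_nonneg _ _ _) (fun _ => muG_nonneg _ _ _) 0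
      refine le_trans ?_ (Finset.single_le_sum h3 (a := (0, 2 * k + 2))
        (Finset.HasAntidiagonal.mem_antidiagonal.2 (Nat.zero_add _)))
      rw [Finset.HasAntidiagonal.antidiagonal_zero, Finset.sum_singleton, Finset.sum_singleton, SYS.A.conv_zero]
      show muG {2 * k + 2} 0 0 ≤ muG (0 ::ₘ 0) 0 0 * muG ((2 * k + 2) ::ₘ 0) 0 0
      rw [tutG_zero, if_pos ⟨rfl, rfl, rfl⟩, one_mul]
      exact le_rfl
    rw [e, tutG, if_pos (rfl : (0 : ℕ) = 0), if_pos (rfl : (0 : ℕ) = 0)]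
    linarith

private theorem pos_disc (F : ℕ) : ∀ p : ℕ, 1 ≤ p → Even (F + p) → 0 < muG {p} F 0 := by
  induction F with
  | zero =>
    intro p hp hev
    obtain ⟨k, hk⟩ := hev
    obtain ⟨j, rfl⟩ : ∃ j, p = 2 * j + 2 := ⟨k - 1, by omega⟩
    exact pos_disc0 j
  | succ F ih =>
    intro p hp hev
    refine lt_of_lt_of_le (ih (p + 1) (by omega) ?_) (pos_new p hp 0 F)
    rw [show F + (p + 1) = F + 1 + p by ring]
    exact hev

private theorem pos_two (F : ℕ) (n : ℕ) : ∀ P : Multiset ℕ, Multiset.card P = n + 1 → (∀ q ∈ P, 2 ≤ q) →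
    Even (F + P.sum) → 0 < muG P F 0 := by
  induction n with
  | zero =>
    intro P hP h2 hev
    obtain ⟨p, rfl⟩ := Multiset.card_eq_one.1 hP
    have h3 := h2 p (Multiset.mem_singleton_self p)
    rw [Multiset.sum_singleton] at hev
    exact pos_disc F p (by omega) hev
  | succ n ih =>
    intro P hP h2 hev
    obtain ⟨p, Q, rfl⟩ : ∃ p Q, P = p ::ₘ Q := by
      have h3 : 0 < Multiset.card P := by omega
      obtain ⟨p, hp⟩ := Multiset.card_pos_iff_exists_mem.1 h3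
      exact ⟨p, P.erase p, (Multiset.cons_erase hp).symm⟩
    rw [Multiset.card_cons] at hP
    obtain ⟨q, hq⟩ : ∃ q, q ∈ Q := Multiset.card_pos_iff_exists_mem.1 (by omega)
    have hp2 := h2 p (Multiset.mem_cons_self p Q)
    have hq2 := h2 q (Multiset.mem_cons_of_mem hq)
    obtain ⟨m, rfl⟩ : ∃ m, p = m + 2 := ⟨p - 2, by omega⟩
    refine lt_of_lt_of_le ?_ (pos_merge m Q F hq)
    have hs : q + (Q.erase q).sum = Q.sum := by
      conv_rhs => rw [← Multiset.cons_erase hq, Multiset.sum_cons]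
    have hc : Multiset.card (Q.erase q) + 1 = Multiset.card Q := by
      conv_rhs => rw [← Multiset.cons_erase hq, Multiset.card_cons]
    refine mul_pos (by exact_mod_cast (by omega : 0 < q)) (ih _ ?_ ?_ ?_)
    · rw [Multiset.card_cons]
      omega
    · intro r hr
      rcases Multiset.mem_cons.1 hr with h4 | h4
      · omega
      · exact h2 r (Multiset.mem_cons_of_mem (Multiset.mem_of_mem_erase h4))
    · rw [Multiset.sum_cons, Nat.even_iff] at hev ⊢
      omega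

private theorem pos_all (n : ℕ) : ∀ (P : Multiset ℕ) (F : ℕ), Multiset.count 1 P = n → (∀ q ∈ P, 1 ≤ q) → P ≠ 0 →
    n ≤ F → Even (F + P.sum) → 0 < muG P F 0 := by
  induction n with
  | zero =>
    intro P F hc h1 hne _ hev
    obtain ⟨k, hk⟩ : ∃ k, Multiset.card P = k + 1 :=
      ⟨Multiset.card P - 1, by have := Multiset.card_pos.2 hne; omega⟩
    refine pos_two F k P hk (fun q hq => ?_) hev
    have h2 := h1 q hq
    have h3 : q ≠ 1 := by
      rintro rfl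
      exact (Multiset.count_eq_zero.1 hc) hq
    omega
  | succ n ih =>
    intro P F hc h1 hne hF hev
    have h2 : 1 ∈ P := Multiset.count_pos.1 (by omega)
    obtain ⟨Q, rfl⟩ : ∃ Q, P = 1 ::ₘ Q := ⟨P.erase 1, (Multiset.cons_erase h2).symm⟩
    obtain ⟨F, rfl⟩ : ∃ F', F = F' + 1 := ⟨F - 1, by omega⟩
    refine lt_of_lt_of_le (ih (2 ::ₘ Q) F ?_ ?_ ?_ (by omega) ?_) (pos_new 1 le_rfl Q F)
    · rw [Multiset.count_cons_self] at hc
      rw [Multiset.count_cons_of_ne (by norm_num)]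
      omega
    · intro q hq
      rcases Multiset.mem_cons.1 hq with h3 | h3
      · omega
      · exact h1 q (Multiset.mem_cons_of_mem h3)
    · exact Multiset.cons_ne_zero
    · rw [Multiset.sum_cons] at hev ⊢
      rw [Nat.even_iff] at hev ⊢
      omega

theorem muG_pos (P : Multiset ℕ) (hP : ∀ q ∈ P, 1 ≤ q) (hne : P ≠ 0) (F : ℕ) (hF : Multiset.card P ≤ F) (hev : Even (F + P.sum)) :
    0 < muG P F 0 :=
  pos_all _ P F rfl hP hne ((Multiset.count_le_card 1 P).trans hF) hev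

theorem ext_ne {n F κ : ℕ} {S : Part (Fin (6 * n))} {l : List (Fin (6 * n))} {P : List ℕ} (hS : S.Typ l P F κ) (hl : l ≠ [])
    (hF : l.length ≤ F) : ∃ T ∈ S.Ext κ, S.HConn T := by
  have h3 : l.length = P.length := by rw [← hS.per, List.length_map]
  have hev : Even (F + P.sum) := by
    have h1 := hS.vol
    have h2 := hS.eul
    rw [Nat.card_fin] at h1
    rw [Nat.even_iff]
    omega
  have hpos : 0 < muG (P : Multiset ℕ) F 0 := by
    refine muG_pos _ ?_ ?_ F ?_ ?_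
    · intro q hq
      rw [Multiset.mem_coe, ← hS.per, List.mem_map] at hq
      obtain ⟨d, hd, rfl⟩ := hq
      exact per_pos S (hS.hl.1 d hd)
    · intro h0
      rw [Multiset.coe_eq_zero] at h0
      apply hl
      rw [← List.length_eq_zero_iff, h3, h0, List.length_nil]
    · rw [Multiset.coe_card, ← h3]
      exact hF
    · rw [Multiset.sum_coe]
      exact hev
  have h4 := typ_card (h := 0) hS
  have h5 : 0 < {T | T ∈ S.Ext (0 + κ) ∧ S.HConn T}.ncard := by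
    have h6 : (0 : ℝ) < (({T | T ∈ S.Ext (0 + κ) ∧ S.HConn T}.ncard : ℕ) : ℝ) := by
      rw [h4]
      exact mul_pos (by exact_mod_cast Nat.factorial_pos _) hpos
    exact_mod_cast h6
  obtain ⟨T, hT1, hT2⟩ := Set.nonempty_of_ncard_ne_zero h5.ne'
  rw [Nat.zero_add] at hT1
  exact ⟨T, hT1, hT2⟩

end Part
end SYS
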