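import Pool.Agent.SYS.PX.El

/-!
# SYS-PX-Unq: planar steps (runs) with the same gates below the same region are equal

Two different planar steps at the same gate would fill both sides of the gate, but a boundary dart of `X'` is hidden in one of
the sides (`uq_two`).
-/

namespace SYS
namespace Part

open Classical SST

section

variable {D : Type} [Finite D]

omit [Finite D] in
private theorem uq_X_mono {S S' : Part D} (h : S.Sub S') {d : D} (hd : d ∈ S'.X) : d ∈ S.X := by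
  by_contra hn
  have h1 : d ∈ S.R := by
    by_contra h1
    exact hn (Or.inl h1)
  have h2 : d ∉ S.B := fun h2 => hn (Or.inr h2)
  have h3 : S.a d ≠ d := fun h3 => h2 ⟨h1, h3⟩
  have h4 : S'.a d = S.a d := h.2 d h3
  rcases hd with hd | hd
  · exact hd (h.R_sub h1)
  · exact h3 (h4 ▸ hd.2)

private theorem uq_hun {S : Part D} {z : D} (hz : z ∈ S.B) : S.HUn {d | d ∈ S.hw z} := by
  constructor
  · intro d hd
    exact ((S.mem_hw hz).1 hd).1
  · intro d hd e he hde
    exact (S.mem_hw hz).2 ⟨he, ((S.mem_hw hz).1 hd).2.trans hde⟩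

private theorem uq_self {S : Part D} {z : D} (hz : z ∈ S.B) : z ∈ S.hw z :=
  (S.mem_hw hz).2 ⟨hz, Equiv.Perm.SameCycle.refl _ _⟩

omit [Finite D] in
private theorem uq_ga (S : Part D) {x y : D} (hx : x ∈ S.B) (hy : y ∈ S.B) : (S.glue x y hx hy).a x = y := by
  show S.a (Equiv.swap x y x) = y
  rw [Equiv.swap_apply_left]
  exact hy.2

omit [Finite D] in
private theorem uq_fa (S : Part D) {x t0 t1 t2 : D} (hx : x ∈ S.B) (h0 : t0 ∉ S.R) (h1 : t1 ∉ S.R) (h2 : t2 ∉ S.R)
    (h01 : t0 ≠ t1) (h12 : t1 ≠ t2) (h20 : t2 ≠ t0) : (S.face x t0 t1 t2 hx h0 h1 h2 h01 h12 h20).a x = t0 := by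
  show S.a (Equiv.swap x t0 x) = t0
  rw [Equiv.swap_apply_left]
  have h6 : S.f t0 = t0 := by
    by_contra h6
    exact h0 h6
  exact S.af _ h6

private theorem uq_split {α : Type} {u u' v v' : List α} {y : α} (h : u ++ y :: v = u' ++ y :: v') (hu : y ∉ u)
    (hu' : y ∉ u') : u = u' ∧ v = v' := by
  induction u generalizing u' with
  | nil =>
    cases u' with
    | nil => exact ⟨rfl, by simpa using h⟩
    | cons c u' =>
      rw [List.nil_append, List.cons_append, List.cons_eq_cons] at h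
      exact absurd (h.1 ▸ List.mem_cons_self) hu'
  | cons c u ih =>
    cases u' with
    | nil =>
      rw [List.nil_append, List.cons_append, List.cons_eq_cons] at h
      exact absurd (h.1 ▸ List.mem_cons_self) hu
    | cons c' u' =>
      rw [List.cons_append, List.cons_append, List.cons_eq_cons] at h
      obtain ⟨e1, e2⟩ := ih h.2 (fun h' => hu (List.mem_cons_of_mem _ h')) (fun h' => hu' (List.mem_cons_of_mem _ h'))
      exact ⟨by rw [h.1, e1], e2⟩

/-- the decomposition of the hole word at `y` is unique -/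
private theorem uq_dec {S : Part D} {x y : D} (hx : x ∈ S.B) {u u' v v' : List D} (h : S.hw x = x :: (u ++ y :: v))
    (h' : S.hw x = x :: (u' ++ y :: v')) : u = u' ∧ v = v' := by
  have hn := S.hw_nodup hx
  have hn' := hn
  rw [h] at hn
  rw [h'] at hn'
  have h1 := (List.nodup_cons.1 hn).2
  have h2 := (List.nodup_cons.1 hn').2
  have h3 : u ++ y :: v = u' ++ y :: v' := by
    have := h.symm.trans h'
    rw [List.cons_eq_cons] at this
    exact this.2
  refine uq_split h3 ?_ ?_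
  · intro h4
    exact (List.disjoint_of_nodup_append h1) h4 List.mem_cons_self
  · intro h4
    exact (List.disjoint_of_nodup_append h2) h4 List.mem_cons_self

private theorem uq_word {S : Part D} {x y : D} (hx : x ∈ S.B) {u v : List D} (h : S.hw x = x :: (u ++ y :: v)) :
    x ≠ y ∧ S.s.SameCycle x y ∧ (∀ z ∈ u, z ∉ v ∧ z ≠ x ∧ z ≠ y ∧ z ∈ S.B) ∧ (∀ z ∈ v, z ∉ u ∧ z ≠ x ∧ z ≠ y ∧ z ∈ S.B) ∧
      (∀ z ∈ S.B, S.s.SameCycle x z → z = x ∨ z ∈ u ∨ z = y ∨ z ∈ v) := by
  have hn := S.hw_nodup hx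
  have hm := fun d => S.mem_hw (d := d) hx
  rw [h] at hn hm
  have h1 := List.nodup_cons.1 hn
  have h2 := List.nodup_append.1 h1.2
  have h3 := List.nodup_cons.1 h2.2.1
  have hd := List.disjoint_of_nodup_append h1.2
  refine ⟨?_, ?_, ?_, ?_, ?_⟩
  · rintro rfl
    exact h1.1 (by simp)
  · exact ((hm y).1 (by simp)).2
  · intro z hz
    refine ⟨fun h4 => hd hz (List.mem_cons_of_mem _ h4), ?_, ?_, ((hm z).1 (by simp [hz])).1⟩
    · rintro rfl
      exact h1.1 (by simp [hz])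
    · rintro rfl
      exact hd hz List.mem_cons_self
  · intro z hz
    refine ⟨fun h4 => hd h4 (List.mem_cons_of_mem _ hz), ?_, ?_, ((hm z).1 (by simp [hz])).1⟩
    · rintro rfl
      exact h1.1 (by simp [hz])
    · rintro rfl
      exact h3.1 hz
  · intro z hz hxz
    have h4 := (hm z).2 ⟨hz, hxz⟩
    simp only [List.mem_cons, List.mem_append] at h4
    tauto

/-- the setting: `x` is glued to `y` inside its hole -/
private structure UqS (S : Part D) (T : Tri D) (x y : D) (u v : List D) : Prop where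
  le : S.Le T
  hx : x ∈ S.B
  hy : y ∈ S.B
  hT : T.a x = y
  hw : S.hw x = x :: (u ++ y :: v)

private theorem uq_leg {S : Part D} {T : Tri D} {x y : D} {u v : List D} (h : UqS S T x y u v) :
    (S.glue x y h.hx h.hy).Le T := glue_le S h.hx h.hy h.le h.hT

private theorem uq_B {S : Part D} {T : Tri D} {x y : D} {u v : List D} (h : UqS S T x y u v) :
    (S.glue x y h.hx h.hy).B = S.B \ {x, y} := glue_B S h.hx h.hy (uq_word h.hx h.hw).1

private theorem uq_u {S : Part D} {T : Tri D} {x y : D} {u v : List D} (h : UqS S T x y u v) {z : D} (hz : z ∈ u) :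
    z ∈ (S.glue x y h.hx h.hy).B ∧ ∃ z', u.head? = some z' ∧ z' ∈ (S.glue x y h.hx h.hy).B ∧
      (S.glue x y h.hx h.hy).hw z' = u ∧ (S.glue x y h.hx h.hy).Hc T z' z := by
  cases u with
  | nil => exact absurd hz List.not_mem_nil
  | cons z' w =>
    have h1 := hw_glue_split_left S h.hx h.hy h.hw rfl
    have h2 := (uq_word h.hx h.hw).2.2.1
    have h3 : ∀ d ∈ z' :: w, d ∈ (S.glue x y h.hx h.hy).B := by
      intro d hd
      rw [uq_B h]
      obtain ⟨-, h4, h5, h6⟩ := h2 d hd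
      refine ⟨h6, ?_⟩
      rintro (h7 | h7)
      · exact h4 h7
      · exact h5 h7
    refine ⟨h3 z hz, z', rfl, h3 z' List.mem_cons_self, h1, ?_⟩
    apply hc_hole (h3 z' List.mem_cons_self)
    rw [h1]
    exact hz

private theorem uq_v {S : Part D} {T : Tri D} {x y : D} {u v : List D} (h : UqS S T x y u v) {z : D} (hz : z ∈ v) :
    z ∈ (S.glue x y h.hx h.hy).B ∧ ∃ z', v.head? = some z' ∧ z' ∈ (S.glue x y h.hx h.hy).B ∧
      (S.glue x y h.hx h.hy).hw z' = v ∧ (S.glue x y h.hx h.hy).Hc T z' z := by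
  cases v with
  | nil => exact absurd hz List.not_mem_nil
  | cons z' w =>
    have h1 := hw_glue_split_right S h.hx h.hy h.hw rfl
    have h2 := (uq_word h.hx h.hw).2.2.2.1
    have h3 : ∀ d ∈ z' :: w, d ∈ (S.glue x y h.hx h.hy).B := by
      intro d hd
      rw [uq_B h]
      obtain ⟨-, h4, h5, h6⟩ := h2 d hd
      refine ⟨h6, ?_⟩
      rintro (h7 | h7)
      · exact h4 h7
      · exact h5 h7
    refine ⟨h3 z hz, z', rfl, h3 z' List.mem_cons_self, h1, ?_⟩
    apply hc_hole (h3 z' List.mem_cons_self)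
    rw [h1]
    exact hz

/-- if the hidden part of `S` is connected there are at most two components after the gluing -/
private theorem uq_hc {S : Part D} {T : Tri D} {x y : D} {u v : List D} (h : UqS S T x y u v) (hc : S.HConn T) {d e : D}
    (hd : d ∈ (S.glue x y h.hx h.hy).X) (he : e ∈ (S.glue x y h.hx h.hy).X) :
    (S.glue x y h.hx h.hy).Hc T d e ∨
      ((∃ z ∈ u, (S.glue x y h.hx h.hy).Hc T z d) ∧ ∃ z ∈ v, (S.glue x y h.hx h.hy).Hc T z e) ∨
      ((∃ z ∈ v, (S.glue x y h.hx h.hy).Hc T z d) ∧ ∃ z ∈ u, (S.glue x y h.hx h.hy).Hc T z e) :=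
  (hc_glue_split h.le h.hx h.hy h.hT h.hw hd he).1
    (hc d (uq_X_mono (glue_sub S h.hx h.hy) hd) e (uq_X_mono (glue_sub S h.hx h.hy) he))

/-- The two sides of the gate cannot both be filled below `X'`. -/
private theorem uq_two {S S' S'' X' : Part D} {T : Tri D} {x y : D} {u v : List D} (h : UqS S T x y u v) (hc : S.HConn T)
    {zu zv : D} (hu : zu ∈ u) (hv : zv ∈ v) {a b : ℕ} (h1 : (S.glue x y h.hx h.hy).DiscFill S' u a)
    (h2 : (S.glue x y h.hx h.hy).DiscFill S'' v b) (hs1 : S'.Sub X') (hs2 : S''.Sub X') (hL : X'.Le T)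
    (hne : X'.B.Nonempty) : False := by
  rcases h1 with ⟨h1, -, -⟩ | ⟨-, V, -, h1⟩
  · rw [h1] at hu
    exact List.not_mem_nil hu
  rcases h2 with ⟨h2, -, -⟩ | ⟨-, V', -, h2⟩
  · rw [h2] at hv
    exact List.not_mem_nil hv
  obtain ⟨c, hcB⟩ := hne
  have hcX : c ∈ X'.X := Or.inr hcB
  have hcG : c ∈ (S.glue x y h.hx h.hy).X := uq_X_mono (sub_trans h1.sub hs1) hcX
  obtain ⟨huB, zu', hzu1, hzu', hwu, hzu2⟩ := uq_u h hu
  obtain ⟨hvB, zv', hzv1, hzv', hwv, hzv2⟩ := uq_v h hv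
  have hHu : (S.glue x y h.hx h.hy).HUn {d | d ∈ u} := by
    have := uq_hun hzu'
    rwa [hwu] at this
  have hHv : (S.glue x y h.hx h.hy).HUn {d | d ∈ v} := by
    have := uq_hun hzv'
    rwa [hwv] at this
  have key : (S.glue x y h.hx h.hy).Hc T zu c ∨ (S.glue x y h.hx h.hy).Hc T zv c := by
    rcases uq_hc h hc (d := zu) (e := c) (Or.inr huB) hcG with h3 | ⟨-, z, hz, h3⟩ | ⟨-, z, hz, h3⟩
    · exact Or.inl h3
    · right
      obtain ⟨-, zv'', h4, -, -, h5⟩ := uq_v h hz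
      have h6 : zv'' = zv' := by
        rw [hzv1] at h4
        exact (Option.some.inj h4).symm
      rw [h6] at h5
      exact hc_trans (hc_symm hzv2) (hc_trans h5 h3)
    · left
      obtain ⟨-, zu'', h4, -, -, h5⟩ := uq_u h hz
      have h6 : zu'' = zu' := by
        rw [hzu1] at h4
        exact (Option.some.inj h4).symm
      rw [h6] at h5
      exact hc_trans (hc_symm hzu2) (hc_trans h5 h3)
  rcases key with h3 | h3
  · obtain ⟨k1, -⟩ := fil_le_hc (uq_leg h) hHu h1 (sub_le hs1 hL) hu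
    have k2 : c ∈ (S.glue x y h.hx h.hy).HC T zu := ⟨hcG, h3⟩
    rw [k1] at k2
    have k3 : c ∈ S'.X := uq_X_mono hs1 hcX
    rw [fil_X hHu h1] at k3
    exact k3.2 k2
  · obtain ⟨k1, -⟩ := fil_le_hc (uq_leg h) hHv h2 (sub_le hs2 hL) hv
    have k2 : c ∈ (S.glue x y h.hx h.hy).HC T zv := ⟨hcG, h3⟩
    rw [k1] at k2
    have k3 : c ∈ S''.X := uq_X_mono hs2 hcX
    rw [fil_X hHv h2] at k3
    exact k3.2 k2

end

variable {D : Type} [Finite D] {T : Tri D} {b : Part D → Option D} {X' Z Z₁ Z₂ : Part D} {d z z₁ z₂ : D} {s s' : Stp} {w w' : List Stp}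

theorem st_unq (hX : Tgt T X') (hZ : Z.HConn T) (h₁ : Z.St d s Z₁ z₁) (h₂ : Z.St d s' Z₂ z₂) (hs₁ : Z₁.Sub X') (hs₂ : Z₂.Sub X') :
    s = s' ∧ Z₁ = Z₂ ∧ z₁ = z₂ := by
  have hL1 := sub_le hs₁ hX.le
  have hL2 := sub_le hs₂ hX.le
  suffices hss : s = s' by
    subst hss
    obtain ⟨e1, e2⟩ := st_unique h₁ h₂ hs₁ hs₂
    exact ⟨rfl, e1, e2⟩
  have hST : Z.Le T := sub_le (st_sub h₁).1 hL1
  -- the value of `T.a d`
  have keyT : ∀ {S' : Part D} {z : D}, Z.St d .T S' z → S'.Le T → T.a d ∉ Z.R := by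
    rintro S' z ⟨t0, t1, t2, hx, h0, h1, h2, h01, h12, h20, rfl, -⟩ hle
    have h3 : (Z.face d t0 t1 t2 hx h0 h1 h2 h01 h12 h20).a d = t0 := uq_fa Z hx h0 h1 h2 h01 h12 h20
    have h4 : t0 ≠ d := by
      rintro rfl
      exact h0 (Z.B_sub_R hx)
    rw [hle.2 d (by rw [h3]; exact h4), h3]
    exact h0
  have keyG : ∀ {y : D} {u v : List D} {hx : d ∈ Z.B} {hy : y ∈ Z.B} {S' : Part D}
      {w : List D} {a : ℕ}, Z.hw d = d :: (u ++ y :: v) → (Z.glue d y hx hy).DiscFill S' w a → S'.Le T →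
      UqS Z T d y u v := by
    intro y u v hx hy S' w a hw hd hle
    have hsub : (Z.glue d y hx hy).Sub S' := by
      rcases hd with ⟨-, -, rfl⟩ | ⟨-, V, -, hf⟩
      · exact sub_refl _
      · exact hf.sub
    have hle2 := sub_le hsub hle
    have hxy := (uq_word hx hw).1
    have h3 : (Z.glue d y hx hy).a d = y := uq_ga Z hx hy
    have h4 : T.a d = y := by
      rw [hle2.2 d (by rw [h3]; exact hxy.symm), h3]
    exact ⟨hST, hx, hy, h4, hw⟩
  -- the number of triangles in a side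
  have keyA : ∀ {y : D} {hx : d ∈ Z.B} {hy : y ∈ Z.B} {S' S'' : Part D} {w : List D}
      {z0 : D} {a b : ℕ}, (Z.glue d y hx hy).Le T → (w ≠ [] → z0 ∈ (Z.glue d y hx hy).B ∧ (Z.glue d y hx hy).hw z0 = w) →
      (Z.glue d y hx hy).DiscFill S' w a → (Z.glue d y hx hy).DiscFill S'' w b → S'.Le T → S''.Le T → a = b := by
    intro y hx hy S' S'' w z0 a b hleg hz h1 h2 hl1 hl2
    rcases h1 with ⟨h1, ha, -⟩ | ⟨hne, V, hV, h1⟩
    · rcases h2 with ⟨-, hb, -⟩ | ⟨hne, -⟩
      · rw [ha, hb]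
      · exact absurd h1 hne
    · rcases h2 with ⟨h2, -, -⟩ | ⟨-, V', hV', h2⟩
      · exact absurd h2 hne
      · obtain ⟨hzB, hzw⟩ := hz hne
        subst hzw
        obtain ⟨-, k1⟩ := fil_le_hc hleg (uq_hun hzB) h1 hl1 (uq_self hzB)
        obtain ⟨-, k2⟩ := fil_le_hc hleg (uq_hun hzB) h2 hl2 (uq_self hzB)
        have k3 := h1.R
        have k4 := h2.R
        rw [k1] at k3
        rw [k2] at k4
        omega
  cases s with
  | T =>
    cases s' with
    | T => rfl
    | R k a =>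
      obtain ⟨y, u, v, w, hx, hy, hw, -, -, hd⟩ := h₂
      have h1 := keyG hw hd hL2
      exact absurd (Z.B_sub_R (h1.hT ▸ hy)) (keyT h₁ hL1)
    | L k a =>
      obtain ⟨y, u, v, w, hx, hy, hw, -, -, hd⟩ := h₂
      have h1 := keyG hw hd hL2
      exact absurd (Z.B_sub_R (h1.hT ▸ hy)) (keyT h₁ hL1)
  | R k a =>
    obtain ⟨y, u, v, w, hx, hy, hw, hk, hv, hd⟩ := h₁
    have h1 := keyG hw hd hL1
    cases s' with
    | T => exact absurd (Z.B_sub_R (h1.hT ▸ hy)) (keyT h₂ hL2)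
    | R k' a' =>
      obtain ⟨y', u', v', w', hx', hy', hw', hk', hv', hd'⟩ := h₂
      have h2 := keyG hw' hd' hL2
      have hyy : y' = y := h2.hT.symm.trans h1.hT
      subst hyy
      obtain ⟨rfl, rfl⟩ := uq_dec hx hw hw'
      have h3 : k = k' := hk.symm.trans hk'
      subst h3
      have h4 : a = a' := by
        cases u with
        | nil => exact keyA (z0 := d) (uq_leg h1) (fun h => absurd rfl h) hd hd' hL1 hL2
        | cons zu u =>
          obtain ⟨-, zu', hzu1, hzu', hwu, -⟩ := uq_u h1 (z := zu) List.mem_cons_self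
          exact keyA (z0 := zu') (uq_leg h1) (fun _ => ⟨hzu', hwu⟩) hd hd' hL1 hL2
      rw [h4]
    | L k' a' =>
      obtain ⟨y', u', v', w', hx', hy', hw', hk', hu', hd'⟩ := h₂
      have h2 := keyG hw' hd' hL2
      have hyy : y' = y := h2.hT.symm.trans h1.hT
      subst hyy
      obtain ⟨rfl, rfl⟩ := uq_dec hx hw hw'
      exact (uq_two h1 hZ (hu' ▸ List.mem_cons_self) (hv ▸ List.mem_cons_self) hd hd' hs₁ hs₂ hX.le hX.ne).elim
  | L k a =>
    obtain ⟨y, u, v, w, hx, hy, hw, hk, hu, hd⟩ := h₁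
    have h1 := keyG hw hd hL1
    cases s' with
    | T => exact absurd (Z.B_sub_R (h1.hT ▸ hy)) (keyT h₂ hL2)
    | L k' a' =>
      obtain ⟨y', u', v', w', hx', hy', hw', hk', hu', hd'⟩ := h₂
      have h2 := keyG hw' hd' hL2
      have hyy : y' = y := h2.hT.symm.trans h1.hT
      subst hyy
      obtain ⟨rfl, rfl⟩ := uq_dec hx hw hw'
      have h3 : k = k' := hk.symm.trans hk'
      subst h3
      have h4 : a = a' := by
        cases v with
        | nil => exact keyA (z0 := d) (uq_leg h1) (fun h => absurd rfl h) hd hd' hL1 hL2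
        | cons zv v =>
          obtain ⟨-, zv', hzv1, hzv', hwv, -⟩ := uq_v h1 (z := zv) List.mem_cons_self
          exact keyA (z0 := zv') (uq_leg h1) (fun _ => ⟨hzv', hwv⟩) hd hd' hL1 hL2
      rw [h4]
    | R k' a' =>
      obtain ⟨y', u', v', w', hx', hy', hw', hk', hv', hd'⟩ := h₂
      have h2 := keyG hw' hd' hL2
      have hyy : y' = y := h2.hT.symm.trans h1.hT
      subst hyy
      obtain ⟨rfl, rfl⟩ := uq_dec hx hw hw'
      exact (uq_two h1 hZ (hu ▸ List.mem_cons_self) (hv' ▸ List.mem_cons_self) hd' hd hs₂ hs₁ hX.le hX.ne).elim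

theorem br_unq (hX : Tgt T X') (hZ : Z.HConn T) (hb : b X' = none) (h₁ : BR b Z z w X' z₁) (h₂ : BR b Z z w' X' z₂) :
    w = w' ∧ z₁ = z₂ := by
  induction w generalizing Z z w' with
  | nil =>
    obtain ⟨e1, e2⟩ := h₁
    cases w' with
    | nil => exact ⟨rfl, e2.trans h₂.2.symm⟩
    | cons s' w' =>
      obtain ⟨d, Z₁, z', hbZ, -⟩ := h₂
      rw [← e1, hb] at hbZ
      exact absurd hbZ (by simp)
  | cons s w ih =>
    cases w' with
    | nil =>
      obtain ⟨d, Z₁, z', hbZ, -⟩ := h₁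
      rw [← h₂.1, hb] at hbZ
      exact absurd hbZ (by simp)
    | cons s' w' =>
      obtain ⟨d, Z₁, z', hbZ, hd, hz, hst, hr⟩ := h₁
      obtain ⟨d', Z₂, z'', hbZ', hd', hz', hst', hr'⟩ := h₂
      rw [hbZ] at hbZ'
      have hdd : d = d' := Option.some.inj hbZ'
      subst hdd
      have h1 := br_sub hr
      obtain ⟨rfl, rfl, rfl⟩ := st_unq hX hZ hst hst' h1 (br_sub hr')
      have h2 := st_fwd hst (sub_le h1 hX.le) hZ
      obtain ⟨rfl, h3⟩ := ih h2 hr hr'
      exact ⟨rfl, h3⟩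

end Part
end SYS
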