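import Pool.Agent.SYS.PX.El
import Pool.Agent.SYS.PX.Unq

/-!
# SYS-PX-Rea: every region between is passed, ends are unique
-/

namespace SYS
namespace Part

open Classical SST

variable {n κ : ℕ} {T : Tri (Fin (6 * n))} {l : List (Fin (6 * n))} {P : List ℕ} {S X' Z Z₀ : Part (Fin (6 * n))}
  {x x' z z₀ : Fin (6 * n)} {b : Part (Fin (6 * n)) → Option (Fin (6 * n))} {w : List Stp}

theorem sub_anti {D : Type} {S S' : Part D} (h : S.Sub S') (h' : S'.Sub S) : S = S' := by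
  have hf : S.f = S'.f := by
    ext d
    by_cases h1 : S.f d = d
    · by_cases h2 : S'.f d = d
      · rw [h1, h2]
      · exact h'.1 d h2
    · exact (h.1 d h1).symm
  have ha : S.a = S'.a := by
    ext d
    by_cases h1 : S.a d = d
    · by_cases h2 : S'.a d = d
      · rw [h1, h2]
      · exact h'.2 d h2
    · exact (h.2 d h1).symm
  cases S
  cases S'
  simp only [Part.mk.injEq]
  exact ⟨ha, hf⟩

private theorem rea_aux (hT : T ∈ Trn n κ) (hX : Tgt T X') : ∀ (m : ℕ) (Z : Part (Fin (6 * n))) (z : Fin (6 * n)),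
    {e | Z.a e ≠ X'.a e}.ncard ≤ m → In T κ l P X' Z z →
    (∀ Z' z', In T κ l P X' Z' z' → Z.Sub Z' → Z' ≠ X' → ∃ d, b Z' = some d ∧ d ∈ Z'.B ∧ d ∉ X'.B) →
    ∃ w z', BR b Z z w X' z' := by
  intro m
  induction m with
  | zero =>
    intro Z z hm h hb
    by_cases hne : Z = X'
    · subst hne
      exact ⟨[], z, rfl, rfl⟩
    · exfalso
      obtain ⟨d, hbd, hdB, hdX⟩ := hb Z z h (sub_refl Z) hne
      have hzd : Z.s.SameCycle z d := by
        by_contra hns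
        exact hdX (h.hu d hdB hns)
      obtain ⟨s, Z₁, z₁, hst, hIn⟩ := el hT hX h hdB hzd hdX
      obtain ⟨h1, h2⟩ := st_strict hst
      have h3 : d ∈ {e | Z.a e ≠ X'.a e} := by
        show Z.a d ≠ X'.a d
        rw [h1, hIn.sub.2 d h2]
        exact h2.symm
      have h4 : {e | Z.a e ≠ X'.a e}.ncard = 0 := Nat.le_zero.1 hm
      rw [Set.ncard_eq_zero (Set.toFinite _)] at h4
      rw [h4] at h3
      exact h3
  | succ m ih =>
    intro Z z hm h hb
    by_cases hne : Z = X'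
    · subst hne
      exact ⟨[], z, rfl, rfl⟩
    · obtain ⟨d, hbd, hdB, hdX⟩ := hb Z z h (sub_refl Z) hne
      have hzd : Z.s.SameCycle z d := by
        by_contra hns
        exact hdX (h.hu d hdB hns)
      obtain ⟨s, Z₁, z₁, hst, hIn⟩ := el hT hX h hdB hzd hdX
      obtain ⟨h1, h2⟩ := st_strict hst
      have hsub : Z.Sub Z₁ := (st_sub hst).1
      have h3 : {e | Z₁.a e ≠ X'.a e} ⊂ {e | Z.a e ≠ X'.a e} := by
        rw [Set.ssubset_iff_of_subset]
        · refine ⟨d, ?_, fun h4 => h4 (hIn.sub.2 d h2).symm⟩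
          show Z.a d ≠ X'.a d
          rw [h1, hIn.sub.2 d h2]
          exact h2.symm
        · intro e he h4
          have he' : Z₁.a e ≠ X'.a e := he
          by_cases h5 : Z₁.a e = e
          · by_cases h6 : Z.a e = e
            · apply he'
              rw [h5, ← h4, h6]
            · apply h6
              rw [← hsub.2 e h6, h5]
          · exact he' (hIn.sub.2 e h5).symm
      have h4 := Set.ncard_lt_ncard h3 (Set.toFinite _)
      obtain ⟨w, z', hw⟩ := ih Z₁ z₁ (by omega) hIn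
        (fun Z' z' h5 h6 h7 => hb Z' z' h5 (sub_trans hsub h6) h7)
      exact ⟨s :: w, z', d, Z₁, z₁, hbd, hdB, hzd, hst, hw⟩

theorem reach (hT : T ∈ Trn n κ) (hX : Tgt T X') (h : In T κ l P X' Z z)
    (hb : ∀ Z' z', In T κ l P X' Z' z' → Z.Sub Z' → Z' ≠ X' → ∃ d, b Z' = some d ∧ d ∈ Z'.B ∧ d ∉ X'.B) :
    ∃ w z', BR b Z z w X' z' :=
  rea_aux hT hX _ Z z le_rfl h hb

theorem end_sub (hT : T ∈ Trn n κ) (hM : Mon b S) (hX : Tgt T X') (hr : BR b Z₀ z₀ w X' x') (hS : S.Sub Z₀)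
    (h₀ : In T κ l P Z Z₀ z₀) (hZ : In T κ l P X' Z z) (hbZ : b Z = none) : X'.Sub Z := by
  have hzB : z ∈ Z.B := by
    obtain ⟨p, F, ht⟩ := hZ.typ
    exact ht.hl.1 z List.mem_cons_self
  have hTZ : Tgt T Z := ⟨in_le hX hZ, hZ.hc, ⟨z, hzB⟩⟩
  induction w generalizing Z₀ z₀ with
  | nil =>
    obtain ⟨rfl, rfl⟩ := hr
    exact h₀.sub
  | cons s w ih =>
    obtain ⟨d, Z₁, z₁, hbd, hdB, hsc, hst, hr⟩ := hr
    obtain ⟨-, hdZ⟩ := hM Z₀ Z hS h₀.sub hbZ d hbd
    obtain ⟨s', Z₂, z₂, hst', hIn⟩ := el hT hTZ h₀ hdB hsc hdZ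
    obtain ⟨-, h1, h2⟩ := st_unq hX h₀.hc hst hst' (br_sub hr) (sub_trans hIn.sub hZ.sub)
    rw [← h1, ← h2] at hIn
    exact ih hr (sub_trans hS (st_sub hst).1) hIn

theorem end_eq (hT : T ∈ Trn n κ) (hM : Mon b S) (hX : Tgt T X') (hr : BR b S x w X' x')
    (h₀ : In T κ l P Z S x) (hZ : In T κ l P X' Z z) (hbZ : b Z = none) : Z = X' :=
  sub_anti hZ.sub (end_sub hT hM hX hr (sub_refl S) h₀ hZ hbZ)

end Part
end SYS
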