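import Pool.Agent.SYS.PX.Rea
import Pool.Agent.SYS.PX.Nwe
import Pool.Agent.SYS.PX.Pos

/-!
# SYS-PX-Spm: the spatial Markov property of the blocks

PLAN.  For `q ∈ Q` let `X' = q.2.1`, `T` from `hQT`.  FACTS: `S.HConn T` (`rchg_hconn` with `br_rchg`), `X'.Typ (q.2.2 :: l) ..` (`br_typ`), `Tgt T X'`, `S.Hu X' x` (`br_hu`), `In T κ l P X' S x`, `In T κ l P X' Y y` (`rchg_typ`, `rchg_fwd`, `hu_rchg`).
(1) There are `w_q`, `z_q` with `BR b Y y w_q X' z_q`: `reach`; `hb`: let `In .. Z' z'`, `Y.Sub Z'`, `Z' ≠ X'`; if `b Z' = none` then `end_eq` (`In T κ l P Z' S x`: `S.Sub Z'`, `Hu`: a dart `e ∈ S.B` of another hole is in `X'.B`, in `Z'.R`, and `Z'.a e = e` since `Z'.Sub X'`) gives `Z' = X'`;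
if `b Z' = some d`: `hM` (`Z'.Sub X'`, `b X' = none`): `d ∈ Z'.B`, `d ∉ X'.B`.
(2) `RchG (rb b) [] Y (rb b [] Y y) w_q X' z_q` (`br_rchg`, `rb_none`); `nwt_cat` (with `x₀ = x`, `v`, `w' = w_q`; the run from `S` to `X'` is the run of `q`, `br_rchg`, with its gate `rb b [] S x`, in the hole of `x`: `typ_repl` for the base and symmetric `SameCycle`):
`nwt X F q.1 = nwt X F v * nwt X (F - wvol v) w_q`.
(3) So it is enough: `∑ nwt X (F - wvol v) w_q ≤ 1`.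
(4) `tree_mass` for the base `Y`, gate `rb b [] Y y` (`typ_repl`), rule `rb b`, `Q' = image of q ↦ (w_q, X', z_q)`: prefix-free: if `Anc` from `X'₁` to `X'₂` with a word `v'`: `X'₁.Sub X'₂`, both ends of the block from `S`, `end_eq` gives `X'₁ = X'₂`, so `v' = []` (`st_strict`: a nonempty run changes the region).
(5) `q ↦ (w_q, X', z_q)` is injective on `Q`: `X'` determines `q.1`, `q.2.2` (`br_unq`).
-/

namespace SYS
namespace Part

open Classical SST Num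

variable {n κ : ℕ} {l : List (Fin (6 * n))} {p : ℕ} {P : List ℕ} {F : ℕ} {S Y : Part (Fin (6 * n))} {x y : Fin (6 * n)}
  {b : Part (Fin (6 * n)) → Option (Fin (6 * n))} {σ : List Stp → Part (Fin (6 * n)) → Fin (6 * n) → Fin (6 * n)} {h v : List Stp}

/-- facts about an end of the block -/
private theorem spm_facts (hS : S.Typ (x :: l) (p :: P) F κ) {q : List Stp × Part (Fin (6 * n)) × Fin (6 * n)}
    (hq : BEnd b S x q) {T : Tri (Fin (6 * n))} (hT : T ∈ q.2.1.Ext κ) (hc : q.2.1.HConn T) :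
    Tgt T q.2.1 ∧ S.HConn T ∧ In T κ l P q.2.1 S x ∧
      (∃ p' F', q.2.1.Typ (q.2.2 :: l) (p' :: P) F' κ) ∧ S.Hu q.2.1 x := by
  obtain ⟨hr, hb⟩ := hq
  obtain ⟨_, F', _, hT'⟩ := br_typ hS hr
  have hxB : x ∈ S.B := hS.hl.1 x List.mem_cons_self
  have hSc : S.HConn T := rchg_hconn (br_rchg (h := []) hr) hT.2 hc
  have hhu := br_hu hxB hr
  refine ⟨⟨hT.2, hc, ⟨q.2.2, hT'.hl.1 _ List.mem_cons_self⟩⟩, hSc,
    ⟨⟨p, F, hS⟩, hSc, br_sub hr, hhu⟩, ⟨_, F', hT'⟩, hhu⟩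

/-- Ends containing `Y` have at most the weight of `Y`. -/
theorem spm {X : ℝ} (hX : 0 < X) (hS : S.Typ (x :: l) (p :: P) F κ) (hM : Mon b S)
    (Q : Finset (List Stp × Part (Fin (6 * n)) × Fin (6 * n))) (hQ : ∀ q ∈ Q, BEnd b S x q)
    (hQT : ∀ q ∈ Q, ∃ T ∈ q.2.1.Ext κ, q.2.1.HConn T) (hσ : Rul σ) (hY : RchG σ h S x v Y y) (hQY : ∀ q ∈ Q, Y.Sub q.2.1) :
    ∑ q ∈ Q, nwt X F q.1 ≤ nwt X F v := by
  haveI : Nonempty (Fin (6 * n)) := ⟨x⟩
  have hxB : x ∈ S.B := hS.hl.1 x List.mem_cons_self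
  obtain ⟨hg1, hg2⟩ := rb_rul b [] S x hxB
  obtain ⟨_, FY, hFY, hYT⟩ := rchg_typ hσ hS hY
  have hyB : y ∈ Y.B := hYT.hl.1 y List.mem_cons_self
  obtain ⟨hy1, hy2⟩ := rb_rul b [] Y y hyB
  have hSY : S.Sub Y := rchg_sub hY
  -- the words from `Y`
  have hex : ∀ q ∈ Q, ∃ (w : List Stp) (z' : Fin (6 * n)), BR b Y y w q.2.1 z' := by
    intro q hq
    obtain ⟨T, hT, hc⟩ := hQT q hq
    obtain ⟨hTgt, hSc, hInS, _, hhu⟩ := spm_facts hS (hQ q hq) hT hc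
    have hYL : Y.Le T := sub_le (hQY q hq) hT.2
    have hYc : Y.HConn T := rchg_fwd hY hYL hSc
    have hYhu : Y.Hu q.2.1 y := hu_rchg hσ hS hY hhu
    refine reach hT.1 hTgt ⟨⟨_, FY, hYT⟩, hYc, hQY q hq, hYhu⟩ ?_
    intro Z' z' hIn hYZ hne
    have hSZ : S.Sub Z' := sub_trans hSY hYZ
    rcases hbZ : b Z' with _ | d
    · exfalso
      apply hne
      refine end_eq hT.1 hM hTgt (hQ q hq).1 ⟨⟨p, F, hS⟩, hSc, hSZ, ?_⟩ hIn hbZ
      intro e he hex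
      have h1 := hhu e he hex
      refine ⟨?_, ?_⟩
      · rw [hSZ.1 e he.1]
        exact he.1
      · by_contra h2
        have h3 := hIn.sub.2 e h2
        rw [h1.2] at h3
        exact h2 h3.symm
    · obtain ⟨h1, h2⟩ := hM Z' q.2.1 hSZ hIn.sub (hQ q hq).2 d hbZ
      exact ⟨d, rfl, h1, h2⟩
  choose! wq zq hwz using hex
  -- runs
  have hrun : ∀ q ∈ Q, RchG (rb b) [] Y (rb b [] Y y) (wq q) q.2.1 (zq q) := by
    intro q hq
    have h1 := br_rchg (h := []) (hwz q hq)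
    rw [rb_none (hQ q hq).2] at h1
    exact h1
  have hrunS : ∀ q ∈ Q, RchG (rb b) [] S (rb b [] S x) q.1 q.2.1 q.2.2 := by
    intro q hq
    have h1 := br_rchg (h := []) (hQ q hq).1
    rw [rb_none (hQ q hq).2] at h1
    exact h1
  have hcat : ∀ q ∈ Q, nwt X F q.1 = nwt X F v * nwt X (F - wvol v) (wq q) := by
    intro q hq
    exact (nwt_cat hX (rb_rul b) hσ (rb_rul b) (typ_repl hS hg1 hg2) hxB hg2.symm (hrunS q hq) hY
      hy1 hy2 (hrun q hq)).1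
  rw [Finset.sum_congr rfl hcat, ← Finset.mul_sum]
  have hFF : F - wvol v = FY := by omega
  rw [hFF]
  have hinj : ∀ q ∈ Q, ∀ q' ∈ Q, (wq q, q.2.1, zq q) = (wq q', q'.2.1, zq q') → q = q' := by
    intro q hq q' hq' heq
    have h1 : q.2.1 = q'.2.1 := congrArg (fun t => t.2.1) heq
    obtain ⟨T, hT, hc⟩ := hQT q hq
    obtain ⟨hTgt, hSc, _, _, _⟩ := spm_facts hS (hQ q hq) hT hc
    have h2 := (hQ q' hq').1
    rw [← h1] at h2
    obtain ⟨h3, h4⟩ := br_unq hTgt hSc (hQ q hq).2 (hQ q hq).1 h2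
    exact Prod.ext h3 (Prod.ext h1 h4)
  have hsum : ∑ q ∈ Q, nwt X FY (wq q) =
      ∑ t ∈ Q.image (fun q => (wq q, q.2.1, zq q)), nwt X FY t.1 := by
    rw [Finset.sum_image hinj]
  have hmass : ∑ q ∈ Q, nwt X FY (wq q) ≤ 1 := by
    rw [hsum]
    refine tree_mass hX (rb_rul b) (h := []) (typ_repl hYT hy1 hy2) _ ?_ ?_
    · intro t ht
      obtain ⟨q, hq, rfl⟩ := Finset.mem_image.1 ht
      exact hrun q hq
    · intro t ht t' ht' hanc
      obtain ⟨q, hq, rfl⟩ := Finset.mem_image.1 ht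
      obtain ⟨q', hq', rfl⟩ := Finset.mem_image.1 ht'
      obtain ⟨v', hv1, hv2⟩ := hanc
      have hv1' : wq q' = wq q ++ v' := hv1
      have hv2' : RchG (rb b) ([] ++ wq q) q.2.1 (zq q) v' q'.2.1 (zq q') := hv2
      obtain ⟨T, hT, hc⟩ := hQT q' hq'
      obtain ⟨hTgt, hSc, _, _, hhu'⟩ := spm_facts hS (hQ q' hq') hT hc
      obtain ⟨T1, hT1, hc1⟩ := hQT q hq
      obtain ⟨_, _, _, ⟨p1, F1, htyp1⟩, hhu1⟩ := spm_facts hS (hQ q hq) hT1 hc1
      have hsub := rchg_sub hv2'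
      have hXc : q.2.1.HConn T := rchg_hconn hv2' hT.2 hc
      have hXhu : q.2.1.Hu q'.2.1 q.2.2 :=
        hu_rchg (rb_rul b) (typ_repl hS hg1 hg2) (hrunS q hq) (hu_repl hg2 hhu')
      have hXX : q.2.1 = q'.2.1 :=
        end_eq hT.1 hM hTgt (hQ q' hq').1
          ⟨⟨p, F, hS⟩, hSc, br_sub (hQ q hq).1, hhu1⟩
          ⟨⟨p1, F1, htyp1⟩, hXc, hsub, hXhu⟩ (hQ q hq).2
      rcases v' with _ | ⟨s, w'⟩
      · obtain ⟨_, h2⟩ := hv2'
        rw [List.append_nil] at hv1'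
        show (wq q, q.2.1, zq q) = (wq q', q'.2.1, zq q')
        rw [hv1', hXX, h2]
      · exfalso
        obtain ⟨S₁, z₁, hst, hr⟩ := hv2'
        obtain ⟨h1, h2⟩ := st_strict hst
        have h3 := (rchg_sub hr).2 _ h2
        rw [← hXX, h1] at h3
        exact h2 h3.symm
  calc nwt X F v * ∑ q ∈ Q, nwt X FY (wq q) ≤ nwt X F v * 1 :=
        mul_le_mul_of_nonneg_left hmass (nwt_nonneg hX F v)
    _ = nwt X F v := mul_one _

end Part
end SYS
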